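import Pool.Agent.Work.MP_8f87b2_top.Top8Sys

/-!
MP_8f87b2_co: the frame of the whole proof: top (heights `k .. k-3`), middle, bottom.
-/

set_option autoImplicit false

namespace Pool.OddHC

open Finset BinaryTree

/-- the frame: what is left is the system of the heights `≤ k - 4` with everything of height `≥ k - 3` old -/
theorem ham_of_parts8 {d : ℕ} (hd : 3 ≤ d) {W I : Set (X (d + 5))}
    (h : HasSys {c : Cyc (d + 5) | d + 2 ≤ htc c} {c | htc c < d + 2} W I)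
    (hW : ∀ w ∈ topW8 d, w ∉ W) (hI : ∀ w ∈ topW8 d, w ∉ I) :
    2 * (d + 5) + 1 ∈ Pool.Agent.Work.MP_8f87b2_co.compressionSet
      (Pool.Agent.Work.MP_8f87b2_co.oddGraph (d + 5)) := by
  have e0 : d + 2 ≤ htc (cyc (pwX (d + 5))) := by
    rw [htc_cyc]
    have e1 : ht (pwX (d + 5)).1 = d + 5 := ht_pw (d + 5)
    omega
  have e1 : ({cyc (pwX (d + 5))} : Set (Cyc (d + 5))) ∪
      {c : Cyc (d + 5) | d + 2 ≤ htc c ∧ c ≠ cyc (pwX (d + 5))} = {c | d + 2 ≤ htc c} := by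
    ext c
    constructor
    · rintro (hc | hc)
      · have hc' : c = cyc (pwX (d + 5)) := hc
        rw [hc']
        exact e0
      · exact hc.1
    · intro hc
      by_cases h1 : c = cyc (pwX (d + 5))
      · exact Or.inl h1
      · exact Or.inr ⟨hc, h1⟩
  have h1 := sys_union (top8_sys hd) (by rw [e1]; exact h) (by
      rintro c ⟨hc, _⟩ hc'
      change htc c < d + 2 at hc'
      omega) hW hI
  have e2 : {c : Cyc (d + 5) | d + 2 ≤ htc c ∧ c ≠ cyc (pwX (d + 5))} ∪ {c | htc c < d + 2} =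
      {cyc (pwX (d + 5))}ᶜ := by
    ext c
    constructor
    · rintro (hc | hc)
      · exact hc.2
      · intro h2
        have h2' : c = cyc (pwX (d + 5)) := h2
        rw [h2'] at hc
        change htc _ < d + 2 at hc
        omega
    · intro hc
      by_cases h2 : d + 2 ≤ htc c
      · exact Or.inl ⟨h2, hc⟩
      · exact Or.inr (not_le.1 h2)
  rw [e2] at h1
  exact sys_main (by omega) _ h1

/-- what a word of the top is -/
theorem topW8_cases {d : ℕ} {w : X (d + 5)} (h : w ∈ topW8 d) :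
    (∃ i < 8, w = x8 d i) ∨
    (∃ (f : ZMod (2 * (d + 2) + 1) → ℕ) (h : d + 2 + pkn (pwX (d + 2)).1 + (∑ z, f z + 1) = d + 5),
      f 0 = 0 ∧ (w = wH (pwX (d + 2)) f h ∨ w = wBb (pwX (d + 2)) f h ∨ w = wF (pwX (d + 2)) f h)) ∨
    (w = zA d ∨ w = zB d ∨ w = zC d) ∨
    (∃ (f : ZMod (2 * (d + 1) + 1) → ℕ) (h : d + 1 + pkn (pwX (d + 1)).1 + (∑ z, f z + 1) = d + 5),
      w = wH (pwX (d + 1)) f h ∨ w = wBb (pwX (d + 1)) f h ∨ w = wF (pwX (d + 1)) f h) := by
  rcases h with ((h | ⟨f, hf, h0, h1⟩) | ⟨-, h⟩) | ⟨f, hf, h1⟩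
  · exact Or.inl h
  · refine Or.inr (Or.inl ⟨f, hf, h0, ?_⟩)
    tauto
  · exact Or.inr (Or.inr (Or.inl h))
  · refine Or.inr (Or.inr (Or.inr ⟨f, hf, ?_⟩))
    tauto

end Pool.OddHC
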