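import Pool.Agent.Work.MP_8f87b2_top.TopGad6
import Pool.Agent.Work.MP_8f87b2_h13.Fam
import Pool.Agent.Work.MP_8f87b2_cont.Cont

/-!
MP_8f87b2_co, top of the directed road: every word of height `>= k - 2` lies in one of the T-cycles: root `(k)`,
`(k-1,1)`, `(k-2,2)`, `(k-2,1,1)` with bead distance `0..k-3`.
-/

set_option autoImplicit false

namespace Pool.OddHC

open Finset BinaryTree

/-- over a T-fixed word: one T-cycle = all rotations of the beads -/
theorem same_fix {j k : ℕ} (hj : 1 ≤ j) (u : X j) (hu : TT u = u) (a b : ZMod (2 * j + 1) → ℕ)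
    (h : j + pkn u.1 + ∑ x, a x = k) (h' : j + pkn u.1 + ∑ x, b x = k) :
    (TT : Equiv.Perm (X k)).SameCycle (phi u a h) (phi u b h') ↔
      ∃ t, b = fun x => a (x + t) := by
  rw [same_iff]
  constructor
  · rintro ⟨i, -, h1⟩
    exact ⟨_, h1⟩
  · rintro ⟨t, rfl⟩
    obtain ⟨i, hi⟩ := exists_sp hj u t
    refine ⟨i, ?_, by rw [hi]⟩
    clear hi
    induction i with
    | zero => rfl
    | succ i ih => rw [pow_succ, Equiv.Perm.mul_apply, hu, ih]

theorem ht_le (t : BinaryTree Unit) : ht t ≤ t.numNodes := by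
  induction t with
  | nil => exact le_rfl
  | node _ A B ihA ihB =>
    rw [ht]
    change _ ≤ A.numNodes + B.numNodes + 1
    omega

theorem ht_full {t : BinaryTree Unit} (h : ht t = t.numNodes) : t = pw t.numNodes := by
  induction t with
  | nil => rfl
  | node _ A B ihA ihB =>
    rw [ht] at h
    have e : (BinaryTree.node () A B).numNodes = A.numNodes + B.numNodes + 1 := rfl
    rw [e] at h ⊢
    have h1 := ht_le A
    have h2 := ht_le B
    have h3 : B.numNodes = 0 := by omega
    have h4 : ht A = A.numNodes := by omega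
    have h5 : B = .nil := by
      cases B with
      | nil => rfl
      | node _ C D => simp [BinaryTree.numNodes] at h3
    rw [h3, add_zero, pw_succ, ← ihA h4, h5]

/-- the nested word of size `j` as an element of `X j` -/
def pwX (j : ℕ) : X j := ⟨pw j, mem_treesOfNumNodesEq.2 (pw_num j)⟩

theorem ht_fullX {j : ℕ} (u : X j) (h : ht u.1 = j) : u = pwX j := by
  apply Subtype.ext
  have h1 := ht_full (t := u.1) (by rw [X_num, h])
  rw [X_num] at h1
  exact h1

theorem T_pwX (j : ℕ) : TT (pwX j) = pwX j := by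
  have h1 : ht (pwX j).1 = j := by
    change ht (pw j) = j
    induction j with
    | zero => rfl
    | succ j ih =>
      rw [pw_succ, ht, ih]
      change max (j + 1) 0 = j + 1
      omega
  rw [TT_apply]
  exact ht_fullX _ (by rw [ht_TF, h1])

/-- height and reduction -/
theorem ht_ins (t : BinaryTree Unit) (e : List ℕ) (he : e.length = 2 * t.numNodes + 1)
    (hn : t ≠ .nil) : ht (ins t e) = ht t + 1 := by
  rw [ht_eq, cont_ins t e he, sup_add', ht_eq]
  have hM : cont t ≠ 0 := fun h => hn (cont_eq_zero.1 h)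
  have hs : ((cont t).map (· + 1)).sup = (cont t).sup + 1 := by
    apply le_antisymm
    · apply Multiset.sup_le.2
      intro b hb
      obtain ⟨c, hc, rfl⟩ := Multiset.mem_map.1 hb
      exact Nat.succ_le_succ (Multiset.le_sup hc)
    · exact Multiset.le_sup (Multiset.mem_map.2 ⟨_, sup_mem hM, rfl⟩)
  have hr : (Multiset.replicate e.sum 1 : Multiset ℕ).sup ≤ 1 := by
    apply Multiset.sup_le.2
    intro b hb
    rw [Multiset.eq_of_mem_replicate hb]
  rw [hs]
  exact max_eq_left (hr.trans (by omega))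

/-- reduction with the height: a word of height `>= 2` -/
theorem red_ht {k : ℕ} (w : X k) (h : 2 ≤ ht w.1) :
    ∃ (j : ℕ) (u : X j) (a : ZMod (2 * j + 1) → ℕ) (hk : j + pkn u.1 + ∑ x, a x = k),
      w = phi u a hk ∧ ht u.1 + 1 = ht w.1 ∧ 1 ≤ j := by
  obtain ⟨j, u, e, he, hw, h1, h2⟩ := red_ex w
  obtain ⟨a, ha⟩ := exists_lf he
  have hs : e.sum = ∑ x, a x := by rw [ha, lf_sum]
  have hu : u.1 ≠ .nil := by
    intro h0
    have hj : j = 0 := by
      rw [← X_num u, h0]; rfl
    subst hj
    have hc : cont w.1 = Multiset.replicate e.sum 1 := by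
      rw [hw, cont_ins _ _ (by rw [X_num, he]), h0, cont_nil]
      simp
    have h4 : ht w.1 ≤ 1 := by
      rw [ht_eq, hc]
      apply Multiset.sup_le.2
      intro b hb
      rw [Multiset.eq_of_mem_replicate hb]
    omega
  have h5 := ht_ins u.1 e (by rw [X_num, he]) hu
  rw [← hw] at h5
  subst ha
  refine ⟨j, u, a, by omega, Subtype.ext hw, h5.symm, ?_⟩
  rcases Nat.eq_zero_or_pos j with rfl | hp
  · exfalso
    apply hu
    have := X_num u
    cases hh : u.1 with
    | nil => rfl
    | node _ A B =>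
      rw [hh] at this
      simp [BinaryTree.numNodes] at this
  · exact hp

/-- same bare word, no beads -/
theorem same_phi {j k : ℕ} {u u' : X j} {a : ZMod (2 * j + 1) → ℕ} {c : ℕ} (ha : ∀ x, a x = c)
    (h : j + pkn u.1 + ∑ x, a x = k) (h' : j + pkn u'.1 + ∑ x, a x = k)
    (hs : (TT : Equiv.Perm (X j)).SameCycle u u') :
    (TT : Equiv.Perm (X k)).SameCycle (phi u a h) (phi u' a h') := by
  obtain ⟨i, hi⟩ := sameCycle_nat hs
  refine ⟨(i : ℤ), ?_⟩
  rw [zpow_natCast, pow_phi]
  apply phi_congr hi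
  funext x
  rw [ha, ha]

/-- one bead: all equal -/
theorem one_bead {n : ℕ} [NeZero n] (a : ZMod n → ℕ) (h : ∑ x, a x = 1) :
    ∃ t, a = fun x => if x = t then 1 else 0 := by
  obtain ⟨t, ht⟩ : ∃ t, a t ≠ 0 := by
    by_contra hc
    push Not at hc
    rw [Finset.sum_eq_zero (fun x _ => hc x)] at h
    omega
  have h1 : a t + ∑ x ∈ univ.erase t, a x = 1 := by rw [← h]; exact Finset.add_sum_erase univ a (mem_univ t)
  have h2 : ∑ x ∈ univ.erase t, a x = 0 := by omega
  refine ⟨t, funext fun x => ?_⟩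
  split_ifs with hx
  · subst hx
    omega
  · exact Finset.sum_eq_zero_iff.1 h2 x (mem_erase.2 ⟨hx, mem_univ x⟩)

/-- one bead over a T-fixed word: one T-cycle -/
theorem same_one {j k : ℕ} (hj : 1 ≤ j) (u : X j) (hu : TT u = u) (a b : ZMod (2 * j + 1) → ℕ)
    (ha : ∑ x, a x = 1) (hb : ∑ x, b x = 1)
    (h : j + pkn u.1 + ∑ x, a x = k) (h' : j + pkn u.1 + ∑ x, b x = k) :
    (TT : Equiv.Perm (X k)).SameCycle (phi u a h) (phi u b h') := by
  obtain ⟨s, hs⟩ := one_bead a ha
  obtain ⟨t, ht⟩ := one_bead b hb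
  rw [same_fix hj u hu]
  refine ⟨s - t, funext fun x => ?_⟩
  rw [hs, ht]
  have : x + (s - t) = s ↔ x = t := by
    constructor
    · intro h; linear_combination h
    · rintro rfl; ring
  simp only [this]

/-- all words of size `j` and height `j - 1` are in one T-cycle, `j ≥ 3` -/
theorem same_sub {j : ℕ} (hj : 3 ≤ j) (w w' : X j) (h : ht w.1 + 1 = j) (h' : ht w'.1 + 1 = j) :
    (TT : Equiv.Perm (X j)).SameCycle w w' := by
  have key : ∀ w : X j, ht w.1 + 1 = j → ∃ (a : ZMod (2 * (j - 2) + 1) → ℕ)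
      (hk : j - 2 + pkn (pwX (j - 2)).1 + ∑ x, a x = j), w = phi (pwX (j - 2)) a hk ∧
      ∑ x, a x = 1 := by
    intro w h
    obtain ⟨l, u, a, hk, hw, h1, hl⟩ := red_ht w (by omega)
    have h2 := ht_le u.1
    rw [X_num] at h2
    have h3 : 1 ≤ pkn u.1 := pkn_pos u hl
    have h4 : l = j - 2 ∨ l = j - 1 := by omega
    rcases h4 with h4 | h4
    · subst h4
      have h5 : u = pwX (j - 2) := ht_fullX u (by omega)
      subst h5
      refine ⟨a, hk, hw, ?_⟩
      have h6 : pkn (pwX (j - 2)).1 = 1 := by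
        obtain ⟨q, hq⟩ : ∃ q, j - 2 = q + 1 := ⟨j - 3, by omega⟩
        change pkn (pw (j - 2)) = 1
        rw [hq, pkn_pw]
      omega
    · exfalso
      -- `l = j - 1`, `pkn u = 1`, no bead: `u` would be the nested word
      have h5 : pkn u.1 = 1 := by omega
      have h6 : (cont u.1).card = 1 := by rw [cont_card, h5]
      obtain ⟨b, hb⟩ := Multiset.card_eq_one.1 h6
      have h7 := cont_sum u.1
      rw [hb, Multiset.sum_singleton, X_num] at h7
      have h8 := ht_eq u.1
      rw [hb, Multiset.sup_singleton] at h8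
      omega
  obtain ⟨a, hk, hw, ha⟩ := key w h
  obtain ⟨b, hk', hw', hb⟩ := key w' h'
  rw [hw, hw']
  exact same_one (by omega) _ (T_pwX _) a b ha hb hk hk'

end Pool.OddHC
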