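import Pool.Agent.Work.MP_8f87b2_top.TopSys

/-!
MP_8f87b2_co, top of the directed road: THE TOP SYSTEM in the form of the assembly `dir_main`.
-/

set_option autoImplicit false

namespace Pool.OddHC

open Finset BinaryTree

/-- the gadget of the block -/
noncomputable def tg (d : ℕ) : DG (d + 5) := if d % 2 = 1 then topG d else top6 d

theorem tg_abs (d : ℕ) : (tg d).Abs := by
  unfold tg
  split_ifs
  · exact topG_abs d
  · exact top6_abs d

theorem tg_arcs (d : ℕ) : (tg d).arcs = ∅ := by
  unfold tg
  split_ifs <;> rfl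

theorem tg_B {d : ℕ} {x : X (d + 5)} (h : x ∈ (tg d).B) : ∃ i < 9, xW d i = x := by
  unfold tg at h
  split_ifs at h
  · exact (mem_topB d x).1 h
  · exact (mem_topB d x).1 (top6_sub d h)

theorem tg_root (d : ℕ) : pwX (d + 5) ∈ (tg d).B := by
  have e : pwX (d + 5) = xW d 0 := rfl
  rw [e]
  unfold tg
  split_ifs
  · exact (mem_topB d _).2 ⟨0, by omega, rfl⟩
  · exact (mem_top6 d _).2 ⟨0, by omega, rfl⟩

/-- the new words of the gadget of the block -/
theorem tg_F (d : ℕ) (x : X (d + 5)) : x ∈ (tg d).F ↔ (TT : Equiv.Perm (X (d + 5))).SameCycle (xW d 1) x ∨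
    (TT : Equiv.Perm (X (d + 5))).SameCycle (xW d 8) x ∨
    (TT : Equiv.Perm (X (d + 5))).SameCycle (c2w d 0) x ∨
    (d % 2 = 1 ∧ (TT : Equiv.Perm (X (d + 5))).SameCycle (c2w d 1) x) := by
  have a2 := s12 d
  have a3 := a2.trans (s23 d)
  have a4 := a3.trans (s34 d)
  have a5 : (TT : Equiv.Perm (X (d + 5))).SameCycle (xW d 5) (c2w d 0) := by
    rw [← w6_eq]
    exact s56 d
  have a6 : (TT : Equiv.Perm (X (d + 5))).SameCycle (xW d 6) (c2w d 0) := by
    rw [← w6_eq]
  have a7 := w7_same d
  unfold tg
  split_ifs with hd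
  · constructor
    · rintro ⟨i, h1, h2, h3⟩
      interval_cases i
      · exact Or.inl h3
      · exact Or.inl (a2.trans h3)
      · exact Or.inl (a3.trans h3)
      · exact Or.inl (a4.trans h3)
      · exact Or.inr (Or.inr (Or.inl (a5.symm.trans h3)))
      · exact Or.inr (Or.inr (Or.inl (a6.symm.trans h3)))
      · exact Or.inr (Or.inr (Or.inr ⟨hd, a7.symm.trans h3⟩))
      · exact Or.inr (Or.inl h3)
    · rintro (h | h | h | ⟨-, h⟩)
      · exact ⟨1, le_rfl, by omega, h⟩
      · exact ⟨8, by omega, by omega, h⟩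
      · exact ⟨6, by omega, by omega, a6.trans h⟩
      · exact ⟨7, by omega, by omega, a7.trans h⟩
  · constructor
    · rintro ⟨i, h1, h2, h3⟩
      interval_cases i
      · exact Or.inl (a2.trans h3)
      · exact Or.inl (a3.trans h3)
      · exact Or.inl (a4.trans h3)
      · exact Or.inr (Or.inr (Or.inl (a5.symm.trans h3)))
      · exact Or.inr (Or.inl h3)
    · rintro (h | h | h | ⟨h, -⟩)
      · exact ⟨1, le_rfl, by omega, a2.symm.trans h⟩
      · exact ⟨5, by omega, by omega, h⟩
      · exact ⟨4, by omega, by omega, a5.trans h⟩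
      · exact absurd h hd

theorem tg_F' (d : ℕ) (x : X (d + 5)) : x ∈ (tg d).F ↔ ht x.1 = d + 4 ∨
    (ht x.1 = d + 3 ∧ pkn x.1 = 2) ∨
    (TT : Equiv.Perm (X (d + 5))).SameCycle (c2w d 0) x ∨
    (d % 2 = 1 ∧ (TT : Equiv.Perm (X (d + 5))).SameCycle (c2w d 1) x) := by
  rw [tg_F]
  have e1 : (TT : Equiv.Perm (X (d + 5))).SameCycle (xW d 1) x ↔ ht x.1 = d + 4 := by
    constructor
    · intro h
      rw [← ht_same h, ht_W1]
    · intro h
      exact same_sub (by omega) _ _ (by rw [ht_W1]) (by rw [h])
  have e2 : (TT : Equiv.Perm (X (d + 5))).SameCycle (xW d 8) x ↔ ht x.1 = d + 3 ∧ pkn x.1 = 2 := by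
    constructor
    · intro h
      refine ⟨by rw [← ht_same h, (ht_W8 d).1], ?_⟩
      rw [← cont_card, ← cont_same h, cont_card, (ht_W8 d).2]
    · rintro ⟨h, h'⟩
      exact same_d1 d _ _ (ht_W8 d).1 (ht_W8 d).2 h h'
  rw [e1, e2]

/-- number of the hop triples -/
def tN (d : ℕ) : ℕ := (d + 2 - d % 2) / 2

/-- the first distance of the pair `i` -/
def tcT (d i : ℕ) : ℕ := 1 + d % 2 + 2 * i

theorem tcT_le {d i : ℕ} (h : i < tN d) : tcT d i + 1 ≤ d + 2 := by
  unfold tN at h
  unfold tcT
  omega

/-- the hole of the pair `i`, phase `b` -/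
def th (d : ℕ) (b : Bool) (i : ℕ) : ℕ := if b then 2 * (d + 2) - tcT d i else tcT d i

/-- THE GADGETS OF THE TOP; `ph` chooses the phases of the hop triples -/
noncomputable def topGad (d : ℕ) (ph : ℕ → Bool) : Option (Fin (tN d)) → DG (d + 5)
  | none => tg d
  | some i => triDG (eP d (th d (ph i) i)) (eB d (th d (ph i) i)) (eF d (th d (ph i) i))

/-- the new words of the hop triple -/
theorem some_F (d : ℕ) (ph : ℕ → Bool) (i : Fin (tN d)) (x : X (d + 5)) :
    x ∈ (topGad d ph (some i)).F ↔ (TT : Equiv.Perm (X (d + 5))).SameCycle (c2w d (tcT d i)) x ∨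
      (TT : Equiv.Perm (X (d + 5))).SameCycle (c2w d (tcT d i + 1)) x := by
  change (TT : Equiv.Perm (X (d + 5))).SameCycle (eB d _) x ∨
    (TT : Equiv.Perm (X (d + 5))).SameCycle (eF d _) x ↔ _
  have hi := tcT_le i.2
  unfold th
  cases ph i with
  | false =>
    simp only [Bool.false_eq_true, if_false]
    have h1 := eB_same d (tcT d i)
    rw [eF_eq]
    constructor
    · rintro (h | h)
      · exact Or.inr (h1.trans h)
      · exact Or.inl h
    · rintro (h | h)
      · exact Or.inr h
      · exact Or.inl (h1.symm.trans h)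
  | true =>
    simp only [if_true]
    have h1 := eB_same d (2 * (d + 2) - tcT d i)
    have h2 := c2w_mir d (tcT d i) (by omega)
    have h3 := c2w_mir d (tcT d i + 1) (by omega)
    have e1 : 2 * (d + 2) - tcT d i + 1 = 2 * (d + 2) + 1 - tcT d i := by omega
    have e2 : 2 * (d + 2) + 1 - (tcT d i + 1) = 2 * (d + 2) - tcT d i := by omega
    rw [e1] at h1
    rw [e2] at h3
    rw [eF_eq]
    constructor
    · rintro (h | h)
      · exact Or.inl (h2.symm.trans (h1.trans h))
      · exact Or.inr (h3.symm.trans h)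
    · rintro (h | h)
      · exact Or.inl (h1.symm.trans (h2.trans h))
      · exact Or.inr (h3.trans h)

theorem ph_c2w {d h : ℕ} {x : X (d + 5)}
    (hs : (TT : Equiv.Perm (X (d + 5))).SameCycle (c2w d h) x) : ht x.1 = d + 3 ∧ pkn x.1 = 3 := by
  constructor
  · rw [← ht_same hs, ht_c2w]
  · rw [← cont_card, ← cont_same hs, cont_card, pkn_c2w]

/-- every new word has height `>= k - 2` -/
theorem top_ht (d : ℕ) (ph : ℕ → Bool) (g : Option (Fin (tN d))) (x : X (d + 5))
    (h : x ∈ (topGad d ph g).F) : d + 3 ≤ ht x.1 := by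
  cases g with
  | none =>
    change x ∈ (tg d).F at h
    rw [tg_F'] at h
    rcases h with h | ⟨h, -⟩ | h | ⟨-, h⟩
    · omega
    · omega
    · rw [(ph_c2w h).1]
    · rw [(ph_c2w h).1]
  | some i =>
    rw [some_F] at h
    rcases h with h | h
    · rw [(ph_c2w h).1]
    · rw [(ph_c2w h).1]

theorem top_hF (d : ℕ) (ph : ℕ → Bool) (g : Option (Fin (tN d))) (w w' : X (d + 5))
    (hs : (TT : Equiv.Perm (X (d + 5))).SameCycle w w') (h : w ∈ (topGad d ph g).F) :
    w' ∈ (topGad d ph g).F := by
  cases g with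
  | none =>
    change w ∈ (tg d).F at h
    change w' ∈ (tg d).F
    rw [tg_F] at h ⊢
    rcases h with h | h | h | ⟨h0, h⟩
    · exact Or.inl (h.trans hs)
    · exact Or.inr (Or.inl (h.trans hs))
    · exact Or.inr (Or.inr (Or.inl (h.trans hs)))
    · exact Or.inr (Or.inr (Or.inr ⟨h0, h.trans hs⟩))
  | some i =>
    rw [some_F] at h ⊢
    rcases h with h | h
    · exact Or.inl (h.trans hs)
    · exact Or.inr (h.trans hs)

theorem top_hroot (d : ℕ) (ph : ℕ → Bool) (g : Option (Fin (tN d))) :
    pwX (d + 5) ∉ (topGad d ph g).F := by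
  have e1 : ht (pwX (d + 5)).1 = d + 5 := ht_pw (d + 5)
  cases g with
  | none =>
    change _ ∉ (tg d).F
    rw [tg_F']
    rintro (h | ⟨h, -⟩ | h | ⟨-, h⟩)
    · omega
    · omega
    · have := (ph_c2w h).1; omega
    · have := (ph_c2w h).1; omega
  | some i =>
    rw [some_F]
    rintro (h | h)
    · have := (ph_c2w h).1; omega
    · have := (ph_c2w h).1; omega

/-- the words of height `>= k - 2` -/
theorem top_hall (d : ℕ) (ph : ℕ → Bool) (w : X (d + 5)) (h : d + 3 ≤ ht w.1) :
    w = pwX (d + 5) ∨ ∃ g, w ∈ (topGad d ph g).F := by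
  rcases top_class d w h with h1 | h1 | h1 | ⟨-, c, hc, hs⟩
  · exact Or.inl h1
  · exact Or.inr ⟨none, (tg_F' d w).2 (Or.inl h1)⟩
  · exact Or.inr ⟨none, (tg_F' d w).2 (Or.inr (Or.inl h1))⟩
  · right
    by_cases h0 : c = 0
    · subst h0
      exact ⟨none, (tg_F' d w).2 (Or.inr (Or.inr (Or.inl hs)))⟩
    by_cases h1 : d % 2 = 1 ∧ c = 1
    · obtain ⟨h1, rfl⟩ := h1
      exact ⟨none, (tg_F' d w).2 (Or.inr (Or.inr (Or.inr ⟨h1, hs⟩)))⟩
    have h2 : (c - (1 + d % 2)) / 2 < tN d := by
      unfold tN
      omega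
    refine ⟨some ⟨(c - (1 + d % 2)) / 2, h2⟩, (some_F d ph _ w).2 ?_⟩
    have h3 : c = tcT d ((c - (1 + d % 2)) / 2) ∨ c = tcT d ((c - (1 + d % 2)) / 2) + 1 := by
      unfold tcT
      omega
    rcases h3 with h3 | h3
    · left
      change (TT : Equiv.Perm (X (d + 5))).SameCycle (c2w d (tcT d ((c - (1 + d % 2)) / 2))) w
      rw [← h3]
      exact hs
    · right
      change (TT : Equiv.Perm (X (d + 5))).SameCycle (c2w d (tcT d ((c - (1 + d % 2)) / 2) + 1)) w
      rw [← h3]
      exact hs

theorem top_hFdis (d : ℕ) (ph : ℕ → Bool) (g g' : Option (Fin (tN d))) (hne : g ≠ g')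
    (w : X (d + 5)) (h : w ∈ (topGad d ph g).F) : w ∉ (topGad d ph g').F := by
  have key : ∀ (i : Fin (tN d)), w ∈ (tg d).F → w ∉ (topGad d ph (some i)).F := by
    intro i h1 h2
    have hi := tcT_le i.2
    rw [some_F] at h2
    have h3 : ht w.1 = d + 3 ∧ pkn w.1 = 3 := by
      rcases h2 with h2 | h2
      · exact ph_c2w h2
      · exact ph_c2w h2
    rw [tg_F'] at h1
    unfold tcT at h2 hi
    rcases h1 with h1 | ⟨h1, h4⟩ | h1 | ⟨h4, h1⟩
    · omega
    · omega
    · rcases h2 with h2 | h2
      · have := c2w_same (by omega) (by omega) (h1.trans h2.symm); omega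
      · have := c2w_same (by omega) (by omega) (h1.trans h2.symm); omega
    · rcases h2 with h2 | h2
      · have := c2w_same (by omega) (by omega) (h1.trans h2.symm); omega
      · have := c2w_same (by omega) (by omega) (h1.trans h2.symm); omega
  cases g with
  | none =>
    cases g' with
    | none => exact absurd rfl hne
    | some i => exact key i h
  | some i =>
    cases g' with
    | none => exact fun h' => key i h' h
    | some i' =>
      intro h'
      have hii : (i : ℕ) ≠ i' := by
        intro h0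
        exact hne (congrArg some (Fin.ext h0))
      rw [some_F] at h h'
      have hi := tcT_le i.2
      have hi' := tcT_le i'.2
      unfold tcT at h h' hi hi'
      rcases h with h | h <;> rcases h' with h' | h'
      · have := c2w_same (by omega) (by omega) (h.trans h'.symm); omega
      · have := c2w_same (by omega) (by omega) (h.trans h'.symm); omega
      · have := c2w_same (by omega) (by omega) (h.trans h'.symm); omega
      · have := c2w_same (by omega) (by omega) (h.trans h'.symm); omega

theorem mem_tri {k : ℕ} {a b c x : X k} : x ∈ (triDG a b c).B ↔ x = a ∨ x = b ∨ x = c := by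
  change x ∈ ({a, b, c} : Finset (X k)) ↔ _
  simp only [mem_insert, mem_singleton]

theorem top_hFne (d : ℕ) (ph : ℕ → Bool) (g : Option (Fin (tN d))) (w : X (d + 5))
    (h : w ∈ (topGad d ph g).F) :
    ∃ u ∈ (topGad d ph g).B, (TT : Equiv.Perm (X (d + 5))).SameCycle w u := by
  cases g with
  | none =>
    change w ∈ (tg d).F at h
    change ∃ u ∈ (tg d).B, _
    unfold tg at h ⊢
    split_ifs at h ⊢ with hd
    · obtain ⟨i, h1, h2, h3⟩ := h
      exact ⟨xW d i, (mem_topB d _).2 ⟨i, by omega, rfl⟩, h3.symm⟩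
    · obtain ⟨i, h1, h2, h3⟩ := h
      exact ⟨xV d i, (mem_top6 d _).2 ⟨i, by omega, rfl⟩, h3.symm⟩
  | some i =>
    change (TT : Equiv.Perm (X (d + 5))).SameCycle (eB d _) w ∨
      (TT : Equiv.Perm (X (d + 5))).SameCycle (eF d _) w at h
    rcases h with h | h
    · exact ⟨_, mem_tri.2 (Or.inr (Or.inl rfl)), h.symm⟩
    · exact ⟨_, mem_tri.2 (Or.inr (Or.inr rfl)), h.symm⟩

/-- the old words: the root, and the words `(Y)` of the top T-cycle `(k-1,1)` -/
theorem top_hB (d : ℕ) (ph : ℕ → Bool) (g : Option (Fin (tN d))) (w : X (d + 5))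
    (h : w ∈ (topGad d ph g).B) : w ∈ (topGad d ph g).F ∨ w = pwX (d + 5) ∨
      (g ≠ none ∧ w ∈ (topGad d ph none).F) := by
  cases g with
  | none =>
    change w ∈ (tg d).B at h
    by_cases h0 : w = pwX (d + 5)
    · exact Or.inr (Or.inl h0)
    · left
      change w ∈ (tg d).F
      unfold tg at h ⊢
      split_ifs at h ⊢ with hd
      · obtain ⟨i, hi, rfl⟩ := (mem_topB d w).1 h
        refine ⟨i, ?_, hi, Equiv.Perm.SameCycle.refl _ _⟩
        by_contra hc
        have : i = 0 := by omega
        subst this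
        exact h0 rfl
      · obtain ⟨i, hi, rfl⟩ := (mem_top6 d w).1 h
        refine ⟨i, ?_, hi, Equiv.Perm.SameCycle.refl _ _⟩
        by_contra hc
        have : i = 0 := by omega
        subst this
        exact h0 rfl
  | some i =>
    rcases mem_tri.1 h with h | h | h
    · right; right
      refine ⟨by simp, ?_⟩
      change w ∈ (tg d).F
      rw [tg_F', h, ht_eP]
      exact Or.inl rfl
    · left
      rw [h]
      exact Or.inl (Equiv.Perm.SameCycle.refl _ _)
    · left
      rw [h]
      exact Or.inr (Equiv.Perm.SameCycle.refl _ _)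

theorem top_hold (d : ℕ) (ph : ℕ → Bool) (g : Option (Fin (tN d))) :
    ∃ u ∈ (topGad d ph g).B, u ∉ (topGad d ph g).F := by
  cases g with
  | none => exact ⟨pwX (d + 5), tg_root d, top_hroot d ph none⟩
  | some i =>
    refine ⟨eP d (th d (ph i) i), mem_tri.2 (Or.inl rfl), ?_⟩
    rw [some_F]
    rintro (h | h)
    · have := (ph_c2w h).1
      rw [ht_eP] at this
      omega
    · have := (ph_c2w h).1
      rw [ht_eP] at this
      omega

theorem top_arcs (d : ℕ) (ph : ℕ → Bool) (g : Option (Fin (tN d))) :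
    (topGad d ph g).arcs = ∅ := by
  cases g with
  | none => exact tg_arcs d
  | some i => rfl

theorem top_Abs (d : ℕ) (ph : ℕ → Bool) (g : Option (Fin (tN d))) : (topGad d ph g).Abs := by
  cases g with
  | none => exact tg_abs d
  | some i =>
    have hB : (eP d (th d (ph i) i)) ∈ (topGad d ph (some i)).B := mem_tri.2 (Or.inl rfl)
    have hi := tcT_le i.2
    have hne : ¬ (TT : Equiv.Perm (X (d + 5))).SameCycle (eB d (th d (ph i) i)) (eF d (th d (ph i) i)) := by
      intro hs
      have a1 : eB d (th d (ph i) i) ∈ (topGad d ph (some i)).F := Or.inl (Equiv.Perm.SameCycle.refl _ _)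
      have h3 : ¬ (TT : Equiv.Perm (X (d + 5))).SameCycle (c2w d (tcT d i)) (c2w d (tcT d i + 1)) := by
        intro h4
        have := c2w_same (by omega) (by omega) h4
        omega
      apply h3
      have b1 := (some_F d ph i (c2w d (tcT d i))).2 (Or.inl (Equiv.Perm.SameCycle.refl _ _))
      have b2 := (some_F d ph i (c2w d (tcT d i + 1))).2 (Or.inr (Equiv.Perm.SameCycle.refl _ _))
      rcases b1 with b1 | b1 <;> rcases b2 with b2 | b2
      · exact b1.symm.trans b2
      · exact b1.symm.trans (hs.trans b2)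
      · exact b1.symm.trans (hs.symm.trans b2)
      · exact b1.symm.trans b2
    have hPB : ¬ (TT : Equiv.Perm (X (d + 5))).SameCycle (eP d (th d (ph i) i)) (eB d (th d (ph i) i)) := by
      intro hs
      have a1 : eP d (th d (ph i) i) ∈ (topGad d ph (some i)).F := Or.inl hs.symm
      rw [some_F] at a1
      rcases a1 with a1 | a1
      · have := (ph_c2w a1).1
        rw [ht_eP] at this
        omega
      · have := (ph_c2w a1).1
        rw [ht_eP] at this
        omega
    have hPF : ¬ (TT : Equiv.Perm (X (d + 5))).SameCycle (eP d (th d (ph i) i)) (eF d (th d (ph i) i)) := by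
      intro hs
      have a1 : eP d (th d (ph i) i) ∈ (topGad d ph (some i)).F := Or.inr hs.symm
      rw [some_F] at a1
      rcases a1 with a1 | a1
      · have := (ph_c2w a1).1
        rw [ht_eP] at this
        omega
      · have := (ph_c2w a1).1
        rw [ht_eP] at this
        omega
    refine triDG_abs hPB hPF hne ?_
    have n0 : (BinaryTree.nil : BinaryTree Unit).numNodes = 0 := rfl
    have hnum := tY_num d (th d (ph i) i)
    exact triple_legal (P := .nil) (Q := tY (d + 2) (th d (ph i) i)) (R := .nil)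
      (by omega) (by omega) (by omega) (Subtype.ext rfl) (Subtype.ext rfl)
      (Subtype.ext rfl) (fun h => hPB (by rw [h])) (fun h => hPF (by rw [h]))
      (fun h => hne (by rw [h]))

theorem tY_inj {j h h' : ℕ} (hh : h < 2 * j + 1) (hh' : h' < 2 * j + 1) (he : tY j h = tY j h') :
    h = h' := by
  unfold tY at he
  obtain ⟨-, h2⟩ := ins_inj (by rw [lf_length, pw_num]) (by rw [lf_length, pw_num]) he
  have h3 := congrFun (lf_inj h2) (h : ZMod (2 * j + 1))
  simp only [if_true] at h3
  split_ifs at h3 with h4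
  · have := congrArg ZMod.val h4
    rwa [ZMod.val_natCast_of_lt hh, ZMod.val_natCast_of_lt hh'] at this

theorem tY_zero (d : ℕ) : tY (d + 2) 0 = .nil △ pw (d + 3) := by
  have h := congrArg Subtype.val (w6_eq d)
  rw [← eF_eq] at h
  change (.nil △ (.nil △ pw (d + 3)) : BinaryTree Unit) = .nil △ tY (d + 2) 0 at h
  injection h with _ _ h
  exact h.symm

theorem tY_last (d : ℕ) : tY (d + 2) (2 * (d + 2)) = pw (d + 2) △ (.nil △ .nil) := by
  have h := congrArg Subtype.val (w7_eq d)
  change (.nil △ (pw (d + 2) △ (.nil △ .nil)) : BinaryTree Unit) = .nil △ tY (d + 2) (2 * (d + 2)) at h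
  injection h with _ _ h
  exact h.symm

theorem th_bd {d i : ℕ} (b : Bool) (h : i < tN d) : 1 ≤ th d b i ∧ th d b i < 2 * (d + 2) ∧
    (b = false → th d b i < d + 2) ∧ (b = true → d + 2 < th d b i) := by
  have hi := tcT_le h
  unfold th
  unfold tcT at hi ⊢
  cases b with
  | false => simp only [Bool.false_eq_true, if_false]; refine ⟨?_, ?_, ?_, ?_⟩ <;> first | omega | (intro _; omega) | (intro h; cases h)
  | true => simp only [if_true]; refine ⟨?_, ?_, ?_, ?_⟩ <;> first | omega | (intro _; omega) | (intro h; cases h)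

/-- the prime hop words are not in the block -/
theorem eP_ne (d h i : ℕ) (h1 : 1 ≤ h) (h2 : h < 2 * (d + 2)) (hi : i < 9) : eP d h ≠ xW d i := by
  intro he
  have e1 := ht_eP d h
  have e2 : pkn (eP d h).1 = 2 := by
    change leaf (tY (d + 2) h) + pkn (tY (d + 2) h) + 0 = 2
    have e3 : leaf (tY (d + 2) h) = 0 := by
      have := tY_num d h
      cases hh : tY (d + 2) h with
      | nil => rw [hh] at this; simp [BinaryTree.numNodes] at this
      | node _ A B => rfl
    rw [e3]
    unfold tY
    rw [(ins_num _ _ (by rw [lf_length, pw_num])).2, pkn_pw, lf_sum, one_bead_sum]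
  have e3 := congrArg Subtype.val he
  have a2 := s12 d
  interval_cases i
  · rw [he] at e2
    change pkn (pw (d + 5)) = 2 at e2
    rw [pkn_pw] at e2
    omega
  · change tY (d + 2) h △ .nil = (pw (d + 2) △ (.nil △ .nil)) △ .nil at e3
    injection e3 with _ e3 _
    rw [← tY_last] at e3
    have := tY_inj (by omega) (by omega) e3
    omega
  · change tY (d + 2) h △ .nil = pw (d + 3) △ (.nil △ .nil) at e3
    injection e3 with _ _ e3
    exact absurd e3 (by simp)
  · change tY (d + 2) h △ .nil = .nil △ (pw (d + 3) △ .nil) at e3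
    injection e3 with _ _ e3
    exact absurd e3 (by simp)
  · change tY (d + 2) h △ .nil = (.nil △ pw (d + 3)) △ .nil at e3
    injection e3 with _ e3 _
    rw [← tY_zero] at e3
    have := tY_inj (by omega) (by omega) e3
    omega
  · have e4 := congrArg (fun x : BinaryTree Unit => pkn x) e3
    change pkn (eP d h).1 = leaf (pw (d + 2)) + pkn (pw (d + 2)) + (1 + 0 + (1 + 0 + 0)) at e4
    rw [e2, pkn_pw] at e4
    have : leaf (pw (d + 2)) = 0 := rfl
    omega
  · change tY (d + 2) h △ .nil = .nil △ (.nil △ pw (d + 3)) at e3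
    injection e3 with _ _ e3
    exact absurd e3 (by simp)
  · change tY (d + 2) h △ .nil = .nil △ (pw (d + 2) △ (.nil △ .nil)) at e3
    injection e3 with _ _ e3
    exact absurd e3 (by simp)
  · rw [he, (ht_W8 d).1] at e1
    omega

/-- no word is in two gadgets -/
theorem top_hdis (d : ℕ) (ph : ℕ → Bool) (g g' : Option (Fin (tN d))) (hne : g ≠ g')
    (w : X (d + 5)) (h : w ∈ (topGad d ph g).B) : w ∉ (topGad d ph g').B := by
  have key : ∀ (i : Fin (tN d)), w ∈ (tg d).B → w ∉ (topGad d ph (some i)).B := by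
    intro i h1 h2
    obtain ⟨b1, b2, -, -⟩ := th_bd (ph i) i.2
    rcases top_hB d ph (some i) w h2 with h3 | h3 | ⟨-, h3⟩
    · rcases top_hB d ph none w h1 with h4 | h4 | ⟨h4, -⟩
      · exact top_hFdis d ph none (some i) (by simp) w h4 h3
      · rw [h4] at h3
        exact top_hroot d ph (some i) h3
      · exact h4 rfl
    · rcases mem_tri.1 h2 with h4 | h4 | h4
      · have e := ht_eP d (th d (ph i) i)
        rw [← h4, h3] at e
        have : ht (pwX (d + 5)).1 = d + 5 := ht_pw (d + 5)
        omega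
      · apply top_hroot d ph (some i)
        rw [← h3, h4]
        exact Or.inl (Equiv.Perm.SameCycle.refl _ _)
      · apply top_hroot d ph (some i)
        rw [← h3, h4]
        exact Or.inr (Equiv.Perm.SameCycle.refl _ _)
    · rcases mem_tri.1 h2 with h4 | h4 | h4
      · obtain ⟨m, hm, h5⟩ := tg_B h1
        exact eP_ne d _ m b1 b2 hm (by rw [h5, h4])
      · apply top_hFdis d ph none (some i) (by simp) w h3
        rw [h4]
        exact Or.inl (Equiv.Perm.SameCycle.refl _ _)
      · apply top_hFdis d ph none (some i) (by simp) w h3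
        rw [h4]
        exact Or.inr (Equiv.Perm.SameCycle.refl _ _)
  cases g with
  | none =>
    cases g' with
    | none => exact absurd rfl hne
    | some i => exact key i h
  | some i =>
    cases g' with
    | none => exact fun h' => key i h' h
    | some i' =>
      intro h'
      have hii : (i : ℕ) ≠ i' := by
        intro h0
        exact hne (congrArg some (Fin.ext h0))
      have hold : ∀ l : Fin (tN d), eP d (th d (ph l) l) ∈ (topGad d ph none).F := by
        intro l
        change _ ∈ (tg d).F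
        rw [tg_F', ht_eP]
        exact Or.inl rfl
      have hnew : ∀ l : Fin (tN d), w ∈ (topGad d ph (some l)).B → w = eP d (th d (ph l) l) ∨
          w ∈ (topGad d ph (some l)).F := by
        intro l hl
        rcases mem_tri.1 hl with h4 | h4 | h4
        · exact Or.inl h4
        · right
          rw [h4]
          exact Or.inl (Equiv.Perm.SameCycle.refl _ _)
        · right
          rw [h4]
          exact Or.inr (Equiv.Perm.SameCycle.refl _ _)
      rcases hnew i h with h1 | h1 <;> rcases hnew i' h' with h2 | h2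
      · have e := congrArg Subtype.val (h1.symm.trans h2)
        change tY (d + 2) _ △ .nil = tY (d + 2) _ △ .nil at e
        injection e with _ e _
        obtain ⟨a1, a2, a3, a4⟩ := th_bd (ph i) i.2
        obtain ⟨b1, b2, b3, b4⟩ := th_bd (ph i') i'.2
        have e2 := tY_inj (by omega) (by omega) e
        have c1 := tcT_le i.2
        have c2 := tcT_le i'.2
        cases hp : ph i <;> cases hp' : ph i' <;> rw [hp, hp'] at e2 <;> unfold th at e2 <;>
          unfold tcT at e2 c1 c2 <;> simp at e2 <;> omega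
      · exact top_hFdis d ph none (some i') (by simp) w (by rw [h1]; exact hold i) h2
      · exact top_hFdis d ph none (some i) (by simp) w (by rw [h2]; exact hold i') h1
      · exact top_hFdis d ph (some i) (some i') hne w h1 h2

/-- THE WORDS OF THE TOP: the nine words of the block, and `(Y)`, `Y()`, `()Y` with one bead in the hole
`th d (ph i) i` of the nested word -/
theorem top_words (d : ℕ) (ph : ℕ → Bool) (g : Option (Fin (tN d))) (w : X (d + 5))
    (h : w ∈ (topGad d ph g).B) : (∃ i < 9, w = xW d i) ∨ ∃ i < tN d,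
      w = eP d (th d (ph i) i) ∨ w = eB d (th d (ph i) i) ∨ w = eF d (th d (ph i) i) := by
  cases g with
  | none =>
    obtain ⟨i, hi, h1⟩ := tg_B h
    exact Or.inl ⟨i, hi, h1.symm⟩
  | some i => exact Or.inr ⟨i, i.2, mem_tri.1 h⟩

end Pool.OddHC
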