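import Pool.Agent.Work.MP_8f87b2_top.TopTwo

/-!
MP_8f87b2_co, top: all words of content `(k-3,2,1)` are in one T-cycle (the voltage of the T-cycle `(j-1,1)` is 1).
-/

set_option autoImplicit false

namespace Pool.OddHC

open Finset BinaryTree

theorem pkn_ht {j : ℕ} (u : X j) (hj : 1 ≤ j) : pkn u.1 + ht u.1 ≤ j + 1 := by
  have h0 : cont u.1 ≠ 0 := by
    intro h
    have h1 := pkn_pos u hj
    rw [← cont_card, h] at h1
    simp at h1
  have h1 := sup_mem h0
  have h2 := Multiset.sum_erase h1
  rw [cont_sum, X_num] at h2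
  have h3 := Multiset.card_erase_of_mem h1
  have h4 : ((cont u.1).erase (cont u.1).sup).card ≤ ((cont u.1).erase (cont u.1).sup).sum := by
    have h5 := Multiset.card_nsmul_le_sum (s := (cont u.1).erase (cont u.1).sup) (a := 1)
      (fun x hx => cont_pos u.1 x (Multiset.mem_of_mem_erase hx))
    simpa using h5
  have h6 : 1 ≤ (cont u.1).card := by
    rw [cont_card]
    exact pkn_pos u hj
  rw [ht_eq, ← cont_card]
  rw [h3] at h4
  have h7 : (cont u.1).card.pred = (cont u.1).card - 1 := rfl
  omega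

theorem pkn_one_ht {j : ℕ} (u : X j) (h : pkn u.1 = 1) : ht u.1 = j := by
  have h9 : (cont u.1).card = 1 := by rw [cont_card, h]
  obtain ⟨b, hb⟩ := Multiset.card_eq_one.1 h9
  have h10 := cont_sum u.1
  rw [hb, Multiset.sum_singleton, X_num] at h10
  rw [ht_eq, hb, Multiset.sup_singleton, h10]

theorem sp_sum {j : ℕ} (u : X j) (n : ℕ) : sp u n = ∑ i ∈ range n, Vo ((TT ^ i) u) := by
  induction n with
  | zero => rfl
  | succ n ih => rw [sp_succ, ih, sum_range_succ]

theorem Vo_pw (q : ℕ) (hq : 1 ≤ q) : Vo (pwX q) = (q : ZMod (2 * q + 1)) := by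
  obtain ⟨p, rfl⟩ : ∃ p, q = p + 1 := ⟨q - 1, by omega⟩
  have h := TF_step (t := pwX (p + 1)) (u := pwX (p + 1)) (List.replicate p true)
    (List.replicate (p + 1) false) ?_ ?_
  · rw [h.2, List.length_replicate]
  · change wd (pw (p + 1)) = _
    rw [wd_pw, List.replicate_succ, rep_comm', List.cons_append]
  · change wd (pw (p + 1)) = _
    rw [wd_pw, List.map_replicate, List.map_replicate, List.replicate_succ, Bool.not_false,
      Bool.not_true]
    simp [List.replicate_succ]

theorem dsc_one (p : ℕ) : dsc true (List.replicate p true) = 0 := by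
  induction p with
  | zero => rfl
  | succ p ih =>
    rw [List.replicate_succ, dsc, ih]
    cases p <;> rfl

theorem take_pw (q : ℕ) : (sl (pw q)).take (q + 1) = false :: List.replicate q true := by
  unfold sl
  rw [wd_pw, List.take_succ_cons, List.take_left' (List.length_replicate)]

theorem Vo_one {q k : ℕ} (hq : 1 ≤ q) (s : ZMod (2 * q + 1))
    (hk : q + pkn (pwX q).1 + ∑ x, (if x = s then 1 else 0) = k) :
    Vo (phi (pwX q) (fun x => if x = s then 1 else 0) hk) =
      ((q + 1 + 2 * (if s.val < q then 1 else 0) : ℕ) : ZMod (2 * k + 1)) := by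
  have h := (TF_ins (pwX q) (lf (fun x : ZMod (2 * q + 1) => if x = s then 1 else 0))
    (lf_length _) (phi (pwX q) (fun x => if x = s then 1 else 0) hk) rfl).2
  rw [h]
  have hv : (Vo (pwX q)).val = q := by
    rw [Vo_pw q hq, ZMod.val_natCast_of_lt (by omega)]
  rw [hv]
  have e1 : dsc true ((sl (pwX q).1).take (q + 1)) = 0 := by
    change dsc true ((sl (pw q)).take (q + 1)) = 0
    rw [take_pw, dsc, dsc_one]
    rfl
  have e2 : ((lf (fun x : ZMod (2 * q + 1) => if x = s then 1 else 0)).take q).sum =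
      if s.val < q then 1 else 0 := by
    unfold lf
    rw [← List.map_take, List.take_range, Nat.min_eq_left (by omega)]
    change ∑ i ∈ range q, (if ((i : ℕ) : ZMod (2 * q + 1)) = s then 1 else 0) = _
    have e3 : ∀ i ∈ range q, (if ((i : ℕ) : ZMod (2 * q + 1)) = s then 1 else 0) =
        if i = s.val then 1 else 0 := by
      intro i hi
      rw [mem_range] at hi
      have : ((i : ℕ) : ZMod (2 * q + 1)) = s ↔ i = s.val := by
        constructor
        · rintro rfl
          rw [ZMod.val_natCast_of_lt (by omega)]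
        · rintro rfl
          exact ZMod.natCast_zmod_val s
      simp only [this]
    rw [sum_congr rfl e3, sum_ite_eq' (range q) s.val (fun _ => 1)]
    simp only [mem_range]
  rw [e1, e2]
  congr 1

theorem sp_pw (q : ℕ) (hq : 1 ≤ q) (i : ℕ) : sp (pwX q) i = (i : ZMod (2 * q + 1)) * q ∧
    (TT ^ i) (pwX q) = pwX q := by
  have h2 : ∀ i : ℕ, (TT ^ i) (pwX q) = pwX q := by
    intro i
    induction i with
    | zero => rfl
    | succ i ih => rw [pow_succ, Equiv.Perm.mul_apply, T_pwX, ih]
  refine ⟨?_, h2 i⟩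
  induction i with
  | zero => rw [sp_zero, Nat.cast_zero, zero_mul]
  | succ i ih =>
    rw [sp_succ, ih, h2, Vo_pw q hq]
    push_cast
    ring

/-- one full turn: voltage 1 -/
theorem turn_one {q : ℕ} (hq : 1 ≤ q) (u : X (q + 2)) (h : ht u.1 + 1 = q + 2) :
    (TT ^ (2 * q + 1)) u = u ∧ sp u (2 * q + 1) = 1 := by
  -- `u` = one bead over the nested word
  have hu : ∃ (s : ZMod (2 * q + 1)) (hk : q + pkn (pwX q).1 +
      ∑ x : ZMod (2 * q + 1), (if x = s then 1 else 0) = q + 2),
      u = phi (pwX q) (fun x => if x = s then 1 else 0) hk := by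
    obtain ⟨l, v, a, hk, hw, h1, hl⟩ := red_ht u (by omega)
    have h2 := ht_le v.1
    rw [X_num] at h2
    have h3 : 1 ≤ pkn v.1 := pkn_pos v hl
    have h5 := pkn_ht v hl
    have h4 : l = q := by
      by_contra hne
      have h6 : pkn v.1 = 1 := by omega
      have := pkn_one_ht v h6
      omega
    subst h4
    have h5 : v = pwX l := ht_fullX v (by omega)
    subst h5
    have h6 : pkn (pwX l).1 = 1 := by
      obtain ⟨p, hp⟩ : ∃ p, l = p + 1 := ⟨l - 1, by omega⟩
      change pkn (pw l) = 1
      rw [hp, pkn_pw]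
    obtain ⟨s, rfl⟩ := one_bead a (by omega)
    exact ⟨s, hk, hw⟩
  obtain ⟨s, hk, rfl⟩ := hu
  have hL : ((2 * q + 1 : ℕ) : ZMod (2 * q + 1)) = 0 := ZMod.natCast_self _
  have hstep : ∀ i : ℕ, ∃ hk' : q + pkn (pwX q).1 + ∑ x : ZMod (2 * q + 1),
      (if x = s - (i : ZMod (2 * q + 1)) * q then 1 else 0) = q + 2,
      (TT ^ i) (phi (pwX q) (fun x => if x = s then 1 else 0) hk) =
        phi (pwX q) (fun x => if x = s - (i : ZMod (2 * q + 1)) * q then 1 else 0) hk' := by
    intro i
    have e : (∑ x : ZMod (2 * q + 1), if x = s - (i : ZMod (2 * q + 1)) * q then 1 else 0) = 1 :=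
      one_bead_sum _
    have e' : (∑ x : ZMod (2 * q + 1), if x = s then 1 else 0) = 1 := one_bead_sum _
    refine ⟨by rw [e]; rw [e'] at hk; exact hk, ?_⟩
    rw [pow_phi]
    apply phi_congr (sp_pw q hq i).2
    funext x
    rw [(sp_pw q hq i).1]
    have : x + (i : ZMod (2 * q + 1)) * q = s ↔ x = s - (i : ZMod (2 * q + 1)) * q := by
      constructor
      · intro h; linear_combination h
      · rintro rfl; ring
    simp only [this]
  constructor
  · obtain ⟨hk', h1⟩ := hstep (2 * q + 1)
    rw [h1]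
    apply phi_congr rfl
    funext x
    rw [hL, zero_mul, sub_zero]
  · rw [sp_sum]
    have h2 : ∀ i ∈ range (2 * q + 1), Vo ((TT ^ i) (phi (pwX q) (fun x => if x = s then 1 else 0) hk)) =
        ((q + 1 + 2 * (if (s - (i : ZMod (2 * q + 1)) * q).val < q then 1 else 0) : ℕ) :
          ZMod (2 * (q + 2) + 1)) := by
      intro i _
      obtain ⟨hk', h1⟩ := hstep i
      rw [h1, Vo_one hq]
    rw [sum_congr rfl h2, ← Nat.cast_sum]
    have h3 : ∑ i ∈ range (2 * q + 1), (q + 1 + 2 * (if (s - (i : ZMod (2 * q + 1)) * q).val < q then 1 else 0)) =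
        (2 * q + 1) * (q + 1) + 2 * q := by
      rw [sum_add_distrib, sum_const, card_range, smul_eq_mul, ← mul_sum]
      congr 2
      have h4 := lf_sum (fun t : ZMod (2 * q + 1) => if (s - t * q).val < q then 1 else 0)
      have h5 : ∑ i ∈ range (2 * q + 1), (if (s - (i : ZMod (2 * q + 1)) * q).val < q then 1 else 0) =
          (lf (fun t : ZMod (2 * q + 1) => if (s - t * q).val < q then 1 else 0)).sum := rfl
      rw [h5, h4]
      have hinj : Function.Injective (fun t : ZMod (2 * q + 1) => s - t * q) := by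
        intro t t' htt
        simp only at htt
        have h6 : (2 * (q : ZMod (2 * q + 1)) + 1) = 0 := by
          have := hL
          push_cast at this
          exact this
        have h7 : t * q = t' * q := by linear_combination -htt
        linear_combination -2 * h7 + (t - t') * h6
      have hbij : Function.Bijective (fun t : ZMod (2 * q + 1) => s - t * q) :=
        Finite.injective_iff_bijective.1 hinj
      have h8 : ∑ t : ZMod (2 * q + 1), (if (s - t * q).val < q then 1 else 0) =
          ∑ y : ZMod (2 * q + 1), if y.val < q then 1 else 0 :=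
        Function.Bijective.sum_comp hbij (fun y : ZMod (2 * q + 1) => if y.val < q then 1 else 0)
      rw [h8]
      have h9 := lf_sum (fun y : ZMod (2 * q + 1) => if y.val < q then 1 else 0)
      rw [← h9]
      change ∑ i ∈ range (2 * q + 1), (if ((i : ℕ) : ZMod (2 * q + 1)).val < q then 1 else 0) = q
      have h10 : ∀ i ∈ range (2 * q + 1), (if ((i : ℕ) : ZMod (2 * q + 1)).val < q then 1 else 0) =
          if i < q then 1 else 0 := by
        intro i hi
        rw [mem_range] at hi
        rw [ZMod.val_natCast_of_lt hi]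
      rw [sum_congr rfl h10, ← sum_filter, sum_const, smul_eq_mul, mul_one]
      have : (range (2 * q + 1)).filter (fun i => i < q) = range q := by
        ext i
        simp only [mem_filter, mem_range]
        omega
      rw [this, card_range]
    rw [h3]
    have h4 : (2 * q + 1) * (q + 1) + 2 * q = q * (2 * (q + 2) + 1) + 1 := by ring
    rw [h4, Nat.cast_add, Nat.cast_mul, ZMod.natCast_self, mul_zero, zero_add, Nat.cast_one]

/-- one bead over a word of height `j - 1`: one T-cycle -/
theorem same_21 {q k : ℕ} (hq : 1 ≤ q) (u u' : X (q + 2)) (h : ht u.1 + 1 = q + 2)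
    (h' : ht u'.1 + 1 = q + 2) (a a' : ZMod (2 * (q + 2) + 1) → ℕ) (ha : ∑ x, a x = 1)
    (ha' : ∑ x, a' x = 1) (hk : q + 2 + pkn u.1 + ∑ x, a x = k)
    (hk' : q + 2 + pkn u'.1 + ∑ x, a' x = k) :
    (TT : Equiv.Perm (X k)).SameCycle (phi u a hk) (phi u' a' hk') := by
  have hs := same_sub (by omega) u u' h h'
  obtain ⟨i, rfl⟩ := sameCycle_nat hs
  have h1 : (TT : Equiv.Perm (X k)).SameCycle (phi u a hk) ((TT ^ i) (phi u a hk)) :=
    ⟨(i : ℤ), by rw [zpow_natCast]⟩
  rw [pow_phi] at h1
  refine h1.trans ?_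
  obtain ⟨s, hs⟩ := one_bead (fun x => a (x + sp u i)) (by rw [sum_shift]; exact ha)
  obtain ⟨t, ht⟩ := one_bead a' ha'
  rw [same_iff]
  -- the rotations of `u'` are everything
  have hall : ∀ r : ZMod (2 * (q + 2) + 1), r ∈ rotGrp ((TT ^ i) u) := by
    intro r
    have h2 : (1 : ZMod (2 * (q + 2) + 1)) ∈ rotGrp ((TT ^ i) u) := by
      obtain ⟨e1, e2⟩ := turn_one hq ((TT ^ i) u) h'
      exact ⟨_, e1, e2⟩
    have h3 := (rotGrp ((TT ^ i) u)).nsmul_mem h2 r.val
    rw [nsmul_eq_mul, mul_one, ZMod.natCast_zmod_val] at h3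
    exact h3
  obtain ⟨l, h2, h3⟩ := mem_rotGrp.1 (hall (s - t))
  refine ⟨l, h2, ?_⟩
  rw [h3, ht]
  have h4 : ∀ x, a (x + sp u i) = if x = s then 1 else 0 := fun x => congrFun hs x
  funext x
  rw [h4]
  have : x + (s - t) = s ↔ x = t := by
    constructor
    · intro h; linear_combination h
    · rintro rfl; ring
  simp only [this]

end Pool.OddHC
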