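import Pool.Agent.Work.MP_8f87b2_top.TopSys

/-!
MP_8f87b2_co: THE ROOT GADGET (`k = d + 5`, `d ≥ 1`): eight words of the block of `S = 1^(k-3) 0^(k-3)` with three more
pairs, one legal 8-cycle, which makes one cycle of the T-cycles `(k)` (root), `(k-1,1)`, `(k-2,2)`, `(k-2,1,1)` with
distance 0, `(k-3,3)`, `(k-3,2,1)`.
-/

set_option autoImplicit false

namespace Pool.OddHC

open Finset BinaryTree Equiv

/-- `S(()())` -/
def tW4 (d : ℕ) : BinaryTree Unit := pw (d + 1) △ ((.nil △ (.nil △ .nil)) △ .nil)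
/-- `((()))S` -/
def tW5 (d : ℕ) : BinaryTree Unit := ((.nil △ .nil) △ .nil) △ pw (d + 2)

/-- the eight words -/
def t8 (d : ℕ) : ℕ → BinaryTree Unit
  | 0 => tH d
  | 1 => tB2 d
  | 2 => tB3 d
  | 3 => tC3 d
  | 4 => tW4 d
  | 5 => tW5 d
  | 6 => tD1 d
  | _ => tB4 d

theorem t8_num (d i : ℕ) : (t8 d i).numNodes = d + 5 := by
  match i with
  | 0 => exact tW_num d 0
  | 1 => exact tW_num d 2
  | 2 => exact tW_num d 3
  | 3 => exact tW_num d 5
  | 4 => simp only [t8, tW4, nn, nz, pw_num]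
  | 5 => simp only [t8, tW5, nn, nz, pw_num]; omega
  | 6 => exact tW_num d 8
  | n + 7 => exact tW_num d 4

def x8 (d i : ℕ) : X (d + 5) := ⟨t8 d i, mem_treesOfNumNodesEq.2 (t8_num d i)⟩

/-- heights and numbers of peaks -/
def i8 (d : ℕ) : ℕ → ℕ × ℕ
  | 0 => (d + 5, 1)
  | 1 => (d + 4, 2)
  | 2 => (d + 4, 2)
  | 3 => (d + 3, 3)
  | 4 => (d + 2, 3)
  | 5 => (d + 2, 2)
  | 6 => (d + 3, 2)
  | _ => (d + 4, 2)

theorem inv8 {d i : ℕ} (hd : 1 ≤ d) : (ht (x8 d i).1, pkn (x8 d i).1) = i8 d i := by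
  have p1 : ∀ n, pkn (pw (n + 1)) = 1 := pkn_pw
  have l1 : ∀ n, leaf (pw (n + 1)) = 0 := fun n => rfl
  match i with
  | 0 =>
    change (ht (pw (d + 5)), pkn (pw (d + 5))) = (d + 5, 1)
    rw [ht_pw, pkn_pw]
  | 1 =>
    change (max (ht (pw (d + 3)) + 1) (max (0 + 1) 0), leaf (pw (d + 3)) + pkn (pw (d + 3)) +
      (1 + 0 + 0)) = (d + 4, 2)
    rw [ht_pw, p1, l1]
    have : max (d + 3 + 1) (max (0 + 1) 0) = d + 4 := by omega
    rw [this]
  | 2 =>
    change (max (0 + 1) (max (ht (pw (d + 3)) + 1) 0), 1 + 0 + (leaf (pw (d + 3)) + pkn (pw (d + 3)) +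
      0)) = (d + 4, 2)
    rw [ht_pw, p1, l1]
    have : max (0 + 1) (max (d + 3 + 1) 0) = d + 4 := by omega
    rw [this]
  | 3 =>
    change (max (ht (pw (d + 2)) + 1) (max (0 + 1) (max (0 + 1) 0)), leaf (pw (d + 2)) +
      pkn (pw (d + 2)) + (1 + 0 + (1 + 0 + 0))) = (d + 3, 3)
    rw [ht_pw, p1, l1]
    have : max (d + 2 + 1) (max (0 + 1) (max (0 + 1) 0)) = d + 3 := by omega
    rw [this]
  | 4 =>
    change (max (ht (pw (d + 1)) + 1) (max (max (0 + 1) (max (0 + 1) 0) + 1) 0),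
      leaf (pw (d + 1)) + pkn (pw (d + 1)) + (0 + (1 + 0 + (1 + 0 + 0)) + 0)) = (d + 2, 3)
    rw [ht_pw, p1, l1]
    have : max (d + 1 + 1) (max (max (0 + 1) (max (0 + 1) 0) + 1) 0) = d + 2 := by omega
    rw [this]
  | 5 =>
    change (max (max (max (0 + 1) 0 + 1) 0 + 1) (ht (pw (d + 2))),
      0 + (0 + (1 + 0 + 0) + 0) + pkn (pw (d + 2))) = (d + 2, 2)
    rw [ht_pw, p1]
    have : max (max (max (0 + 1) 0 + 1) 0 + 1) (d + 2) = d + 2 := by omega
    rw [this]
  | 6 =>
    change (max (max (0 + 1) 0 + 1) (ht (pw (d + 3))), 0 + (1 + 0 + 0) + pkn (pw (d + 3))) =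
      (d + 3, 2)
    rw [ht_pw, p1]
    have : max (max (0 + 1) 0 + 1) (d + 3) = d + 3 := by omega
    rw [this]
  | n + 7 =>
    change (max (max (0 + 1) (ht (pw (d + 3))) + 1) 0, 0 + (1 + 0 + pkn (pw (d + 3))) + 0) =
      (d + 4, 2)
    rw [ht_pw, p1]
    have : max (max (0 + 1) (d + 3) + 1) 0 = d + 4 := by omega
    rw [this]

theorem inv8_same {k : ℕ} {x y : X k} (h : TT.SameCycle x y) :
    (ht x.1, pkn x.1) = (ht y.1, pkn y.1) := by
  rw [ht_same h, ← cont_card, ← cont_card, cont_same h]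

theorem x8_inj {d : ℕ} (hd : 1 ≤ d) : ∀ i < 8, ∀ j < 8, x8 d i = x8 d j → i = j := by
  intro i hi j hj h
  have h1 : i8 d i = i8 d j := by rw [← inv8 hd, ← inv8 hd, h]
  have h2 : t8 d i = t8 d j := congrArg Subtype.val h
  interval_cases i <;> interval_cases j <;> first
    | rfl
    | (exfalso; revert h1; simp [i8]; done)
    | (exfalso; revert h2
       simp [t8, tB2, tB3, tB4, pw, nest])

/-- THE ROOT GADGET -/
noncomputable def top8 (d : ℕ) : DG (d + 5) where
  B := (range 8).image (x8 d)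
  F := {w | ∃ i, 1 ≤ i ∧ i < 8 ∧ TT.SameCycle (x8 d i) w}
  arcs := ∅

theorem mem_top8 (d : ℕ) (x : X (d + 5)) : x ∈ (top8 d).B ↔ ∃ i < 8, x8 d i = x := by
  unfold top8
  simp

theorem V2_nB {d : ℕ} (hd : 1 ≤ d) : mkx (tU2 d) (U2_num d) ∉ (top8 d).B := by
  rw [mem_top8]
  rintro ⟨i, hi, h⟩
  have h1 := inv8_same (tt1 (T_B2 d))
  rw [← h, inv8 hd] at h1
  have h3 : (ht (xW d 2).1, pkn (xW d 2).1) = (d + 4, 2) := inv8 (i := 1) hd
  rw [h3] at h1
  have h2 : t8 d i = tU2 d := congrArg Subtype.val h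
  interval_cases i <;> first
    | (revert h1; simp [i8]; done)
    | (revert h2; simp [t8, tB2, tB3, tB4, tU2, pw, nest]; done)

theorem V3_nB {d : ℕ} (hd : 1 ≤ d) : mkx (tU3 d) (U3_num d) ∉ (top8 d).B := by
  rw [mem_top8]
  rintro ⟨i, hi, h⟩
  have h1 := inv8_same (tt1 (T_B3 d))
  rw [← h, inv8 hd] at h1
  have h3 : (ht (xW d 3).1, pkn (xW d 3).1) = (d + 4, 2) := inv8 (i := 2) hd
  rw [h3] at h1
  have h2 : t8 d i = tU3 d := congrArg Subtype.val h
  interval_cases i <;> first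
    | (revert h1; simp [i8]; done)
    | (revert h2; simp [t8, tB2, tB3, tB4, tU3, pw, nest]; done)

/-- the words as elements of the set of the words -/
noncomputable def e8 (d i : ℕ) (hi : i < 8) : {w // w ∈ (top8 d).B} :=
  ⟨x8 d i, (mem_top8 d _).2 ⟨i, hi, rfl⟩⟩

theorem ret_8 {d i : ℕ} (hd : 1 ≤ d) (hi : i < 8) : ∃ j, ∃ hj : j < 8,
    ret TT (top8 d).B (e8 d i hi) = e8 d j hj ∧ i8 d j = i8 d i := by
  obtain ⟨v, hv⟩ : ∃ v, v = ret TT (top8 d).B (e8 d i hi) := ⟨_, rfl⟩
  obtain ⟨j, hj, h⟩ := (mem_top8 d v.1).1 v.2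
  have h1 : e8 d j hj = v := Subtype.ext h
  refine ⟨j, hj, by rw [← hv, h1], ?_⟩
  have h2 : TT.SameCycle (x8 d i) v.1 := by
    rw [hv, ret_apply]
    exact nat_same _ rfl
  have h3 := inv8_same h2
  rw [← h, inv8 hd, inv8 hd] at h3
  exact h3.symm

theorem e8_inj {d i j : ℕ} (hd : 1 ≤ d) (hi : i < 8) (hj : j < 8) (h : e8 d i hi = e8 d j hj) :
    i = j := x8_inj hd i hi j hj (congrArg Subtype.val h)

theorem hr12 {d : ℕ} (hd : 1 ≤ d) : FR TT (top8 d).B (x8 d 1) (x8 d 2) :=
  two_step (T_B2 d) (T_U2 d) (V2_nB hd)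
theorem hr27 {d : ℕ} (hd : 1 ≤ d) : FR TT (top8 d).B (x8 d 2) (x8 d 7) :=
  two_step (T_B3 d) (T_U3 d) (V3_nB hd)

theorem hr71 {d : ℕ} (hd : 1 ≤ d) : FR TT (top8 d).B (x8 d 7) (x8 d 1) := by
  have e1 := (FR_ret TT (top8 d).B (e8 d 1 (by omega)) (e8 d 2 (by omega))).2 (hr12 hd)
  have e2 := (FR_ret TT (top8 d).B (e8 d 2 (by omega)) (e8 d 7 (by omega))).2 (hr27 hd)
  obtain ⟨j, hj, h1, h2⟩ := ret_8 (i := 7) hd (by omega)
  have key : j = 1 := by
    interval_cases j <;> first
      | rfl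
      | (exfalso; revert h2; simp [i8]; done)
      | (exfalso; have := e8_inj hd _ _ ((ret TT (top8 d).B).injective (h1.trans e1.symm)); omega)
      | (exfalso; have := e8_inj hd _ _ ((ret TT (top8 d).B).injective (h1.trans e2.symm)); omega)
  subst key
  exact (FR_ret TT (top8 d).B _ _).1 h1

theorem hrii {d i : ℕ} (hd : 1 ≤ d) (hi : i < 8) (h36 : 3 ≤ i) (h6 : i < 7) :
    FR TT (top8 d).B (x8 d i) (x8 d i) := by
  obtain ⟨j, hj, h1, h2⟩ := ret_8 (i := i) hd hi
  have key : j = i := by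
    interval_cases i <;> interval_cases j <;> first
      | rfl
      | (exfalso; revert h2; simp [i8]; done)
  subst key
  exact (FR_ret TT (top8 d).B _ _).1 h1

/-! ### The frame -/

/-- letters before the star -/
def a8 : ℕ → List Bool
  | 0 => [false, false, false]
  | 1 => [false, false, true, false]
  | 2 => [false, false]
  | 3 => [false, true, false, true, false]
  | 4 => [true, true, false, true, false, false]
  | 5 => []
  | 6 => [false]
  | _ => [false, false]

/-- letters behind the star, before `S` -/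
def b8 : ℕ → List Bool
  | 0 => [true, true, true]
  | 1 => [true, true]
  | 2 => [true, false, true, true]
  | 3 => [true]
  | 4 => []
  | 5 => [true, true, true, false, false, false]
  | 6 => [true, true, false, false, true]
  | _ => [true, true, false, true]

theorem fr8 (d i : ℕ) (hi : i < 8) : wd (x8 d i).1 = (b8 i ++ wd (pw (d + 2))) ++ a8 i := by
  interval_cases i <;>
  simp only [x8, t8, tH, tB2, tB3, tB4, tC3, tD1, tW4, tW5, a8, b8, wd_node, wd, wd_pw,
    List.replicate_succ, rep_comm', List.cons_append, List.append_assoc, List.nil_append,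
    List.append_nil]

theorem top8_abs {d : ℕ} (hd : 1 ≤ d) : (top8 d).Abs := by
  refine Abs.cert_abs (top8 d) (x8 d) (fun i => ((a8 i).length : ZMod (2 * (d + 5) + 1)))
    1099511627775 254 40974261312 0 1 7 [2, 4, 8, 16, 32, 64, 128, 1] [7722896449]
    ?_ ?_ ?_ ?_ ?_ ?_ ?_ ?_ ?_ ?_ ?_ ?_
  · intro x
    exact mem_top8 d x
  · exact x8_inj hd
  · intro i hi
    change i < 8 at hi
    have hH : x8 d 0 ∉ (top8 d).F := by
      rintro ⟨j, h1, h2, h3⟩
      have h4 := inv8_same h3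
      rw [inv8 hd, inv8 hd] at h4
      interval_cases j <;> simp [i8] at h4
    rcases Nat.eq_zero_or_pos i with h0 | hp
    · subst h0
      constructor
      · intro h
        exact absurd h hH
      · intro h
        exact absurd h (by decide)
    · constructor
      · intro _
        interval_cases i <;> decide
      · intro _
        exact ⟨i, hp, hi, Perm.SameCycle.refl _ _⟩
  · intro i hi
    by_contra h
    change ¬ i < 8 at h
    rw [Abs.bit_eq, Nat.testBit_eq_false_of_lt] at hi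
    · exact absurd hi (by decide)
    · calc 254 < 2 ^ 8 := by norm_num
        _ ≤ 2 ^ i := Nat.pow_le_pow_right (by norm_num) (by omega)
  · rintro x y h ⟨i, h1, h2, h3⟩
    exact ⟨i, h1, h2, h3.trans h⟩
  · intro i hi hd
    exfalso
    change i < 8 at hi
    change _ < 8 at hd
    interval_cases i <;> revert hd <;> decide
  · intro i hi
    have hlt : i < 8 := by
      by_contra h
      rw [Abs.bit_eq, Nat.testBit_eq_false_of_lt] at hi
      · exact absurd hi (by decide)
      · calc 254 < 2 ^ 8 := by norm_num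
          _ ≤ 2 ^ i := Nat.pow_le_pow_right (by norm_num) (by omega)
    interval_cases i
    · exact absurd hi (by decide)
    · exact ⟨by decide, hr12 hd⟩
    · exact ⟨by decide, hr27 hd⟩
    · exact ⟨by decide, hrii hd (by omega) (by omega) (by omega)⟩
    · exact ⟨by decide, hrii hd (by omega) (by omega) (by omega)⟩
    · exact ⟨by decide, hrii hd (by omega) (by omega) (by omega)⟩
    · exact ⟨by decide, hrii hd (by omega) (by omega) (by omega)⟩
    · exact ⟨by decide, hr71 hd⟩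
  · intro i hi j hj hb
    change i < 8 at hi
    change j < 8 at hj
    have key : leL (a8 i ++ false :: b8 i) (a8 j ++ true :: b8 j) →
        io (x8 d i) ((a8 i).length : ZMod (2 * (d + 5) + 1)) ⊆
        insert ((a8 j).length : ZMod (2 * (d + 5) + 1))
          (io (x8 d j) ((a8 j).length : ZMod (2 * (d + 5) + 1))) := by
      intro h
      apply frame_le (fr8 d i hi) (fr8 d j hj)
      have h1 := leL_app h (leL_refl (wd (pw (d + 2))))
      simpa using h1
    apply key
    interval_cases i <;> interval_cases j <;> first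
      | exact absurd hb (by decide)
      | (simp [a8, b8, leL])
  · decide
  · decide
  · decide
  · decide

end Pool.OddHC
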