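import Pool.Agent.Work.MP_8f87b2_top.Top8Id
import Pool.Agent.Work.MP_8f87b2_h26.C2
import Pool.Agent.Work.MP_8f87b2_h26.Parity
import Mathlib.Data.Finsupp.Multiset
import Mathlib.Data.Sym.Card

/-!
MP_8f87b2_co, top of the directed road, heights `k .. k-3`: the parts of the system.
-/

set_option autoImplicit false

namespace Pool.OddHC

open Finset BinaryTree Pool.OddHop

/-! ### Parity of the number of classes -/

theorem card_Ms (n m : ℕ) [NeZero n] : Nat.card (Ms n m) = (n + m - 1).choose m := by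
  have e : Ms n m ≃ Sym (ZMod n) m := (Sym.equivNatSumOfFintype (ZMod n) m).symm
  rw [Nat.card_congr e, Nat.card_eq_fintype_card, Sym.card_sym_eq_choose, ZMod.card]

theorem odd_choose3 (j : ℕ) : Odd ((2 * j + 3).choose 3) ↔ Odd (j + 1) := by
  have h1 := Nat.add_one_mul_choose_eq (2 * j + 2) 2
  have h2 := Nat.add_one_mul_choose_eq (2 * j + 1) 1
  rw [Nat.choose_one_right] at h2
  have h3 : (2 * j + 1 + 1).choose (1 + 1) = (j + 1) * (2 * j + 1) := by
    apply Nat.eq_of_mul_eq_mul_right (show 0 < 1 + 1 by norm_num)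
    rw [← h2]
    ring
  have h4 : (2 * j + 3).choose 3 * 3 = (2 * j + 3) * ((j + 1) * (2 * j + 1)) := by
    rw [← h3]
    exact h1.symm
  have h5 : Odd ((2 * j + 3).choose 3 * 3) ↔ Odd ((2 * j + 3) * ((j + 1) * (2 * j + 1))) := by
    rw [h4]
  rw [Nat.odd_mul, Nat.odd_mul, Nat.odd_mul] at h5
  have o1 : Odd 3 := by decide
  have o2 : Odd (2 * j + 3) := ⟨j + 1, by ring⟩
  have o3 : Odd (2 * j + 1) := ⟨j, rfl⟩
  tauto

theorem odd_card3 (j : ℕ) : Odd (Nat.card (Quotient (msSetoid 3 (one_dvd (2 * j + 1))))) ↔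
    Odd (j + 1) := by
  rw [Nat.odd_iff, card_classes_mod_two ⟨j, rfl⟩, card_Ms, ← Nat.odd_iff,
    show 2 * j + 1 + 3 - 1 = 2 * j + 3 by omega]
  exact odd_choose3 j

/-! ### A bead inside -/

theorem tY_node (j h : ℕ) (hj : 1 ≤ j) (hh : h ≤ 2 * j) : tY (j + 1) (h + 1) = tY j h △ .nil := by
  obtain ⟨p, rfl⟩ : ∃ p, j = p + 1 := ⟨j - 1, by omega⟩
  have e : lf (fun x : ZMod (2 * (p + 1 + 1) + 1) =>
      if x = ((h + 1 : ℕ) : ZMod (2 * (p + 1 + 1) + 1)) then 1 else 0) =
      0 :: (lf (fun x : ZMod (2 * (p + 1) + 1) => if x = (h : ZMod (2 * (p + 1) + 1)) then 1 else 0)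
        ++ [0]) := by
    have c1 : ∀ {n x y : ℕ}, x < n → y < n → ((x : ZMod n) = (y : ZMod n) ↔ x = y) := by
      intro n x y hx hy
      constructor
      · intro hxy
        have := congrArg ZMod.val hxy
        rwa [ZMod.val_natCast_of_lt hx, ZMod.val_natCast_of_lt hy] at this
      · rintro rfl; rfl
    unfold lf
    have e1 : 2 * (p + 1 + 1) + 1 = (2 * (p + 1) + 1) + 1 + 1 := by ring
    conv_lhs => rw [e1, List.range_succ_eq_map, List.map_cons, List.range_succ, List.map_append,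
      List.map_append, List.map_map]
    congr 1
    · beta_reduce
      rw [if_neg]
      intro h0
      have := (c1 (by omega) (by omega)).1 h0
      omega
    · congr 1
      · apply List.map_congr_left
        intro i hi
        rw [List.mem_range] at hi
        simp only [Function.comp]
        have a1 := c1 (n := 2 * (p + 1 + 1) + 1) (x := i + 1) (y := h + 1) (by omega) (by omega)
        have a2 := c1 (n := 2 * (p + 1) + 1) (x := i) (y := h) (by omega) (by omega)
        by_cases hih : i = h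
        · rw [if_pos (a1.2 (by omega)), if_pos (a2.2 hih)]
        · rw [if_neg (fun hc => hih (by have := a1.1 hc; omega)), if_neg (fun hc => hih (a2.1 hc))]
      · simp only [List.map_cons, List.map_nil]
        rw [if_neg]
        intro h0
        have := (c1 (by omega) (by omega)).1 h0
        omega
  unfold tY
  rw [e]
  have hn : (pw (p + 1)).numNodes = p + 1 := pw_num (p + 1)
  have hl := lf_length (fun x : ZMod (2 * (p + 1) + 1) => if x = (h : ZMod (2 * (p + 1) + 1)) then 1 else 0)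
  change lv 0 (ins (pw (p + 1)) (bump (pw (p + 1)) (List.take (2 * (pw (p + 1)).numNodes + 1) (_ ++ [0]))) △
    ins .nil (List.drop (2 * (pw (p + 1)).numNodes + 2) (0 :: (_ ++ [0])))) = _
  rw [hn, List.take_left' hl, List.drop_succ_cons, List.drop_left' hl]
  rfl

/-! ### The plain triple for odd `d` -/

/-- `R` -/
def zR (d : ℕ) : BinaryTree Unit := tY (d + 1) 2

theorem zR_num (d : ℕ) : (zR d).numNodes = d + 3 := by
  unfold zR tY
  rw [(ins_num _ _ (by rw [lf_length, pw_num])).1, pw_num, pkn_pw, lf_sum, one_bead_sum]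

theorem ht_zR (d : ℕ) : ht (zR d) = d + 2 := by
  unfold zR tY
  rw [ht_ins _ _ (by rw [lf_length, pw_num]) (by rw [pw_succ]; simp), ht_pw]

theorem pkn_zR (d : ℕ) : pkn (zR d) = 2 := by
  unfold zR tY
  rw [(ins_num _ _ (by rw [lf_length, pw_num])).2, pkn_pw, lf_sum, one_bead_sum]

theorem leaf_zR (d : ℕ) : leaf (zR d) = 0 := by
  have := zR_num d
  cases hh : zR d with
  | nil => rw [hh] at this; simp [BinaryTree.numNodes] at this
  | node _ A B => rfl

/-- `(())R` -/
def zA (d : ℕ) : X (d + 5) := ⟨(.nil △ .nil) △ zR d, mem_treesOfNumNodesEq.2 (by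
  rw [nn, nn, nz, zR_num]; ring)⟩
/-- `()(R)` -/
def zB (d : ℕ) : X (d + 5) := ⟨.nil △ (zR d △ .nil), mem_treesOfNumNodesEq.2 (by
  rw [nn, nn, nz, zR_num]; ring)⟩
/-- `R()()` -/
def zC (d : ℕ) : X (d + 5) := ⟨app (zR d) (.nil △ (.nil △ .nil)), mem_treesOfNumNodesEq.2 (by
  rw [num_app, zR_num]; rfl)⟩

theorem ht_zA (d : ℕ) : ht (zA d).1 = d + 2 := by
  change max (max (0 + 1) 0 + 1) (ht (zR d)) = d + 2
  rw [ht_zR]; omega

theorem pkn_zA (d : ℕ) : pkn (zA d).1 = 3 := by
  change 0 + (1 + 0 + 0) + pkn (zR d) = 3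
  rw [pkn_zR]

theorem ht_zB (d : ℕ) : ht (zB d).1 = d + 3 := by
  change max (0 + 1) (max (ht (zR d) + 1) 0) = d + 3
  rw [ht_zR]; omega

theorem pkn_zB (d : ℕ) : pkn (zB d).1 = 3 := by
  change 1 + 0 + (leaf (zR d) + pkn (zR d) + 0) = 3
  rw [pkn_zR, leaf_zR]

theorem ht_zC (d : ℕ) : ht (zC d).1 = d + 2 := by
  change ht (app (zR d) (.nil △ (.nil △ .nil))) = d + 2
  rw [ht_app, ht_zR]
  change max (d + 2) (max (0 + 1) (max (0 + 1) 0)) = d + 2
  omega

theorem zB_eq (d : ℕ) : zB d = c2w d 3 := by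
  rw [← eF_eq]
  apply Subtype.ext
  change .nil △ (zR d △ .nil) = .nil △ tY (d + 2) 3
  rw [tY_node (d + 1) 2 (by omega) (by omega)]
  rfl

/-- the beads of `R()()` -/
def f3 (d : ℕ) : ZMod (2 * (d + 1) + 1) → ℕ :=
  fun x => ((if x = ((2 : ℕ) : ZMod (2 * (d + 1) + 1)) then 1 else 0) + if x = -1 then 1 else 0) +
    if x = -1 then 1 else 0

theorem f3_sum (d : ℕ) : ∑ x, f3 d x = 3 := by
  unfold f3
  rw [sum_add_distrib, sum_add_distrib, one_bead_sum, one_bead_sum]

theorem hk2 (d : ℕ) : d + 2 + pkn (pwX (d + 2)).1 + 2 = d + 5 := by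
  change d + 2 + pkn (pw (d + 2)) + 2 = d + 5
  rw [pkn_pw]

theorem hk3 (d : ℕ) : d + 1 + pkn (pwX (d + 1)).1 + 3 = d + 5 := by
  change d + 1 + pkn (pw (d + 1)) + 3 = d + 5
  rw [pkn_pw]

theorem zC_eq (d : ℕ) : zC d = fw (pwX (d + 1)) (hk3 d) ⟨f3 d, f3_sum d⟩ := by
  apply Subtype.ext
  change app (zR d) (.nil △ (.nil △ .nil)) = ins (pwX (d + 1)).1 (lf (f3 d))
  unfold f3
  rw [ins_back (pwX (d + 1)) (fun x => (if x = ((2 : ℕ) : ZMod (2 * (d + 1) + 1)) then 1 else 0) +
    if x = -1 then 1 else 0), ins_back (pwX (d + 1)) (fun x => if x = ((2 : ℕ) : ZMod (2 * (d + 1) + 1)) then 1 else 0)]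
  change app (zR d) _ = app (app (zR d) (.nil △ .nil)) (.nil △ .nil)
  have app_assoc0 : ∀ P Q R : BinaryTree Unit, app (app P Q) R = app P (app Q R) := by
    intro P Q R
    induction P with
    | nil => rfl
    | node _ A B _ ih => rw [app, app, app, ih]
  rw [app_assoc0]
  rfl

end Pool.OddHC
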