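import Pool.Agent.Work.MP_8f87b2_top.Ham8
import Pool.Agent.Work.MP_8f87b2_bot.Mid

/-!
MP_8f87b2_co: the top with a PRESCRIBED matching of the class `(k-3,1,1,1)` (three beads over the nested word), and the
frame of the whole proof with this choice.
-/

set_option autoImplicit false

namespace Pool.OddHC

open Finset BinaryTree Pool.OddHop

variable {d : ℕ}

/-- the classes of three beads, content `(k-3,1,1,1)` -/
abbrev Q3 (d : ℕ) : Type := Quotient (msSetoid 3 (one_dvd (2 * (d + 1) + 1)))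

/-- the class which has to stay single for odd `d` (even `k`) -/
def q30 (d : ℕ) : Q3 d := Quotient.mk _ ⟨f3 d, f3_sum d⟩

/-- a matching of the three-bead classes by hops as the top needs it -/
structure OK3 (d : ℕ) (ι : Q3 d → Q3 d) : Prop where
  inv : ∀ q, ι (ι q) = q
  hop : ∀ q, ι q = q ∨ HopQ (one_dvd _) q (ι q)
  fix : ∀ q, ι q = q ↔ q = q30 d ∧ d % 2 = 1

theorem odd3 (d : ℕ) : Odd (Nat.card (Q3 d)) ↔ d % 2 = 1 := by
  rw [odd_card3, Nat.odd_iff]
  omega

theorem exists_OK3 (d : ℕ) : ∃ ι, OK3 d ι := by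
  obtain ⟨ι, h1, h2, h3⟩ := near_prescribed (n := 2 * (d + 1) + 1) ⟨d + 1, rfl⟩
    (one_dvd _) (show 1 ≤ 3 by norm_num) (show 3 ≠ 2 by norm_num) (q30 d)
  refine ⟨ι, h1, h2, fun q => ?_⟩
  rw [h3]
  exact and_congr_right fun _ => odd3 d

theorem sys4_of (hd : 3 ≤ d) {ι : Q3 d → Q3 d} (hι : OK3 d ι) :
    HasSys ({cyc (pwX (d + 5))} ∪ n1 d ∪ n2 d ∪ n3 d) (n4 d) (EW (pwX (d + 1)) (hk3 d) ι) ∅ ∧
      ∀ w ∈ EW (pwX (d + 1)) (hk3 d) ι, w ∈ w4 d := by
  have h := sys_efix (by omega) (pwX (d + 1)) (T_pwX _) (hk3 d) ι hι.inv hι.hop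
    ({cyc (pwX (d + 5))} ∪ n1 d ∪ n2 d ∪ n3 d) (by
      intro f hf _ _
      apply top_cover hd
      rw [ht_wH _ _ _ (by omega)]
      change d + 3 ≤ ht (pw (d + 1)) + 2
      rw [ht_pw])
  have hC : cyc (zC d) = fc (by omega) (pwX (d + 1)) (T_pwX _) (hk3 d) (q30 d) :=
    congrArg cyc (zC_eq d)
  have e : {c | ∃ q, ι q ≠ q ∧ fc (by omega) (pwX (d + 1)) (T_pwX _) (hk3 d) q = c} = n4 d := by
    ext c
    constructor
    · rintro ⟨q, hq, rfl⟩
      obtain ⟨x, rfl⟩ := Quotient.exists_rep q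
      refine ⟨?_, ?_, ?_⟩
      · rw [fc_mk, htc_cyc, ht_fw _ _ _ (by omega)]
        change ht (pw (d + 1)) + 1 = d + 2
        rw [ht_pw]
      · rw [fc_mk, pkc_cyc]
        unfold fw
        rw [pkn_phi]
        change pkn (pw (d + 1)) + ∑ z, x.1 z = 4
        rw [pkn_pw, x.2]
      · rintro ⟨a, b⟩
        rw [hC] at b
        apply hq
        rw [hι.fix]
        exact ⟨fc_inj _ _ _ _ b, a⟩
    · rintro ⟨a, b, c'⟩
      obtain ⟨w, rfl⟩ := Quotient.exists_rep c
      change htc (cyc w) = d + 2 at a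
      change pkc (cyc w) = 4 at b
      rw [htc_cyc] at a
      rw [pkc_cyc] at b
      rcases class_m3 hd w a with ⟨h5, -⟩ | ⟨h5, -⟩ | ⟨h5, g, hk, hw, hg⟩
      · omega
      · omega
      · refine ⟨Quotient.mk _ ⟨g, hg⟩, ?_, ?_⟩
        · rw [Ne, hι.fix]
          rintro ⟨e1, e2⟩
          apply c'
          refine ⟨e2, ?_⟩
          rw [hC, ← e1]
          exact congrArg cyc hw
        · exact (congrArg cyc hw).symm
  rw [e] at h
  refine ⟨h, ?_⟩
  rintro w ⟨f, hf, a1, a2, a3, a4⟩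
  refine ⟨f, by rw [hf]; exact hk3 d, ?_⟩
  rcases a4 with a4 | a4 | a4
  · exact Or.inl a4
  · refine Or.inr ⟨?_, Or.inl a4⟩
    rw [← e, a4]
    exact ⟨qB f hf (-1), by rw [a2]; exact a3, (wB_cyc (by omega) _ (T_pwX _) (hk3 d) f hf).symm⟩
  · refine Or.inr ⟨?_, Or.inr a4⟩
    rw [← e, a4]
    exact ⟨qB f hf 0, by rw [a1]; exact a3.symm, (wF_cyc (by omega) _ (T_pwX _) (hk3 d) f hf).symm⟩

/-- the words of the top with the matching `ι` -/
def topW8' (d : ℕ) (ι : Q3 d → Q3 d) : Set (X (d + 5)) :=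
  {w | ∃ i < 8, w = x8 d i} ∪ w2 d ∪ w3 d ∪ EW (pwX (d + 1)) (hk3 d) ι

theorem topW8'_sub (hd : 3 ≤ d) {ι : Q3 d → Q3 d} (hι : OK3 d ι) :
    ∀ w ∈ topW8' d ι, w ∈ topW8 d := by
  rintro w (h | h)
  · exact Or.inl h
  · exact Or.inr ((sys4_of hd hι).2 w h)

/-- **THE TOP with a prescribed matching** -/
theorem top8_sys_of (hd : 3 ≤ d) {ι : Q3 d → Q3 d} (hι : OK3 d ι) : HasSys {cyc (pwX (d + 5))}
    {c : Cyc (d + 5) | d + 2 ≤ htc c ∧ c ≠ cyc (pwX (d + 5))} (topW8' d ι) ∅ := by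
  obtain ⟨s4, hsub⟩ := sys4_of hd hι
  have s12 := sys_union (sys1 (by omega)) (sys2 hd) (dis12 (by omega)) (wd12 (by omega))
    (fun w _ => Set.notMem_empty w)
  have s3 := sys3 hd (O := {cyc (pwX (d + 5))} ∪ (n1 d ∪ n2 d)) (fun c hc => Or.inr (Or.inl hc))
  have s123 := sys_union s12 s3 (dis3 (by omega)) (wd3 (by omega)) (fun w _ => Set.notMem_empty w)
  have e1 : {cyc (pwX (d + 5))} ∪ n1 d ∪ n2 d ∪ n3 d = {cyc (pwX (d + 5))} ∪ (n1 d ∪ n2 d ∪ n3 d) := by
    rw [Set.union_assoc, Set.union_assoc, Set.union_assoc]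
  rw [e1] at s4
  have s := sys_union s123 s4 (dis4 (by omega)) (fun w hw hw' => wd4 (by omega) w hw (hsub w hw'))
    (fun w _ => Set.notMem_empty w)
  have eN : n1 d ∪ n2 d ∪ n3 d ∪ n4 d = {c : Cyc (d + 5) | d + 2 ≤ htc c ∧ c ≠ cyc (pwX (d + 5))} := by
    have e5 : htc (cyc (pwX (d + 5))) = d + 5 := by
      rw [htc_cyc]
      exact ht_pw (d + 5)
    ext c
    constructor
    · intro hc
      have key : d + 2 ≤ htc c ∧ htc c ≤ d + 4 := by
        rcases hc with ((hc | hc) | hc) | hc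
        · rcases n1_ht (by omega) hc with h | ⟨h, h'⟩ | ⟨h, h'⟩ | ⟨h, h'⟩ <;> omega
        · obtain ⟨a, b⟩ := n2_ht hc
          omega
        · rcases n3_ht hc with ⟨a, b, e⟩ | ⟨a, b⟩ <;> omega
        · obtain ⟨a, b, e⟩ := hc
          omega
      refine ⟨key.1, ?_⟩
      intro h
      rw [h, e5] at key
      omega
    · rintro ⟨h, h'⟩
      obtain ⟨w, rfl⟩ := Quotient.exists_rep c
      change d + 2 ≤ htc (cyc w) at h
      change cyc w ≠ _ at h'
      rw [htc_cyc] at h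
      change cyc w ∈ _
      rcases Nat.lt_or_ge (d + 2) (ht w.1) with h1 | h1
      · rcases top_cover hd w (by omega) with ((h2 | h2) | h2) | h2
        · exact absurd h2 h'
        · exact Or.inl (Or.inl (Or.inl h2))
        · exact Or.inl (Or.inl (Or.inr h2))
        · exact Or.inl (Or.inr h2)
      · have h2 : ht w.1 = d + 2 := by omega
        rcases class_m3 hd w h2 with ⟨h5, -⟩ | ⟨h5, -⟩ | ⟨h5, -⟩
        · exact Or.inl (Or.inl (Or.inl (n1_d hd w h2 h5)))
        · exact Or.inl (Or.inl (Or.inl (n1_e hd w h2 h5)))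
        · by_cases h6 : d % 2 = 1 ∧ cyc w = cyc (zC d)
          · exact Or.inl (Or.inr ⟨h6.1, Or.inr h6.2⟩)
          · refine Or.inr ⟨?_, ?_, h6⟩
            · rw [htc_cyc, h2]
            · rw [pkc_cyc, h5]
  rw [eN] at s
  refine s.mono (fun w hw => hw) ?_
  rintro w (((h | h) | h) | h) <;> exact h

/-- the frame of the whole proof with a prescribed matching of the class `(k-3,1,1,1)` -/
theorem ham_of_middle' (hd : 3 ≤ d) (s : Bool) {ι : Q3 d → Q3 d} (hι : OK3 d ι)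
    {W I : Set (X (d + 5))}
    (h : HasSys {c : Cyc (d + 5) | d + 2 ≤ htc c} {c | 3 ≤ htc c ∧ htc c < d + 2} W I)
    (hT : ∀ w ∈ topW8' d ι, w ∉ W) (hTI : ∀ w ∈ topW8' d ι, w ∉ I)
    (hB : ∀ w ∈ W, w ∉ botW (d + 5) s) :
    2 * (d + 5) + 1 ∈ Pool.Agent.Work.MP_8f87b2_co.compressionSet
      (Pool.Agent.Work.MP_8f87b2_co.oddGraph (d + 5)) := by
  have hb := (bot_sys (d + 5) (by omega) s).mono_old
    (O' := {c : Cyc (d + 5) | d + 2 ≤ htc c} ∪ {c | 3 ≤ htc c ∧ htc c < d + 2}) (by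
      intro c hc
      change 3 ≤ htc c at hc
      by_cases h1 : d + 2 ≤ htc c
      · exact Or.inl h1
      · exact Or.inr ⟨hc, by omega⟩)
  have h1 := sys_union h hb (by
    rintro c ⟨hc, -⟩ hc'
    change htc c ≤ 2 at hc'
    omega) hB (fun w _ => Set.notMem_empty w)
  have e : {c : Cyc (d + 5) | 3 ≤ htc c ∧ htc c < d + 2} ∪ {c | htc c ≤ 2} = {c | htc c < d + 2} := by
    ext c
    constructor
    · rintro (hc | hc)
      · exact hc.2
      · change htc c ≤ 2 at hc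
        change htc c < d + 2
        omega
    · intro hc
      change htc c < d + 2 at hc
      by_cases h1 : 3 ≤ htc c
      · exact Or.inl ⟨h1, hc⟩
      · exact Or.inr (by change htc c ≤ 2; omega)
  rw [e] at h1
  have e0 : d + 2 ≤ htc (cyc (pwX (d + 5))) := by
    rw [htc_cyc]
    have e1 : ht (pwX (d + 5)).1 = d + 5 := ht_pw (d + 5)
    omega
  have e1 : ({cyc (pwX (d + 5))} : Set (Cyc (d + 5))) ∪
      {c : Cyc (d + 5) | d + 2 ≤ htc c ∧ c ≠ cyc (pwX (d + 5))} = {c | d + 2 ≤ htc c} := by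
    ext c
    constructor
    · rintro (hc | hc)
      · have hc' : c = cyc (pwX (d + 5)) := hc
        rw [hc']
        exact e0
      · exact hc.1
    · intro hc
      by_cases h1 : c = cyc (pwX (d + 5))
      · exact Or.inl h1
      · exact Or.inr ⟨hc, h1⟩
  have h2 := sys_union (top8_sys_of hd hι) (by rw [e1]; exact h1) (by
      rintro c ⟨hc, _⟩ hc'
      change htc c < d + 2 at hc'
      omega) (by
      rintro w hw (h2 | h2)
      · exact hT w hw h2
      · have h3 := topW8_ht (by omega) (topW8'_sub hd hι w hw)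
        have h4 := botW_ht h2
        omega) (by
      rintro w hw (h2 | h2)
      · exact hTI w hw h2
      · exact h2)
  have e2 : {c : Cyc (d + 5) | d + 2 ≤ htc c ∧ c ≠ cyc (pwX (d + 5))} ∪ {c | htc c < d + 2} =
      {cyc (pwX (d + 5))}ᶜ := by
    ext c
    constructor
    · rintro (hc | hc)
      · exact hc.2
      · intro h2
        have h2' : c = cyc (pwX (d + 5)) := h2
        rw [h2'] at hc
        change htc _ < d + 2 at hc
        omega
    · intro hc
      by_cases h2 : d + 2 ≤ htc c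
      · exact Or.inl ⟨h2, hc⟩
      · exact Or.inr (not_le.1 h2)
  rw [e2] at h2
  exact sys_main (by omega) _ h2

end Pool.OddHC
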