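import Pool.Agent.Work.MP_8f87b2_top.Top8
import Pool.Agent.Work.MP_8f87b2_top.OneOrb
import Pool.Agent.Work.MP_8f87b2_bot.EFix

/-!
MP_8f87b2_co, top of the directed road, heights `k, k-1, k-2, k-3` (`k = d + 5`): identification of the T-cycles, the
matching of the distances, the plain triple for even `k`.
-/

set_option autoImplicit false

namespace Pool.OddHC

open Finset BinaryTree Pool.OddHop

/-! ### Two beads: the classes are `0..j` -/

/-- beads in the holes `0` and `h` -/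
def bdM (j h : ℕ) : Ms (2 * j + 1) 2 := ⟨bd h, bd_sum h⟩

/-- the class of the distance `h` -/
def q2 (j h : ℕ) : Quotient (msSetoid 2 (one_dvd (2 * j + 1))) := Quotient.mk _ (bdM j h)

theorem q2_surj {j : ℕ} (q : Quotient (msSetoid 2 (one_dvd (2 * j + 1)))) : ∃ h, h ≤ j ∧ q = q2 j h := by
  obtain ⟨x, rfl⟩ := Quotient.exists_rep q
  obtain ⟨h, hh, t, ht⟩ := two_rot x.1 x.2
  refine ⟨h, hh, ?_⟩
  apply Quotient.sound
  refine ⟨t, Subsingleton.elim _ _, fun z => ?_⟩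
  rw [ht]
  rfl

theorem q2_inj {j h h' : ℕ} (hh : h ≤ j) (hh' : h' ≤ j) (he : q2 j h = q2 j h') : h = h' := by
  obtain ⟨t, -, h1⟩ := Quotient.exact he
  refine bd_rot hh hh' (t := -t) ?_
  funext x
  have h2 := h1 (x + -t)
  rw [neg_add_cancel_right] at h2
  exact h2

theorem q2_hop (j h : ℕ) : HopQ (one_dvd (2 * j + 1)) (q2 j h) (q2 j (h + 1)) := by
  refine ⟨bdM j h, bdM j (h + 1), rfl, rfl, (h : ZMod (2 * j + 1)), ((h : ZMod (2 * j + 1)) + 1),
    Or.inl rfl, fun z => ?_⟩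
  change bd h z + (if (h : ZMod (2 * j + 1)) + 1 = z then 1 else 0) =
    bd (h + 1) z + (if (h : ZMod (2 * j + 1)) = z then 1 else 0)
  unfold bd
  push_cast
  simp only [eq_comm (a := z)]
  split_ifs <;> omega

/-- a matching of the distances gives a matching of the classes -/
theorem q2_match {j : ℕ} (p : ℕ → ℕ) (h1 : ∀ i, i ≤ j → p i ≤ j) (h2 : ∀ i, i ≤ j → p (p i) = i)
    (h3 : ∀ i, i ≤ j → p i = i ∨ p i = i + 1 ∨ i = p i + 1) :
    ∃ ι : Quotient (msSetoid 2 (one_dvd (2 * j + 1))) → Quotient (msSetoid 2 (one_dvd (2 * j + 1))),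
      (∀ q, ι (ι q) = q) ∧ (∀ q, ι q = q ∨ HopQ (one_dvd _) q (ι q)) ∧
      ∀ i, i ≤ j → ι (q2 j i) = q2 j (p i) := by
  have hs := q2_surj (j := j)
  choose n hn hq using hs
  have key : ∀ i, i ≤ j → n (q2 j i) = i := by
    intro i hi
    exact (q2_inj hi (hn _) (hq _)).symm
  refine ⟨fun q => q2 j (p (n q)), ?_, ?_, ?_⟩
  · intro q
    change q2 j (p (n (q2 j (p (n q))))) = q
    rw [key _ (h1 _ (hn q)), h2 _ (hn q), ← hq]
  · intro q
    change q2 j (p (n q)) = q ∨ HopQ _ q (q2 j (p (n q)))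
    rcases h3 (n q) (hn q) with h | h | h
    · left
      rw [h, ← hq]
    · right
      have := q2_hop j (n q)
      rw [← hq] at this
      rw [h]
      exact this
    · right
      have := q2_hop j (p (n q))
      rw [← h, ← hq] at this
      obtain ⟨a, a', e1, e2, e3⟩ := this
      exact ⟨a', a, e2, e1, e3.symm⟩
  · intro i hi
    change q2 j (p (n (q2 j i))) = _
    rw [key i hi]

/-- the partner of a distance, `j = d + 2`: `0` (and `3` for odd `d`) stay single -/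
def pt (d i : ℕ) : ℕ :=
  if d % 2 = 0 then (if i = 0 then 0 else if i % 2 = 1 then i + 1 else i - 1)
  else if i = 0 then 0 else if i = 3 then 3 else if i = 1 then 2 else if i = 2 then 1 else
    if i % 2 = 0 then i + 1 else i - 1

theorem pt_val (d i : ℕ) : (d % 2 = 0 ∧ i = 0 ∧ pt d i = 0) ∨ (d % 2 = 0 ∧ i % 2 = 1 ∧ pt d i = i + 1) ∨
    (d % 2 = 0 ∧ i ≠ 0 ∧ i % 2 = 0 ∧ pt d i = i - 1) ∨ (d % 2 = 1 ∧ i = 0 ∧ pt d i = 0) ∨
    (d % 2 = 1 ∧ i = 3 ∧ pt d i = 3) ∨ (d % 2 = 1 ∧ i = 1 ∧ pt d i = 2) ∨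
    (d % 2 = 1 ∧ i = 2 ∧ pt d i = 1) ∨ (d % 2 = 1 ∧ 4 ≤ i ∧ i % 2 = 0 ∧ pt d i = i + 1) ∨
    (d % 2 = 1 ∧ 4 ≤ i ∧ i % 2 = 1 ∧ pt d i = i - 1) := by
  rcases Nat.mod_two_eq_zero_or_one d with hd | hd
  · rcases Nat.eq_zero_or_pos i with rfl | hi
    · left; exact ⟨hd, rfl, by unfold pt; rw [if_pos hd, if_pos rfl]⟩
    · rcases Nat.mod_two_eq_zero_or_one i with h | h
      · right; right; left
        exact ⟨hd, by omega, h, by unfold pt; rw [if_pos hd, if_neg (by omega), if_neg (by omega)]⟩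
      · right; left
        exact ⟨hd, h, by unfold pt; rw [if_pos hd, if_neg (by omega), if_pos h]⟩
  · right; right; right
    by_cases h0 : i = 0
    · left; exact ⟨hd, h0, by unfold pt; rw [if_neg (by omega), if_pos h0]⟩
    right
    by_cases h3 : i = 3
    · left; exact ⟨hd, h3, by unfold pt; rw [if_neg (by omega), if_neg h0, if_pos h3]⟩
    right
    by_cases h1 : i = 1
    · left; exact ⟨hd, h1, by unfold pt; rw [if_neg (by omega), if_neg h0, if_neg h3, if_pos h1]⟩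
    right
    by_cases h2 : i = 2
    · left; exact ⟨hd, h2, by unfold pt; rw [if_neg (by omega), if_neg h0, if_neg h3, if_neg h1, if_pos h2]⟩
    right
    rcases Nat.mod_two_eq_zero_or_one i with h | h
    · left
      exact ⟨hd, by omega, h, by unfold pt; rw [if_neg (by omega), if_neg h0, if_neg h3, if_neg h1, if_neg h2, if_pos h]⟩
    · right
      exact ⟨hd, by omega, h, by unfold pt; rw [if_neg (by omega), if_neg h0, if_neg h3, if_neg h1, if_neg h2, if_neg (by omega)]⟩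
theorem pt_all {d i : ℕ} (hd : 1 ≤ d) (hi : i ≤ d + 2) : pt d i ≤ d + 2 ∧ pt d (pt d i) = i ∧
    (pt d i = i ∨ pt d i = i + 1 ∨ i = pt d i + 1) := by
  have h1 := pt_val d i
  have h2 := pt_val d (pt d i)
  generalize pt d (pt d i) = y at h2 ⊢
  generalize pt d i = x at h1 h2 ⊢
  rcases h1 with h1 | h1 | h1 | h1 | h1 | h1 | h1 | h1 | h1 <;>
    rcases h2 with h2 | h2 | h2 | h2 | h2 | h2 | h2 | h2 | h2 <;>
    first
      | (exfalso; omega)
      | (refine ⟨by omega, by omega, ?_⟩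
         first
           | (left; omega)
           | (right; left; omega)
           | (right; right; omega))
theorem pt_fix {d i : ℕ} : pt d i = i ↔ i = 0 ∨ (d % 2 = 1 ∧ i = 3) := by
  have h1 := pt_val d i
  rcases h1 with h1 | h1 | h1 | h1 | h1 | h1 | h1 | h1 | h1 <;> constructor <;> intro h <;> omega

/-- THE MATCHING of the distances -/
theorem exists_i2 {d : ℕ} (hd : 1 ≤ d) :
    ∃ ι : Quotient (msSetoid 2 (one_dvd (2 * (d + 2) + 1))) →
        Quotient (msSetoid 2 (one_dvd (2 * (d + 2) + 1))),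
      (∀ q, ι (ι q) = q) ∧ (∀ q, ι q = q ∨ HopQ (one_dvd _) q (ι q)) ∧
      ∀ i, i ≤ d + 2 → (ι (q2 (d + 2) i) = q2 (d + 2) i ↔ i = 0 ∨ (d % 2 = 1 ∧ i = 3)) := by
  obtain ⟨ι, h1, h2, h3⟩ := q2_match (j := d + 2) (pt d) (fun i hi => (pt_all hd hi).1)
    (fun i hi => (pt_all hd hi).2.1) (fun i hi => (pt_all hd hi).2.2)
  refine ⟨ι, h1, h2, fun i hi => ?_⟩
  rw [h3 i hi, ← pt_fix (d := d) (i := i)]
  constructor
  · intro h
    exact q2_inj (pt_all hd hi).1 hi h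
  · intro h
    rw [h]

/-! ### Words of height `k - 3` -/

theorem pkn_phi {j k : ℕ} (u : X j) (a : ZMod (2 * j + 1) → ℕ) (hk : j + pkn u.1 + ∑ x, a x = k) :
    pkn (phi u a hk).1 = pkn u.1 + ∑ x, a x := by
  change pkn (ins u.1 (lf a)) = _
  rw [(ins_num u.1 (lf a) (by rw [lf_length, X_num])).2, lf_sum]

/-- the words of height `k - 3` -/
theorem class_m3 {d : ℕ} (hd : 3 ≤ d) (w : X (d + 5)) (h : ht w.1 = d + 2) :
    (pkn w.1 = 2 ∧ ∃ (u : X (d + 3)) (hk : d + 3 + pkn u.1 +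
      ∑ x : ZMod (2 * (d + 3) + 1), (fun _ => 0 : ZMod (2 * (d + 3) + 1) → ℕ) x = d + 5),
      w = phi u (fun _ => 0) hk ∧ ht u.1 = d + 1 ∧ pkn u.1 = 2) ∨
    (pkn w.1 = 3 ∧ ∃ (u : X (d + 2)) (a : ZMod (2 * (d + 2) + 1) → ℕ) (hk : d + 2 + pkn u.1 +
      ∑ x, a x = d + 5), w = phi u a hk ∧ ht u.1 = d + 1 ∧ ∑ x, a x = 1) ∨
    (pkn w.1 = 4 ∧ ∃ (a : ZMod (2 * (d + 1) + 1) → ℕ) (hk : d + 1 + pkn (pwX (d + 1)).1 +
      ∑ x, a x = d + 5), w = phi (pwX (d + 1)) a hk ∧ ∑ x, a x = 3) := by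
  obtain ⟨l, u, a, hk, hw, h3, hl⟩ := red_ht w (by omega)
  have h4 := ht_le u.1
  rw [X_num] at h4
  have h5 : 1 ≤ pkn u.1 := pkn_pos u hl
  have h6 : pkn w.1 = pkn u.1 + ∑ x, a x := by rw [hw, pkn_phi]
  have h7 := pkn_ht u hl
  have h8 : pkn u.1 = 1 → ht u.1 = l := pkn_one_ht u
  rcases (by omega : l = d + 1 ∨ l = d + 2 ∨ l = d + 3 ∨ l = d + 4) with e | e | e | e
  · subst e
    right; right
    have h9 : u = pwX (d + 1) := ht_fullX u (by omega)
    subst h9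
    have h10 : pkn (pwX (d + 1)).1 = 1 := pkn_pw d
    exact ⟨by omega, a, hk, hw, by omega⟩
  · subst e
    right; left
    refine ⟨by omega, u, a, hk, hw, by omega, by omega⟩
  · subst e
    left
    have h9 : ∑ x, a x = 0 := by omega
    have h10 : a = fun _ => 0 := by
      funext x
      exact Finset.sum_eq_zero_iff.1 h9 x (mem_univ x)
    subst h10
    exact ⟨by omega, u, hk, hw, by omega, by omega⟩
  · omega

/-- content `(k-3,3)`: one T-cycle -/
theorem same_m3a {d : ℕ} (hd : 3 ≤ d) (w w' : X (d + 5)) (h : ht w.1 = d + 2) (hp : pkn w.1 = 2)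
    (h' : ht w'.1 = d + 2) (hp' : pkn w'.1 = 2) :
    (TT : Equiv.Perm (X (d + 5))).SameCycle w w' := by
  have key : ∀ w : X (d + 5), ht w.1 = d + 2 → pkn w.1 = 2 → ∃ (u : X (d + 3)) (hk : d + 3 + pkn u.1 +
      ∑ x : ZMod (2 * (d + 3) + 1), (fun _ => 0 : ZMod (2 * (d + 3) + 1) → ℕ) x = d + 5),
      w = phi u (fun _ => 0) hk ∧ ht u.1 = d + 1 ∧ pkn u.1 = 2 := by
    intro w h hp
    rcases class_m3 hd w h with ⟨-, h1⟩ | ⟨h1, -⟩ | ⟨h1, -⟩
    · exact h1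
    · omega
    · omega
  obtain ⟨u, hk, hw, h1, h2⟩ := key w h hp
  obtain ⟨u', hk', hw', h1', h2'⟩ := key w' h' hp'
  rw [hw, hw']
  refine same_phi (fun _ => rfl) hk hk' ?_
  obtain ⟨e, rfl⟩ : ∃ e, d = e + 2 := ⟨d - 2, by omega⟩
  exact same_d1 e u u' (by omega) h2 (by omega) h2'

/-- content `(k-3,2,1)`: one T-cycle -/
theorem same_m3b {d : ℕ} (hd : 3 ≤ d) (w w' : X (d + 5)) (h : ht w.1 = d + 2) (hp : pkn w.1 = 3)
    (h' : ht w'.1 = d + 2) (hp' : pkn w'.1 = 3) :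
    (TT : Equiv.Perm (X (d + 5))).SameCycle w w' := by
  have key : ∀ w : X (d + 5), ht w.1 = d + 2 → pkn w.1 = 3 → ∃ (u : X (d + 2))
      (a : ZMod (2 * (d + 2) + 1) → ℕ) (hk : d + 2 + pkn u.1 + ∑ x, a x = d + 5),
      w = phi u a hk ∧ ht u.1 = d + 1 ∧ ∑ x, a x = 1 := by
    intro w h hp
    rcases class_m3 hd w h with ⟨h1, -⟩ | ⟨-, h1⟩ | ⟨h1, -⟩
    · omega
    · exact h1
    · omega
  obtain ⟨u, a, hk, hw, h1, h2⟩ := key w h hp
  obtain ⟨u', a', hk', hw', h1', h2'⟩ := key w' h' hp'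
  rw [hw, hw']
  exact same_21 (q := d) (by omega) u u' (by omega) (by omega) a a' h2 h2' hk hk'

end Pool.OddHC
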