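import Pool.Agent.Work.MP_8f87b2_top.Top8A

/-!
MP_8f87b2_co: THE TOP `k .. k-3` as a system (`k = d + 5`, `d ≥ 3`).
-/

set_option autoImplicit false

namespace Pool.OddHC

open Finset BinaryTree Pool.OddHop

variable {d : ℕ}

theorem x8_zero (d : ℕ) : x8 d 0 = pwX (d + 5) := rfl

/-- the new cycles of the root gadget -/
def n1 (d : ℕ) : Set (Cyc (d + 5)) := {c | ∃ i, 1 ≤ i ∧ i < 8 ∧ c = cyc (x8 d i)}

theorem sys1 (hd : 1 ≤ d) : HasSys {cyc (pwX (d + 5))} (n1 d) {w | ∃ i < 8, w = x8 d i} ∅ := by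
  refine sys_of_dir (Γ := Unit) _ _ _ _ (fun _ => top8 d) (fun _ => 0) ?_ ?_ ?_ ?_ ?_ ?_ ?_ ?_ ?_ ?_
  · intro g h hne
    exact absurd rfl hne
  · rintro _ w w' hs ⟨i, h1, h2, h3⟩
    exact ⟨i, h1, h2, h3.trans hs⟩
  · rintro _ w ⟨i, h1, h2, h3⟩
    exact ⟨x8 d i, (mem_top8 d _).2 ⟨i, h2, rfl⟩, h3.symm⟩
  · intro _
    refine ⟨x8 d 0, (mem_top8 d _).2 ⟨0, by omega, rfl⟩, ?_⟩
    rintro ⟨i, h1, h2, h3⟩
    have h4 := inv8_same h3
    rw [inv8 hd, inv8 hd] at h4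
    interval_cases i <;> simp [i8] at h4
  · intro g h hne
    exact absurd rfl hne
  · intro w
    constructor
    · rintro ⟨i, h1, h2, h3⟩
      exact ⟨(), i, h1, h2, cyc_eq.1 h3.symm⟩
    · rintro ⟨_, i, h1, h2, h3⟩
      exact ⟨i, h1, h2, (cyc_eq.2 h3).symm⟩
  · intro _ w hw
    obtain ⟨i, hi, rfl⟩ := (mem_top8 d w).1 hw
    rcases Nat.eq_zero_or_pos i with rfl | hp
    · exact Or.inr (Or.inl rfl)
    · exact Or.inl ⟨i, hp, hi, Equiv.Perm.SameCycle.refl _ _⟩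
  · intro _ w hw
    obtain ⟨i, hi, rfl⟩ := (mem_top8 d w).1 hw
    exact ⟨i, hi, rfl⟩
  · intro _ a ha
    exact absurd ha (Set.notMem_empty a)
  · intro _
    exact top8_abs hd

theorem inv1 (hd : 1 ≤ d) {c : Cyc (d + 5)} (hc : c ∈ n1 d) {w : X (d + 5)} (hw : cyc w = c) :
    ∃ i, 1 ≤ i ∧ i < 8 ∧ cyc w = cyc (x8 d i) ∧ ht w.1 = (i8 d i).1 ∧ pkn w.1 = (i8 d i).2 := by
  obtain ⟨i, h1, h2, h3⟩ := hc
  have h4 := inv8_same (cyc_eq.1 (hw.trans h3))
  rw [inv8 hd] at h4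
  exact ⟨i, h1, h2, hw.trans h3, congrArg Prod.fst h4, congrArg Prod.snd h4⟩

theorem h_iht (hd : 1 ≤ d) (i : ℕ) : ht (x8 d i).1 = (i8 d i).1 := congrArg Prod.fst (inv8 hd)
theorem h_ipk (hd : 1 ≤ d) (i : ℕ) : pkn (x8 d i).1 = (i8 d i).2 := congrArg Prod.snd (inv8 hd)

/-- the word `[k-2]()()` is in the class of the distance `0` -/
theorem x8_3 (d : ℕ) : cyc (x8 d 3) = cyc (c2w d 0) := by
  rw [cyc_eq, ← w6_eq]
  exact s56 d

/-- the words of height `k-1` -/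
theorem n1_a (hd : 1 ≤ d) (w : X (d + 5)) (h : ht w.1 = d + 4) : cyc w ∈ n1 d := by
  refine ⟨1, le_rfl, by omega, cyc_eq.2 (same_sub (by omega) _ _ (by omega) ?_)⟩
  rw [h_iht hd]
  rfl

theorem n1_b (hd : 1 ≤ d) (w : X (d + 5)) (h : ht w.1 = d + 3) (hp : pkn w.1 = 2) : cyc w ∈ n1 d :=
  ⟨6, by omega, by omega, cyc_eq.2 (same_d1 d _ _ h hp (h_iht hd 6) (h_ipk hd 6))⟩

theorem n1_c (d : ℕ) : cyc (c2w d 0) ∈ n1 d := ⟨3, by omega, by omega, (x8_3 d).symm⟩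

theorem n1_d (hd : 3 ≤ d) (w : X (d + 5)) (h : ht w.1 = d + 2) (hp : pkn w.1 = 2) : cyc w ∈ n1 d :=
  ⟨5, by omega, by omega, cyc_eq.2 (same_m3a hd _ _ h hp (h_iht (by omega) 5) (h_ipk (by omega) 5))⟩

theorem n1_e (hd : 3 ≤ d) (w : X (d + 5)) (h : ht w.1 = d + 2) (hp : pkn w.1 = 3) : cyc w ∈ n1 d :=
  ⟨4, by omega, by omega, cyc_eq.2 (same_m3b hd _ _ h hp (h_iht (by omega) 4) (h_ipk (by omega) 4))⟩

/-- the cycle of the distance `i` -/
theorem fc_q2 (i : ℕ) : fc (by omega) (pwX (d + 2)) (T_pwX _) (hk2 d) (q2 (d + 2) i) = cyc (c2w d i) :=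
  rfl

theorem c2w_ne {i i' : ℕ} (h : i ≤ d + 2) (h' : i' ≤ d + 2) (hne : i ≠ i') :
    cyc (c2w d i) ≠ cyc (c2w d i') := fun he => hne (c2w_same h h' (cyc_eq.1 he))

theorem c2w_n1 (hd : 1 ≤ d) {i : ℕ} (h : i ≤ d + 2) (hi : i ≠ 0) : cyc (c2w d i) ∉ n1 d := by
  intro hc
  obtain ⟨l, h1, h2, h3, h4, h5⟩ := inv1 hd hc rfl
  rw [ht_c2w] at h4
  rw [pkn_c2w] at h5
  have h6 : l = 3 := by
    interval_cases l <;> simp [i8] at h4 h5 ⊢
  subst h6
  rw [x8_3] at h3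
  exact c2w_ne h (by omega) hi h3

/-! ### The hop systems -/

/-- the words of the hop triples with the common beads `f` -/
def isE {j k : ℕ} (u : X j) (m : ℕ) (w : X k) : Prop :=
  ∃ (f : ZMod (2 * j + 1) → ℕ) (h : j + pkn u.1 + (∑ z, f z + 1) = k), ∑ z, f z + 1 = m ∧
    (w = wH u f h ∨ w = wBb u f h ∨ w = wF u f h)

/-- the new cycles of the first hop system -/
def n2 (d : ℕ) : Set (Cyc (d + 5)) :=
  {c | ∃ i, 1 ≤ i ∧ i ≤ d + 2 ∧ ¬ (d % 2 = 1 ∧ i = 3) ∧ c = cyc (c2w d i)}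

/-- the words of the first hop system: no bead in the first hole -/
def w2 (d : ℕ) : Set (X (d + 5)) :=
  {w | ∃ (f : ZMod (2 * (d + 2) + 1) → ℕ) (h : d + 2 + pkn (pwX (d + 2)).1 + (∑ z, f z + 1) = d + 5),
    f 0 = 0 ∧ ((w = wH (pwX (d + 2)) f h) ∨ (cyc w ∈ n2 d ∧ (w = wBb (pwX (d + 2)) f h ∨
      w = wF (pwX (d + 2)) f h)))}

theorem sys2 (hd : 3 ≤ d) : HasSys ({cyc (pwX (d + 5))} ∪ n1 d) (n2 d) (w2 d) ∅ := by
  obtain ⟨ι, h1, h2, h3⟩ := exists_i2 (d := d) (by omega)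
  have h := sys_efix (by omega) (pwX (d + 2)) (T_pwX _) (hk2 d) ι h1 h2
    ({cyc (pwX (d + 5))} ∪ n1 d) (by
      intro f hf _ _
      refine Or.inr (n1_a (by omega) _ ?_)
      rw [ht_wH _ _ _ (by omega)]
      change ht (pw (d + 2)) + 2 = d + 4
      rw [ht_pw])
  have e : {c | ∃ q, ι q ≠ q ∧ fc (by omega) (pwX (d + 2)) (T_pwX _) (hk2 d) q = c} = n2 d := by
    ext c
    constructor
    · rintro ⟨q, hq, rfl⟩
      obtain ⟨i, hi, rfl⟩ := q2_surj q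
      rw [Ne, h3 i hi] at hq
      refine ⟨i, ?_, hi, fun hc => hq (Or.inr hc), rfl⟩
      rcases Nat.eq_zero_or_pos i with h0 | h0
      · exact absurd (Or.inl h0) hq
      · exact h0
    · rintro ⟨i, hi, hi', hn, rfl⟩
      refine ⟨q2 (d + 2) i, ?_, rfl⟩
      rw [Ne, h3 i hi']
      rintro (h0 | h0)
      · omega
      · exact hn h0
  rw [e] at h
  refine h.mono ?_ (fun _ hx => hx)
  rintro w ⟨f, hf, a1, a2, a3, a4⟩
  refine ⟨f, by rw [hf]; exact hk2 d, ?_, ?_⟩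
  · -- a bead in the first hole: distance `0`
    by_contra h0
    apply a3
    have hm : f = fun x => if x = 0 then 1 else 0 := by
      obtain ⟨t, ht⟩ := one_bead f (by omega)
      rw [ht] at h0
      simp only [ite_eq_right_iff, one_ne_zero, imp_false, not_not] at h0
      rw [ht, ← h0]
    have hq : qB f hf 0 = q2 (d + 2) 0 := by
      unfold qB q2
      congr 1
      apply Subtype.ext
      funext x
      change f x + (if x = 0 then 1 else 0) = bd 0 x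
      rw [hm]
      unfold bd
      rw [Nat.cast_zero]
    rw [← a1, hq]
    exact ((h3 0 (by omega)).2 (Or.inl rfl)).symm
  · rcases a4 with a4 | a4 | a4
    · exact Or.inl a4
    · refine Or.inr ⟨?_, Or.inl a4⟩
      rw [← e, a4]
      exact ⟨qB f hf (-1), by rw [a2]; exact a3, (wB_cyc (by omega) _ (T_pwX _) (hk2 d) f hf).symm⟩
    · refine Or.inr ⟨?_, Or.inr a4⟩
      rw [← e, a4]
      exact ⟨qB f hf 0, by rw [a1]; exact a3.symm, (wF_cyc (by omega) _ (T_pwX _) (hk2 d) f hf).symm⟩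

/-- the new cycles of the plain triple -/
def n3 (d : ℕ) : Set (Cyc (d + 5)) := {c | d % 2 = 1 ∧ (c = cyc (zB d) ∨ c = cyc (zC d))}
def w3 (d : ℕ) : Set (X (d + 5)) := {w | d % 2 = 1 ∧ (w = zA d ∨ w = zB d ∨ w = zC d)}

theorem sys3 (hd : 3 ≤ d) {O : Set (Cyc (d + 5))} (hO : n1 d ⊆ O) : HasSys O (n3 d) (w3 d) ∅ := by
  by_cases hp : d % 2 = 1
  · have hAB : cyc (zA d) ≠ cyc (zB d) := by
      intro h
      have h1 := ht_same (cyc_eq.1 h)
      rw [ht_zA, ht_zB] at h1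
      omega
    have hpC : pkn (zC d).1 = 4 := by
      rw [zC_eq]
      unfold fw
      rw [pkn_phi]
      change pkn (pw (d + 1)) + ∑ x, f3 d x = 4
      rw [pkn_pw, f3_sum]
    have hAC : cyc (zA d) ≠ cyc (zC d) := by
      intro h
      have h1 := pkc_cyc (zA d)
      have h2 := pkc_cyc (zC d)
      rw [h, h2, hpC, pkn_zA] at h1
      omega
    have hBC : cyc (zB d) ≠ cyc (zC d) := by
      intro h
      have h1 := ht_same (cyc_eq.1 h)
      rw [ht_zC, ht_zB] at h1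
      omega
    have h := sys_tri O (tri_absG (P := .nil) (Q := .nil △ .nil) (R := zR d) (k := d + 5)
      (by rw [zR_num, nn, nz]; ring) (a := zA d) (b := zB d) (c := zC d) rfl rfl rfl hAB hAC hBC) hAB hAC
      (hO (n1_e hd _ (ht_zA d) (pkn_zA d)))
    have e : n3 d = {cyc (zB d), cyc (zC d)} := by
      ext c
      constructor
      · rintro ⟨-, hc⟩; exact hc
      · intro hc; exact ⟨hp, hc⟩
    rw [e]
    refine h.mono ?_ (fun _ hx => hx)
    intro w hw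
    exact ⟨hp, hw⟩
  · have e : n3 d = ∅ := by
      ext c
      constructor
      · rintro ⟨h, -⟩; exact absurd h hp
      · intro h; exact absurd h (Set.notMem_empty _)
    rw [e]
    exact sys_empty _ _ _

/-- the new cycles of the second hop system -/
def n4 (d : ℕ) : Set (Cyc (d + 5)) :=
  {c | htc c = d + 2 ∧ pkc c = 4 ∧ ¬ (d % 2 = 1 ∧ c = cyc (zC d))}
/-- the words of the second hop system -/
def w4 (d : ℕ) : Set (X (d + 5)) :=
  {w | ∃ (f : ZMod (2 * (d + 1) + 1) → ℕ) (h : d + 1 + pkn (pwX (d + 1)).1 + (∑ z, f z + 1) = d + 5),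
    (w = wH (pwX (d + 1)) f h) ∨ (cyc w ∈ n4 d ∧ (w = wBb (pwX (d + 1)) f h ∨
      w = wF (pwX (d + 1)) f h))}

theorem top_cover (hd : 3 ≤ d) (w : X (d + 5)) (h : d + 3 ≤ ht w.1) :
    cyc w ∈ {cyc (pwX (d + 5))} ∪ n1 d ∪ n2 d ∪ n3 d := by
  rcases top_class d w h with h | h | ⟨h, h'⟩ | ⟨h, i, hi, hs⟩
  · exact Or.inl (Or.inl (Or.inl (by rw [h]; rfl)))
  · exact Or.inl (Or.inl (Or.inr (n1_a (by omega) w h)))
  · exact Or.inl (Or.inl (Or.inr (n1_b (by omega) w h h')))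
  · rcases Nat.eq_zero_or_pos i with h0 | h0
    · subst h0
      refine Or.inl (Or.inl (Or.inr ?_))
      rw [← cyc_eq.2 hs]
      exact n1_c d
    · by_cases h3 : d % 2 = 1 ∧ i = 3
      · refine Or.inr ⟨h3.1, Or.inl ?_⟩
        rw [← cyc_eq.2 hs, zB_eq, h3.2]
      · exact Or.inl (Or.inr ⟨i, h0, hi, h3, (cyc_eq.2 hs).symm⟩)

theorem sys4 (hd : 3 ≤ d) : HasSys ({cyc (pwX (d + 5))} ∪ n1 d ∪ n2 d ∪ n3 d) (n4 d) (w4 d) ∅ := by
  obtain ⟨ι, h1, h2, h3⟩ := near_prescribed (n := 2 * (d + 1) + 1) ⟨d + 1, rfl⟩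
    (one_dvd _) (show 1 ≤ 3 by norm_num) (show 3 ≠ 2 by norm_num)
    (Quotient.mk (msSetoid 3 (one_dvd (2 * (d + 1) + 1))) ⟨f3 d, f3_sum d⟩)
  have h := sys_efix (by omega) (pwX (d + 1)) (T_pwX _) (hk3 d) ι h1 h2
    ({cyc (pwX (d + 5))} ∪ n1 d ∪ n2 d ∪ n3 d) (by
      intro f hf _ _
      apply top_cover hd
      rw [ht_wH _ _ _ (by omega)]
      change d + 3 ≤ ht (pw (d + 1)) + 2
      rw [ht_pw])
  have hodd : Odd (Nat.card (Quotient (msSetoid 3 (one_dvd (2 * (d + 1) + 1))))) ↔ d % 2 = 1 := by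
    rw [odd_card3, Nat.odd_iff]
    omega
  have hC : cyc (zC d) = fc (by omega) (pwX (d + 1)) (T_pwX _) (hk3 d) (Quotient.mk _ ⟨f3 d, f3_sum d⟩) := by
    exact congrArg cyc (zC_eq d)
  have e : {c | ∃ q, ι q ≠ q ∧ fc (by omega) (pwX (d + 1)) (T_pwX _) (hk3 d) q = c} = n4 d := by
    ext c
    constructor
    · rintro ⟨q, hq, rfl⟩
      obtain ⟨x, rfl⟩ := Quotient.exists_rep q
      refine ⟨?_, ?_, ?_⟩
      · rw [fc_mk, htc_cyc, ht_fw _ _ _ (by omega)]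
        change ht (pw (d + 1)) + 1 = d + 2
        rw [ht_pw]
      · rw [fc_mk, pkc_cyc]
        unfold fw
        rw [pkn_phi]
        change pkn (pw (d + 1)) + ∑ z, x.1 z = 4
        rw [pkn_pw, x.2]
      · rintro ⟨a, b⟩
        rw [hC] at b
        apply hq
        rw [h3]
        exact ⟨fc_inj _ _ _ _ b, hodd.2 a⟩
    · rintro ⟨a, b, c'⟩
      obtain ⟨w, rfl⟩ := Quotient.exists_rep c
      change htc (cyc w) = d + 2 at a
      change pkc (cyc w) = 4 at b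
      rw [htc_cyc] at a
      rw [pkc_cyc] at b
      rcases class_m3 hd w a with ⟨h5, -⟩ | ⟨h5, -⟩ | ⟨h5, g, hk, hw, hg⟩
      · omega
      · omega
      · refine ⟨Quotient.mk _ ⟨g, hg⟩, ?_, ?_⟩
        · rw [Ne, h3, hodd]
          rintro ⟨e1, e2⟩
          apply c'
          refine ⟨e2, ?_⟩
          rw [hC, ← e1]
          exact congrArg cyc hw
        · exact (congrArg cyc hw).symm
  rw [e] at h
  refine h.mono ?_ (fun _ hx => hx)
  rintro w ⟨f, hf, a1, a2, a3, a4⟩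
  refine ⟨f, by rw [hf]; exact hk3 d, ?_⟩
  rcases a4 with a4 | a4 | a4
  · exact Or.inl a4
  · refine Or.inr ⟨?_, Or.inl a4⟩
    rw [← e, a4]
    exact ⟨qB f hf (-1), by rw [a2]; exact a3, (wB_cyc (by omega) _ (T_pwX _) (hk3 d) f hf).symm⟩
  · refine Or.inr ⟨?_, Or.inr a4⟩
    rw [← e, a4]
    exact ⟨qB f hf 0, by rw [a1]; exact a3.symm, (wF_cyc (by omega) _ (T_pwX _) (hk3 d) f hf).symm⟩

/-! ### Disjoint words -/

theorem yT_ht (u : X (d + 2)) (f : ZMod (2 * (d + 2) + 1) → ℕ) : ht (yT u f) = ht u.1 + 1 :=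
  ht_yT u f (by omega)

theorem n2_ht {c : Cyc (d + 5)} (hc : c ∈ n2 d) : htc c = d + 3 ∧ pkc c = 3 := by
  obtain ⟨i, h1, h2, h3, rfl⟩ := hc
  rw [htc_cyc, pkc_cyc, ht_c2w, pkn_c2w]
  exact ⟨rfl, rfl⟩

theorem pkn_zC (d : ℕ) : pkn (zC d).1 = 4 := by
  rw [zC_eq]
  unfold fw
  rw [pkn_phi]
  change pkn (pw (d + 1)) + ∑ x, f3 d x = 4
  rw [pkn_pw, f3_sum]

theorem n3_ht {c : Cyc (d + 5)} (hc : c ∈ n3 d) : (htc c = d + 3 ∧ pkc c = 3 ∧ c = cyc (c2w d 3)) ∨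
    (htc c = d + 2 ∧ pkc c = 4) := by
  obtain ⟨-, rfl | rfl⟩ := hc
  · left
    rw [htc_cyc, pkc_cyc, ht_zB, pkn_zB, zB_eq]
    exact ⟨rfl, rfl, rfl⟩
  · right
    rw [htc_cyc, pkc_cyc, ht_zC, pkn_zC]
    exact ⟨rfl, rfl⟩

theorem n1_ht (hd : 1 ≤ d) {c : Cyc (d + 5)} (hc : c ∈ n1 d) : (htc c = d + 4) ∨
    (htc c = d + 3 ∧ pkc c = 2) ∨ (htc c = d + 3 ∧ c = cyc (c2w d 0)) ∨
    (htc c = d + 2 ∧ pkc c ≤ 3) := by
  obtain ⟨i, h1, h2, rfl⟩ := hc
  rw [htc_cyc, pkc_cyc, h_iht hd, h_ipk hd]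
  interval_cases i <;> simp [i8]
  exact x8_3 d

theorem dis12 (hd : 1 ≤ d) : ∀ c ∈ n1 d, c ∉ n2 d := by
  intro c h1 h2
  obtain ⟨a, b⟩ := n2_ht h2
  rcases n1_ht hd h1 with h | ⟨h, h'⟩ | ⟨h, h'⟩ | ⟨h, h'⟩
  · omega
  · omega
  · obtain ⟨i, e1, e2, e3, e4⟩ := h2
    rw [e4] at h'
    exact c2w_ne e2 (by omega) (by omega) h'
  · omega

theorem dis3 (hd : 1 ≤ d) : ∀ c ∈ n1 d ∪ n2 d, c ∉ n3 d := by
  rintro c (h1 | h1) h2
  · rcases n3_ht h2 with ⟨a, b, e⟩ | ⟨a, b⟩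
    · rcases n1_ht hd h1 with h | ⟨h, h'⟩ | ⟨h, h'⟩ | ⟨h, h'⟩
      · omega
      · omega
      · rw [e] at h'
        exact c2w_n1 hd (i := 3) (by omega) (by omega) (by rw [h']; exact n1_c d)
      · omega
    · rcases n1_ht hd h1 with h | ⟨h, h'⟩ | ⟨h, h'⟩ | ⟨h, h'⟩ <;> omega
  · obtain ⟨a', b'⟩ := n2_ht h1
    rcases n3_ht h2 with ⟨a, b, e⟩ | ⟨a, b⟩
    · obtain ⟨i, e1, e2, e3, e4⟩ := h1
      rw [e] at e4
      obtain ⟨hp, -⟩ := h2
      exact e3 ⟨hp, by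
        by_contra h3
        exact c2w_ne (by omega) e2 (Ne.symm h3) e4⟩
    · omega

theorem dis4 (hd : 1 ≤ d) : ∀ c ∈ n1 d ∪ n2 d ∪ n3 d, c ∉ n4 d := by
  rintro c ((h1 | h1) | h1) ⟨a, b, e⟩
  · rcases n1_ht hd h1 with h | ⟨h, h'⟩ | ⟨h, h'⟩ | ⟨h, h'⟩ <;> omega
  · obtain ⟨a', b'⟩ := n2_ht h1
    omega
  · rcases n3_ht h1 with ⟨a', b', e'⟩ | ⟨a', b'⟩
    · omega
    · obtain ⟨hp, h | h⟩ := h1
      · rw [h, pkc_cyc, pkn_zB] at b'
        omega
      · exact e ⟨hp, h⟩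

/-! ### The words -/

theorem tY_zero' (d : ℕ) : tY (d + 2) 0 = .nil △ pw (d + 3) := by
  have h := congrArg Subtype.val (w6_eq d)
  rw [← eF_eq] at h
  change (.nil △ (.nil △ pw (d + 3)) : BinaryTree Unit) = .nil △ tY (d + 2) 0 at h
  injection h with _ _ h
  exact h.symm

theorem yT_ne {j : ℕ} (hj : 1 ≤ j) (u : X j) (f : ZMod (2 * j + 1) → ℕ) : yT u f ≠ .nil := by
  intro h
  have h1 := yT_num u f
  rw [h, nz] at h1
  omega

theorem pw_ne {n : ℕ} (h : 1 ≤ n) : pw n ≠ .nil := by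
  intro h0
  have h1 := pw_num n
  rw [h0, nz] at h1
  omega

theorem wB_prime {j k : ℕ} (hj : 1 ≤ j) (u : X j) (f : ZMod (2 * j + 1) → ℕ)
    (h : j + pkn u.1 + (∑ z, f z + 1) = k) (t : BinaryTree Unit) : (wBb u f h).1 ≠ t △ .nil := by
  intro he
  change app (yT u f) (.nil △ .nil) = t △ .nil at he
  cases hy : yT u f with
  | nil => exact yT_ne hj u f hy
  | node _ A B =>
    rw [hy] at he
    change A △ app B (.nil △ .nil) = t △ .nil at he
    injection he with _ _ h2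
    have h3 := congrArg BinaryTree.numNodes h2
    rw [num_app, nz, nn] at h3
    omega

theorem wF_prime {j k : ℕ} (hj : 1 ≤ j) (u : X j) (f : ZMod (2 * j + 1) → ℕ)
    (h : j + pkn u.1 + (∑ z, f z + 1) = k) (t : BinaryTree Unit) : (wF u f h).1 ≠ t △ .nil := by
  intro he
  change .nil △ yT u f = t △ .nil at he
  injection he with _ _ h2
  exact yT_ne hj u f h2

theorem ht_H2 (f : ZMod (2 * (d + 2) + 1) → ℕ)
    (h : d + 2 + pkn (pwX (d + 2)).1 + (∑ z, f z + 1) = d + 5) : ht (wH (pwX (d + 2)) f h).1 = d + 4 := by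
  rw [ht_wH _ _ _ (by omega)]
  change ht (pw (d + 2)) + 2 = d + 4
  rw [ht_pw]

theorem ht_H4 (f : ZMod (2 * (d + 1) + 1) → ℕ)
    (h : d + 1 + pkn (pwX (d + 1)).1 + (∑ z, f z + 1) = d + 5) : ht (wH (pwX (d + 1)) f h).1 = d + 3 := by
  rw [ht_wH _ _ _ (by omega)]
  change ht (pw (d + 1)) + 2 = d + 3
  rw [ht_pw]

theorem x8_n1 {i : ℕ} (h1 : 1 ≤ i) (h2 : i < 8) : cyc (x8 d i) ∈ n1 d := ⟨i, h1, h2, rfl⟩

theorem wd12 (hd : 1 ≤ d) : ∀ w, w ∈ {w | ∃ i < 8, w = x8 d i} → w ∉ w2 d := by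
  rintro w ⟨i, hi, rfl⟩ ⟨f, h, h0, h1 | ⟨h1, -⟩⟩
  · have e1 := ht_H2 f h
    rw [← h1, h_iht hd] at e1
    have e2 : t8 d i = yT (pwX (d + 2)) f △ .nil := congrArg Subtype.val h1
    interval_cases i
    · simp [i8] at e1
    · change pw (d + 3) △ (.nil △ .nil) = _ at e2
      injection e2 with _ _ e3
      simp at e3
    · change .nil △ (pw (d + 3) △ .nil) = _ at e2
      injection e2 with _ _ e3
      simp at e3
    · simp [i8] at e1
    · simp [i8] at e1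
    · simp [i8] at e1
    · simp [i8] at e1
    · change (.nil △ pw (d + 3)) △ .nil = _ at e2
      injection e2 with _ e3 _
      rw [← tY_zero'] at e3
      have e4 : yT (pwX (d + 2)) (fun x => if x = ((0 : ℕ) : ZMod (2 * (d + 2) + 1)) then 1 else 0) =
        yT (pwX (d + 2)) f := e3
      have e5 := yT_inj e4
      rw [← e5] at h0
      simp at h0
  · rcases Nat.eq_zero_or_pos i with h0 | h0
    · subst h0
      have := (n2_ht h1).1
      rw [htc_cyc, h_iht hd] at this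
      simp [i8] at this
    · exact dis12 hd _ (x8_n1 h0 hi) h1

theorem wd3 (hd : 1 ≤ d) : ∀ w, w ∈ {w | ∃ i < 8, w = x8 d i} ∪ w2 d → w ∉ w3 d := by
  rintro w (⟨i, hi, rfl⟩ | ⟨f, h, h0, h1⟩) ⟨hp, hz⟩
  · rcases hz with hz | hz | hz
    · have e1 := ht_zA d
      have e2 := pkn_zA d
      rw [← hz, h_iht hd] at e1
      rw [← hz, h_ipk hd] at e2
      have e3 : t8 d i = (.nil △ .nil) △ zR d := congrArg Subtype.val hz
      have : i = 4 := by
        interval_cases i <;> simp [i8] at e1 e2 ⊢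
      subst this
      change pw (d + 1) △ _ = _ at e3
      injection e3 with _ e4 _
      rw [pw_succ] at e4
      injection e4 with _ e5 _
      exact pw_ne hd e5
    · have e1 := ht_zB d
      have e2 := pkn_zB d
      rw [← hz, h_iht hd] at e1
      rw [← hz, h_ipk hd] at e2
      have e3 : t8 d i = .nil △ (zR d △ .nil) := congrArg Subtype.val hz
      have : i = 3 := by
        interval_cases i <;> simp [i8] at e1 e2 ⊢
      subst this
      change pw (d + 2) △ _ = _ at e3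
      injection e3 with _ e4 _
      exact pw_ne (by omega) e4
    · have e2 := pkn_zC d
      rw [← hz, h_ipk hd] at e2
      interval_cases i <;> simp [i8] at e2
  · rcases h1 with h1 | ⟨h1, -⟩
    · have e1 := ht_H2 f h
      rw [← h1] at e1
      rcases hz with hz | hz | hz
      · rw [hz, ht_zA] at e1; omega
      · rw [hz, ht_zB] at e1; omega
      · rw [hz, ht_zC] at e1; omega
    · rcases hz with hz | hz | hz
      · have := (n2_ht h1).1
        rw [hz, htc_cyc, ht_zA] at this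
        omega
      · exact dis3 hd _ (Or.inr h1) ⟨hp, Or.inl (by rw [hz])⟩
      · exact dis3 hd _ (Or.inr h1) ⟨hp, Or.inr (by rw [hz])⟩

theorem wd4 (hd : 1 ≤ d) : ∀ w, w ∈ {w | ∃ i < 8, w = x8 d i} ∪ w2 d ∪ w3 d → w ∉ w4 d := by
  rintro w h1 ⟨f, h, h2⟩
  rcases h2 with h2 | ⟨h2, -⟩
  · -- the word is prime, height `k-2`
    have e1 := ht_H4 f h
    rw [← h2] at e1
    have e0 : w.1 = yT (pwX (d + 1)) f △ .nil := congrArg Subtype.val h2
    rcases h1 with (⟨i, hi, rfl⟩ | ⟨g, hg, g0, h1⟩) | ⟨hp, hz⟩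
    · rw [h_iht hd] at e1
      interval_cases i
      · simp [i8] at e1
      · simp [i8] at e1
      · simp [i8] at e1
      · change pw (d + 2) △ (.nil △ (.nil △ .nil)) = _ at e0
        injection e0 with _ _ e3
        simp at e3
      · simp [i8] at e1
      · simp [i8] at e1
      · change (.nil △ .nil) △ pw (d + 3) = _ at e0
        injection e0 with _ _ e3
        exact pw_ne (by omega) e3
      · simp [i8] at e1
    · rcases h1 with h1 | ⟨h1, h1' | h1'⟩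
      · rw [h1, ht_H2] at e1
        omega
      · rw [h1'] at e0
        exact wB_prime (by omega) _ _ _ _ e0
      · rw [h1'] at e0
        exact wF_prime (by omega) _ _ _ _ e0
    · rcases hz with hz | hz | hz
      · rw [hz, ht_zA] at e1; omega
      · rw [hz] at e0
        change .nil △ (zR d △ .nil) = _ at e0
        injection e0 with _ _ e3
        simp at e3
      · rw [hz, ht_zC] at e1; omega
  · obtain ⟨a, b, e⟩ := h2
    rcases h1 with (⟨i, hi, rfl⟩ | ⟨g, hg, g0, h1⟩) | ⟨hp, hz⟩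
    · rcases Nat.eq_zero_or_pos i with h0 | h0
      · subst h0
        rw [htc_cyc, h_iht hd] at a
        simp [i8] at a
      · exact dis4 hd _ (Or.inl (Or.inl (x8_n1 h0 hi))) ⟨a, b, e⟩
    · rcases h1 with h1 | ⟨h1, -⟩
      · rw [h1, htc_cyc, ht_H2] at a
        omega
      · exact dis4 hd _ (Or.inl (Or.inr h1)) ⟨a, b, e⟩
    · rcases hz with hz | hz | hz
      · rw [hz, pkc_cyc, pkn_zA] at b
        omega
      · exact dis4 hd _ (Or.inr ⟨hp, Or.inl (by rw [hz])⟩) ⟨a, b, e⟩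
      · exact dis4 hd _ (Or.inr ⟨hp, Or.inr (by rw [hz])⟩) ⟨a, b, e⟩

/-- the words of the top -/
def topW8 (d : ℕ) : Set (X (d + 5)) := {w | ∃ i < 8, w = x8 d i} ∪ w2 d ∪ w3 d ∪ w4 d

/-- **THE TOP, heights `k .. k-3`** -/
theorem top8_sys (hd : 3 ≤ d) : HasSys {cyc (pwX (d + 5))}
    {c : Cyc (d + 5) | d + 2 ≤ htc c ∧ c ≠ cyc (pwX (d + 5))} (topW8 d) ∅ := by
  have s12 := sys_union (sys1 (by omega)) (sys2 hd) (dis12 (by omega)) (wd12 (by omega))
    (fun w _ => Set.notMem_empty w)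
  have s3 := sys3 hd (O := {cyc (pwX (d + 5))} ∪ (n1 d ∪ n2 d)) (fun c hc => Or.inr (Or.inl hc))
  have s123 := sys_union s12 s3 (dis3 (by omega)) (wd3 (by omega)) (fun w _ => Set.notMem_empty w)
  have s4 := sys4 hd
  have e1 : {cyc (pwX (d + 5))} ∪ n1 d ∪ n2 d ∪ n3 d = {cyc (pwX (d + 5))} ∪ (n1 d ∪ n2 d ∪ n3 d) := by
    rw [Set.union_assoc, Set.union_assoc, Set.union_assoc]
  rw [e1] at s4
  have s := sys_union s123 s4 (dis4 (by omega)) (wd4 (by omega)) (fun w _ => Set.notMem_empty w)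
  have eN : n1 d ∪ n2 d ∪ n3 d ∪ n4 d = {c : Cyc (d + 5) | d + 2 ≤ htc c ∧ c ≠ cyc (pwX (d + 5))} := by
    have e5 : htc (cyc (pwX (d + 5))) = d + 5 := by
      rw [htc_cyc]
      exact ht_pw (d + 5)
    ext c
    constructor
    · intro hc
      have key : d + 2 ≤ htc c ∧ htc c ≤ d + 4 := by
        rcases hc with ((hc | hc) | hc) | hc
        · rcases n1_ht (by omega) hc with h | ⟨h, h'⟩ | ⟨h, h'⟩ | ⟨h, h'⟩ <;> omega
        · obtain ⟨a, b⟩ := n2_ht hc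
          omega
        · rcases n3_ht hc with ⟨a, b, e⟩ | ⟨a, b⟩ <;> omega
        · obtain ⟨a, b, e⟩ := hc
          omega
      refine ⟨key.1, ?_⟩
      intro h
      rw [h, e5] at key
      omega
    · rintro ⟨h, h'⟩
      obtain ⟨w, rfl⟩ := Quotient.exists_rep c
      change d + 2 ≤ htc (cyc w) at h
      change cyc w ≠ _ at h'
      rw [htc_cyc] at h
      change cyc w ∈ _
      rcases Nat.lt_or_ge (d + 2) (ht w.1) with h1 | h1
      · rcases top_cover hd w (by omega) with ((h2 | h2) | h2) | h2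
        · exact absurd h2 h'
        · exact Or.inl (Or.inl (Or.inl h2))
        · exact Or.inl (Or.inl (Or.inr h2))
        · exact Or.inl (Or.inr h2)
      · have h2 : ht w.1 = d + 2 := by omega
        rcases class_m3 hd w h2 with ⟨h5, -⟩ | ⟨h5, -⟩ | ⟨h5, -⟩
        · exact Or.inl (Or.inl (Or.inl (n1_d hd w h2 h5)))
        · exact Or.inl (Or.inl (Or.inl (n1_e hd w h2 h5)))
        · by_cases h6 : d % 2 = 1 ∧ cyc w = cyc (zC d)
          · exact Or.inl (Or.inr ⟨h6.1, Or.inr h6.2⟩)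
          · refine Or.inr ⟨?_, ?_, h6⟩
            · rw [htc_cyc, h2]
            · rw [pkc_cyc, h5]
  rw [eN] at s
  refine s.mono (fun w hw => hw) ?_
  rintro w (((h | h) | h) | h) <;> exact h

end Pool.OddHC
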