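import Pool.Agent.Work.MP_8f87b2_top.TopT
import Pool.Agent.Work.MP_8f87b2_h35.Cert

/-!
MP_8f87b2_co: THE TOP GADGET of the directed road (`k = d + 5`): nine words of the block `[R;e,e,e,e]`,
`R = 1^(k-2) 0^(k-2)`, one legal 9-cycle, which makes one cycle of the T-cycles `(k)` (root), `(k-1,1)`, `(k-2,1,1)` with
distance 0 and 1, `(k-2,2)`.
-/

namespace Pool.OddHC

open Finset BinaryTree Equiv

/-! ### The words are different, the T-cycles are different -/

theorem inv3_same {k : ℕ} {x y : X k} (h : TT.SameCycle x y) : inv3 x.1 = inv3 y.1 := by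
  obtain ⟨n, hn⟩ := same_nat h
  rw [← hn]
  clear hn h
  induction n with
  | zero => rfl
  | succ n ih =>
    rw [pow_succ', Perm.mul_apply, TT_apply, inv3_TF]
    exact ih

theorem i3_H (d : ℕ) : inv3 (tH d) = (1, 1, false) := by
  unfold inv3 tH
  rw [red_pw, pkn_pw, pkn_pw]
  simp

theorem red_two (d : ℕ) (t : BinaryTree Unit) : red (pw (d + 2) △ t) =
    (pw (d + 1) △ (red t).1, 0 :: (List.replicate (2 * d + 3) 0 ++ (red t).2)) := by
  rw [red, red_pw, pw_succ (d + 1), redc, pw_succ d]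
  rfl

theorem i3_B1 (d : ℕ) : inv3 (tB1 d) = (2, 1, false) := by
  unfold inv3 tB1
  have h1 : pkn ((pw (d + 2) △ (.nil △ .nil)) △ .nil) = 2 := by
    change 0 + (leaf (pw (d + 2)) + pkn (pw (d + 2)) + 1) + 0 = 2
    rw [pkn_pw]
    rfl
  have h2 : red ((pw (d + 2) △ (.nil △ .nil)) △ .nil) =
      ((pw (d + 1) △ .nil) △ .nil,
        0 :: ((0 :: (List.replicate (2 * d + 3) 0 ++ [1])) ++ [0])) := by
    rw [red, red_two]
    rfl
  rw [h1, h2]
  simp only
  have h3 : pkn ((pw (d + 1) △ .nil) △ .nil) = 1 := pkn_pw (d + 2)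
  rw [h3]
  simp

theorem i3_C3 (d : ℕ) : inv3 (tC3 d) = (3, 1, true) := by
  unfold inv3 tC3
  have h1 : pkn (pw (d + 2) △ (.nil △ (.nil △ .nil))) = 3 := by
    change leaf (pw (d + 2)) + pkn (pw (d + 2)) + 2 = 3
    rw [pkn_pw]
    rfl
  rw [h1, red_two]
  have h3 : pkn (pw (d + 1) △ .nil) = 1 := pkn_pw (d + 1)
  have h4 : red (.nil △ (.nil △ .nil)) = (.nil, [2]) := rfl
  rw [h4]
  simp only
  rw [h3]
  simp

theorem i3_C2 (d : ℕ) : inv3 (tC2 d) = (3, 1, false) := by
  unfold inv3 tC2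
  have h1 : pkn (.nil △ (pw (d + 2) △ (.nil △ .nil))) = 3 := by
    change 1 + 0 + (leaf (pw (d + 2)) + pkn (pw (d + 2)) + 1) = 3
    rw [pkn_pw]
    rfl
  have h2 : red (.nil △ (pw (d + 2) △ (.nil △ .nil))) =
      (pw (d + 1) △ .nil, 1 :: (List.replicate (2 * d + 3) 0 ++ [1])) := by
    rw [red, red_two]
    rfl
  rw [h1, h2]
  simp only
  have h3 : pkn (pw (d + 1) △ .nil) = 1 := pkn_pw (d + 1)
  rw [h3]
  simp

theorem i3_D1 (d : ℕ) : inv3 (tD1 d) = (2, 2, false) := by
  unfold inv3 tD1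
  have h1 : pkn ((.nil △ .nil) △ pw (d + 3)) = 2 := by
    change 0 + 1 + pkn (pw (d + 3)) = 2
    rw [pkn_pw]
  have h2 : red ((.nil △ .nil) △ pw (d + 3)) =
      (.nil △ pw (d + 2), 0 :: ([0] ++ List.replicate (2 * (d + 1) + 3) 0)) := by
    rw [red, red_pw]
    rfl
  rw [h1, h2]
  simp only
  have h3 : pkn (.nil △ pw (d + 2)) = 2 := by
    change 1 + 0 + pkn (pw (d + 2)) = 2
    rw [pkn_pw]
  rw [h3]
  simp

theorem tt1 {k : ℕ} {x y : X k} (h : TF x = y) : TT.SameCycle x y :=
  nat_same 1 (by rw [pow_one, TT_apply, h])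

theorem s12 (d : ℕ) : TT.SameCycle (xW d 1) (xW d 2) := (tt1 (T_B1 d)).trans (tt1 (T_U1 d))
theorem s23 (d : ℕ) : TT.SameCycle (xW d 2) (xW d 3) := (tt1 (T_B2 d)).trans (tt1 (T_U2 d))
theorem s34 (d : ℕ) : TT.SameCycle (xW d 3) (xW d 4) := (tt1 (T_B3 d)).trans (tt1 (T_U3 d))
theorem s56 (d : ℕ) : TT.SameCycle (xW d 5) (xW d 6) := (tt1 (T_C3 d)).trans (tt1 (T_U4 d))

/-- the invariants of the nine words -/
def tI : ℕ → ℕ × ℕ × Bool
  | 0 => (1, 1, false)
  | 1 => (2, 1, false)
  | 2 => (2, 1, false)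
  | 3 => (2, 1, false)
  | 4 => (2, 1, false)
  | 5 => (3, 1, true)
  | 6 => (3, 1, true)
  | 7 => (3, 1, false)
  | _ => (2, 2, false)

theorem inv_W (d i : ℕ) : inv3 (xW d i).1 = tI i := by
  have e2 := inv3_same (s12 d)
  have e3 := inv3_same (s23 d)
  have e4 := inv3_same (s34 d)
  have e6 := inv3_same (s56 d)
  have e1 : inv3 (xW d 1).1 = (2, 1, false) := i3_B1 d
  have e5 : inv3 (xW d 5).1 = (3, 1, true) := i3_C3 d
  match i with
  | 0 => exact i3_H d
  | 1 => exact e1
  | 2 => exact e2.symm.trans e1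
  | 3 => exact e3.symm.trans (e2.symm.trans e1)
  | 4 => exact e4.symm.trans (e3.symm.trans (e2.symm.trans e1))
  | 5 => exact e5
  | 6 => exact e6.symm.trans e5
  | 7 => exact i3_C2 d
  | n + 8 => exact i3_D1 d

theorem xW_inj (d : ℕ) : ∀ i < 9, ∀ j < 9, xW d i = xW d j → i = j := by
  intro i hi j hj h
  have h1 : tI i = tI j := by rw [← inv_W d i, ← inv_W d j, h]
  have h2 : tW d i = tW d j := congrArg Subtype.val h
  interval_cases i <;> interval_cases j <;> first
    | rfl
    | (exfalso; revert h1; simp [tI]; done)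
    | (exfalso; revert h2
       simp [tW, tB1, tB2, tB3, tB4, tC3, tC1, pw, nest])

/-! ### The gadget -/

/-- THE TOP GADGET -/
noncomputable def topG (d : ℕ) : DG (d + 5) where
  B := (range 9).image (xW d)
  F := {w | ∃ i, 1 ≤ i ∧ i < 9 ∧ TT.SameCycle (xW d i) w}
  arcs := ∅

theorem mem_topB (d : ℕ) (x : X (d + 5)) : x ∈ (topG d).B ↔ ∃ i < 9, xW d i = x := by
  unfold topG
  simp

/-- first return and `FR` -/
theorem FR_ret {W : Type} [Fintype W] [DecidableEq W] (f : Perm W) (B : Finset W)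
    (u v : {w // w ∈ B}) : ret f B u = v ↔ FR f B u.1 v.1 := by
  constructor
  · rintro rfl
    have h := rN_spec f B u
    refine ⟨rN f B u - 1, ?_, ?_⟩
    · rw [Nat.sub_add_cancel h.1, ret_apply]
    · intro i hi
      exact rN_min f B u (by omega) (by omega)
  · rintro ⟨n, h1, h2⟩
    apply ret_eq f B u v (n := n + 1) (by omega) h1
    intro i hi1 hi2
    have h3 := h2 (i - 1) (by omega)
    rwa [Nat.sub_add_cancel hi1] at h3

theorem two_step {k : ℕ} {B : Finset (X k)} {x u y : X k} (h1 : TF x = u) (h2 : TF u = y)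
    (hu : u ∉ B) : FR TT B x y := by
  refine ⟨1, ?_, ?_⟩
  · rw [pow_succ, pow_one, Perm.mul_apply, TT_apply, TT_apply, h1, h2]
  · intro i hi
    obtain rfl : i = 0 := by omega
    rw [zero_add, pow_one, TT_apply, h1]
    exact hu

theorem U1_nB (d : ℕ) : mkx (tU1 d) (U1_num d) ∉ (topG d).B := by
  rw [mem_topB]
  rintro ⟨i, hi, h⟩
  have h1 := inv3_same (tt1 (T_B1 d))
  rw [← h, inv_W, inv_W] at h1
  have h2 : tW d i = tU1 d := congrArg Subtype.val h
  interval_cases i <;> first
    | (revert h1; simp [tI]; done)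
    | (revert h2; simp [tW, tB1, tB2, tB3, tB4, tU1, pw, nest]; done)

theorem U2_nB (d : ℕ) : mkx (tU2 d) (U2_num d) ∉ (topG d).B := by
  rw [mem_topB]
  rintro ⟨i, hi, h⟩
  have h1 := inv3_same (tt1 (T_B2 d))
  rw [← h, inv_W, inv_W] at h1
  have h2 : tW d i = tU2 d := congrArg Subtype.val h
  interval_cases i <;> first
    | (revert h1; simp [tI]; done)
    | (revert h2; simp [tW, tB1, tB2, tB3, tB4, tU2, pw, nest]; done)

theorem U3_nB (d : ℕ) : mkx (tU3 d) (U3_num d) ∉ (topG d).B := by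
  rw [mem_topB]
  rintro ⟨i, hi, h⟩
  have h1 := inv3_same (tt1 (T_B3 d))
  rw [← h, inv_W, inv_W] at h1
  have h2 : tW d i = tU3 d := congrArg Subtype.val h
  interval_cases i <;> first
    | (revert h1; simp [tI]; done)
    | (revert h2; simp [tW, tB1, tB2, tB3, tB4, tU3, pw, nest]; done)

theorem U4_nB (d : ℕ) : mkx (tU4 d) (U4_num d) ∉ (topG d).B := by
  rw [mem_topB]
  rintro ⟨i, hi, h⟩
  have h1 := inv3_same (tt1 (T_C3 d))
  rw [← h, inv_W, inv_W] at h1
  have h2 : tW d i = tU4 d := congrArg Subtype.val h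
  interval_cases i <;> first
    | (revert h1; simp [tI]; done)
    | (revert h2; simp [tW, tC3, tC1, tU4, pw, nest]; done)

/-- the words as elements of the set of the words -/
noncomputable def eW (d i : ℕ) (hi : i < 9) : {w // w ∈ (topG d).B} :=
  ⟨xW d i, (mem_topB d _).2 ⟨i, hi, rfl⟩⟩

theorem ret_W (d i : ℕ) (hi : i < 9) : ∃ j, ∃ hj : j < 9, ret TT (topG d).B (eW d i hi) = eW d j hj ∧
    tI j = tI i := by
  obtain ⟨v, hv⟩ : ∃ v, v = ret TT (topG d).B (eW d i hi) := ⟨_, rfl⟩
  obtain ⟨j, hj, h⟩ := (mem_topB d v.1).1 v.2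
  have h1 : eW d j hj = v := Subtype.ext h
  refine ⟨j, hj, by rw [← hv, h1], ?_⟩
  have h2 : TT.SameCycle (xW d i) v.1 := by
    rw [hv, ret_apply]
    exact nat_same _ rfl
  have h3 := inv3_same h2
  rw [← h, inv_W, inv_W] at h3
  exact h3.symm

theorem eW_inj (d i j : ℕ) (hi : i < 9) (hj : j < 9) (h : eW d i hi = eW d j hj) : i = j :=
  xW_inj d i hi j hj (congrArg Subtype.val h)

theorem fr12 (d : ℕ) : FR TT (topG d).B (xW d 1) (xW d 2) := two_step (T_B1 d) (T_U1 d) (U1_nB d)
theorem fr23 (d : ℕ) : FR TT (topG d).B (xW d 2) (xW d 3) := two_step (T_B2 d) (T_U2 d) (U2_nB d)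
theorem fr34 (d : ℕ) : FR TT (topG d).B (xW d 3) (xW d 4) := two_step (T_B3 d) (T_U3 d) (U3_nB d)
theorem fr56 (d : ℕ) : FR TT (topG d).B (xW d 5) (xW d 6) := two_step (T_C3 d) (T_U4 d) (U4_nB d)

theorem fr41 (d : ℕ) : FR TT (topG d).B (xW d 4) (xW d 1) := by
  have e1 := (FR_ret TT (topG d).B (eW d 1 (by omega)) (eW d 2 (by omega))).2 (fr12 d)
  have e2 := (FR_ret TT (topG d).B (eW d 2 (by omega)) (eW d 3 (by omega))).2 (fr23 d)
  have e3 := (FR_ret TT (topG d).B (eW d 3 (by omega)) (eW d 4 (by omega))).2 (fr34 d)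
  obtain ⟨j, hj, h1, h2⟩ := ret_W d 4 (by omega)
  have key : j = 1 := by
    interval_cases j <;> first
      | rfl
      | (exfalso; revert h2; simp [tI]; done)
      | (exfalso; have := eW_inj d _ _ _ _ ((ret TT (topG d).B).injective (h1.trans e1.symm)); omega)
      | (exfalso; have := eW_inj d _ _ _ _ ((ret TT (topG d).B).injective (h1.trans e2.symm)); omega)
      | (exfalso; have := eW_inj d _ _ _ _ ((ret TT (topG d).B).injective (h1.trans e3.symm)); omega)
  subst key
  exact (FR_ret TT (topG d).B _ _).1 h1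

theorem fr65 (d : ℕ) : FR TT (topG d).B (xW d 6) (xW d 5) := by
  have e1 := (FR_ret TT (topG d).B (eW d 5 (by omega)) (eW d 6 (by omega))).2 (fr56 d)
  obtain ⟨j, hj, h1, h2⟩ := ret_W d 6 (by omega)
  have key : j = 5 := by
    interval_cases j <;> first
      | rfl
      | (exfalso; revert h2; simp [tI]; done)
      | (exfalso; have := eW_inj d _ _ _ _ ((ret TT (topG d).B).injective (h1.trans e1.symm)); omega)
  subst key
  exact (FR_ret TT (topG d).B _ _).1 h1

theorem fr77 (d : ℕ) : FR TT (topG d).B (xW d 7) (xW d 7) := by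
  obtain ⟨j, hj, h1, h2⟩ := ret_W d 7 (by omega)
  have key : j = 7 := by
    interval_cases j <;> first
      | rfl
      | (exfalso; revert h2; simp [tI]; done)
  subst key
  exact (FR_ret TT (topG d).B _ _).1 h1

theorem fr88 (d : ℕ) : FR TT (topG d).B (xW d 8) (xW d 8) := by
  obtain ⟨j, hj, h1, h2⟩ := ret_W d 8 (by omega)
  have key : j = 8 := by
    interval_cases j <;> first
      | rfl
      | (exfalso; revert h2; simp [tI]; done)
  subst key
  exact (FR_ret TT (topG d).B _ _).1 h1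

/-! ### The frame -/

/-- letters before the star -/
def tA : ℕ → List Bool
  | 0 => [false, false]
  | 1 => [true, false, false]
  | 2 => [false, true, false]
  | 3 => [false]
  | 4 => [false]
  | 5 => [true, false, true, false]
  | 6 => []
  | 7 => [true, false]
  | _ => []

/-- letters behind the star, before `R` -/
def tL : ℕ → List Bool
  | 0 => [true, true]
  | 1 => [true]
  | 2 => [true]
  | 3 => [true, false, true]
  | 4 => [true, true, false]
  | 5 => []
  | 6 => [true, false, true, false]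
  | 7 => [true, false]
  | _ => [true, true, false, false]

theorem frW (d i : ℕ) (hi : i < 9) : wd (xW d i).1 = (tL i ++ wd (pw (d + 3))) ++ tA i := by
  interval_cases i <;>
  simp only [xW, tW, tH, tB1, tB2, tB3, tB4, tC3, tC1, tC2, tD1, tL, tA, wd_node, wd, wd_pw,
    List.replicate_succ, rep_comm', List.cons_append, List.append_assoc, List.nil_append,
    List.append_nil]

theorem topG_abs (d : ℕ) : (topG d).Abs := by
  refine Abs.cert_abs (topG d) (xW d) (fun i => ((tA i).length : ZMod (2 * (d + 5) + 1)))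
    35184372088831 510 9042182409280 0 1 8 [2, 32, 8, 1, 128, 256, 4, 64, 16] [4606628203681]
    ?_ ?_ ?_ ?_ ?_ ?_ ?_ ?_ ?_ ?_ ?_ ?_
  · intro x
    exact mem_topB d x
  · exact xW_inj d
  · intro i hi
    change i < 9 at hi
    have hH : xW d 0 ∉ (topG d).F := by
      rintro ⟨j, h1, h2, h3⟩
      have h4 := inv3_same h3
      rw [inv_W, inv_W] at h4
      interval_cases j <;> simp [tI] at h4
    rcases Nat.eq_zero_or_pos i with h0 | hp
    · subst h0
      constructor
      · intro h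
        exact absurd h hH
      · intro h
        exact absurd h (by decide)
    · constructor
      · intro _
        interval_cases i <;> decide
      · intro _
        exact ⟨i, hp, hi, Perm.SameCycle.refl _ _⟩
  · intro i hi
    by_contra h
    change ¬ i < 9 at h
    rw [Abs.bit_eq, Nat.testBit_eq_false_of_lt] at hi
    · exact absurd hi (by decide)
    · calc 510 < 2 ^ 9 := by norm_num
        _ ≤ 2 ^ i := Nat.pow_le_pow_right (by norm_num) (by omega)
  · rintro x y h ⟨i, h1, h2, h3⟩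
    exact ⟨i, h1, h2, h3.trans h⟩
  · intro i hi hd
    exfalso
    change i < 9 at hi
    change _ < 9 at hd
    interval_cases i <;> revert hd <;> decide
  · intro i hi
    have hlt : i < 9 := by
      by_contra h
      rw [Abs.bit_eq, Nat.testBit_eq_false_of_lt] at hi
      · exact absurd hi (by decide)
      · calc 510 < 2 ^ 9 := by norm_num
          _ ≤ 2 ^ i := Nat.pow_le_pow_right (by norm_num) (by omega)
    interval_cases i
    · exact absurd hi (by decide)
    · exact ⟨by decide, fr12 d⟩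
    · exact ⟨by decide, fr23 d⟩
    · exact ⟨by decide, fr34 d⟩
    · exact ⟨by decide, fr41 d⟩
    · exact ⟨by decide, fr56 d⟩
    · exact ⟨by decide, fr65 d⟩
    · exact ⟨by decide, fr77 d⟩
    · exact ⟨by decide, fr88 d⟩
  · intro i hi j hj hb
    change i < 9 at hi
    change j < 9 at hj
    have key : leL (tA i ++ false :: tL i) (tA j ++ true :: tL j) →
        io (xW d i) ((tA i).length : ZMod (2 * (d + 5) + 1)) ⊆
        insert ((tA j).length : ZMod (2 * (d + 5) + 1))
          (io (xW d j) ((tA j).length : ZMod (2 * (d + 5) + 1))) := by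
      intro h
      apply frame_le (frW d i hi) (frW d j hj)
      have h1 := leL_app h (leL_refl (wd (pw (d + 3))))
      simpa using h1
    apply key
    interval_cases i <;> interval_cases j <;> first
      | exact absurd hb (by decide)
      | (simp [tA, tL, leL])
  · decide
  · decide
  · decide
  · decide

end Pool.OddHC
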