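import Pool.Agent.Work.MP_8f87b2_top.TopGad

/-!
MP_8f87b2_co: THE TOP GADGET for odd `k` (`k = d + 5`): six words of the block `[R;e,e,e,e]`, `R = 1^(k-2) 0^(k-2)`, one
legal 6-cycle, which makes one cycle of the T-cycles `(k)` (root), `(k-1,1)`, `(k-2,1,1)` with distance 0, `(k-2,2)`.
-/

namespace Pool.OddHC

open Finset BinaryTree Equiv

/-- the numbers of the six words `H B2 B3 B4 C3 D1` in `xW` -/
def m6 : ℕ → ℕ
  | 0 => 0
  | 1 => 2
  | 2 => 3
  | 3 => 4
  | 4 => 5
  | _ => 8

theorem m6_lt {i : ℕ} (hi : i < 6) : m6 i < 9 := by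
  interval_cases i <;> decide

theorem m6_inj : ∀ i < 6, ∀ j < 6, m6 i = m6 j → i = j := by decide

/-- the six words -/
def xV (d i : ℕ) : X (d + 5) := xW d (m6 i)

/-- THE TOP GADGET, odd `k` -/
noncomputable def top6 (d : ℕ) : DG (d + 5) where
  B := (range 6).image (xV d)
  F := {w | ∃ i, 1 ≤ i ∧ i < 6 ∧ TT.SameCycle (xV d i) w}
  arcs := ∅

theorem mem_top6 (d : ℕ) (x : X (d + 5)) : x ∈ (top6 d).B ↔ ∃ i < 6, xV d i = x := by
  unfold top6
  simp

theorem xV_inj (d : ℕ) : ∀ i < 6, ∀ j < 6, xV d i = xV d j → i = j := by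
  intro i hi j hj h
  exact m6_inj i hi j hj (xW_inj d _ (m6_lt hi) _ (m6_lt hj) h)

theorem top6_sub (d : ℕ) {x : X (d + 5)} (h : x ∈ (top6 d).B) : x ∈ (topG d).B := by
  obtain ⟨i, hi, rfl⟩ := (mem_top6 d x).1 h
  exact (mem_topB d _).2 ⟨m6 i, m6_lt hi, rfl⟩

/-- the words as elements of the set of the words -/
noncomputable def eV (d i : ℕ) (hi : i < 6) : {w // w ∈ (top6 d).B} :=
  ⟨xV d i, (mem_top6 d _).2 ⟨i, hi, rfl⟩⟩

theorem ret_V (d i : ℕ) (hi : i < 6) : ∃ j, ∃ hj : j < 6, ret TT (top6 d).B (eV d i hi) = eV d j hj ∧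
    tI (m6 j) = tI (m6 i) := by
  obtain ⟨v, hv⟩ : ∃ v, v = ret TT (top6 d).B (eV d i hi) := ⟨_, rfl⟩
  obtain ⟨j, hj, h⟩ := (mem_top6 d v.1).1 v.2
  have h1 : eV d j hj = v := Subtype.ext h
  refine ⟨j, hj, by rw [← hv, h1], ?_⟩
  have h2 : TT.SameCycle (xV d i) v.1 := by
    rw [hv, ret_apply]
    exact nat_same _ rfl
  have h3 := inv3_same h2
  rw [← h] at h3
  unfold xV at h3
  rw [inv_W, inv_W] at h3
  exact h3.symm

theorem eV_inj (d i j : ℕ) (hi : i < 6) (hj : j < 6) (h : eV d i hi = eV d j hj) : i = j :=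
  xV_inj d i hi j hj (congrArg Subtype.val h)

theorem gr12 (d : ℕ) : FR TT (top6 d).B (xV d 1) (xV d 2) :=
  two_step (T_B2 d) (T_U2 d) (fun h => U2_nB d (top6_sub d h))
theorem gr23 (d : ℕ) : FR TT (top6 d).B (xV d 2) (xV d 3) :=
  two_step (T_B3 d) (T_U3 d) (fun h => U3_nB d (top6_sub d h))

theorem gr31 (d : ℕ) : FR TT (top6 d).B (xV d 3) (xV d 1) := by
  have e1 := (FR_ret TT (top6 d).B (eV d 1 (by omega)) (eV d 2 (by omega))).2 (gr12 d)
  have e2 := (FR_ret TT (top6 d).B (eV d 2 (by omega)) (eV d 3 (by omega))).2 (gr23 d)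
  obtain ⟨j, hj, h1, h2⟩ := ret_V d 3 (by omega)
  have key : j = 1 := by
    interval_cases j <;> first
      | rfl
      | (exfalso; revert h2; simp [tI, m6]; done)
      | (exfalso; have := eV_inj d _ _ _ _ ((ret TT (top6 d).B).injective (h1.trans e1.symm)); omega)
      | (exfalso; have := eV_inj d _ _ _ _ ((ret TT (top6 d).B).injective (h1.trans e2.symm)); omega)
  subst key
  exact (FR_ret TT (top6 d).B _ _).1 h1

theorem gr44 (d : ℕ) : FR TT (top6 d).B (xV d 4) (xV d 4) := by
  obtain ⟨j, hj, h1, h2⟩ := ret_V d 4 (by omega)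
  have key : j = 4 := by
    interval_cases j <;> first
      | rfl
      | (exfalso; revert h2; simp [tI, m6]; done)
  subst key
  exact (FR_ret TT (top6 d).B _ _).1 h1

theorem gr55 (d : ℕ) : FR TT (top6 d).B (xV d 5) (xV d 5) := by
  obtain ⟨j, hj, h1, h2⟩ := ret_V d 5 (by omega)
  have key : j = 5 := by
    interval_cases j <;> first
      | rfl
      | (exfalso; revert h2; simp [tI, m6]; done)
  subst key
  exact (FR_ret TT (top6 d).B _ _).1 h1

theorem top6_abs (d : ℕ) : (top6 d).Abs := by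
  refine Abs.cert_abs (top6 d) (xV d)
    (fun i => ((tA (m6 i)).length : ZMod (2 * (d + 5) + 1)))
    1073741823 62 172002368 0 1 5 [2, 4, 16, 1, 32, 8] [105910337]
    ?_ ?_ ?_ ?_ ?_ ?_ ?_ ?_ ?_ ?_ ?_ ?_
  · intro x
    exact mem_top6 d x
  · exact xV_inj d
  · intro i hi
    change i < 6 at hi
    have hH : xV d 0 ∉ (top6 d).F := by
      rintro ⟨j, h1, h2, h3⟩
      have h4 := inv3_same h3
      unfold xV at h4
      rw [inv_W, inv_W] at h4
      interval_cases j <;> simp [tI, m6] at h4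
    rcases Nat.eq_zero_or_pos i with h0 | hp
    · subst h0
      constructor
      · intro h
        exact absurd h hH
      · intro h
        exact absurd h (by decide)
    · constructor
      · intro _
        interval_cases i <;> decide
      · intro _
        exact ⟨i, hp, hi, Perm.SameCycle.refl _ _⟩
  · intro i hi
    by_contra h
    change ¬ i < 6 at h
    rw [Abs.bit_eq, Nat.testBit_eq_false_of_lt] at hi
    · exact absurd hi (by decide)
    · calc 62 < 2 ^ 6 := by norm_num
        _ ≤ 2 ^ i := Nat.pow_le_pow_right (by norm_num) (by omega)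
  · rintro x y h ⟨i, h1, h2, h3⟩
    exact ⟨i, h1, h2, h3.trans h⟩
  · intro i hi hd
    exfalso
    change i < 6 at hi
    change _ < 6 at hd
    interval_cases i <;> revert hd <;> decide
  · intro i hi
    have hlt : i < 6 := by
      by_contra h
      rw [Abs.bit_eq, Nat.testBit_eq_false_of_lt] at hi
      · exact absurd hi (by decide)
      · calc 62 < 2 ^ 6 := by norm_num
          _ ≤ 2 ^ i := Nat.pow_le_pow_right (by norm_num) (by omega)
    interval_cases i
    · exact absurd hi (by decide)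
    · exact ⟨by decide, gr12 d⟩
    · exact ⟨by decide, gr23 d⟩
    · exact ⟨by decide, gr31 d⟩
    · exact ⟨by decide, gr44 d⟩
    · exact ⟨by decide, gr55 d⟩
  · intro i hi j hj hb
    change i < 6 at hi
    change j < 6 at hj
    have key : leL (tA (m6 i) ++ false :: tL (m6 i)) (tA (m6 j) ++ true :: tL (m6 j)) →
        io (xV d i) ((tA (m6 i)).length : ZMod (2 * (d + 5) + 1)) ⊆
        insert ((tA (m6 j)).length : ZMod (2 * (d + 5) + 1))
          (io (xV d j) ((tA (m6 j)).length : ZMod (2 * (d + 5) + 1))) := by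
      intro h
      apply frame_le (frW d _ (m6_lt hi)) (frW d _ (m6_lt hj))
      have h1 := leL_app h (leL_refl (wd (pw (d + 3))))
      simpa using h1
    apply key
    interval_cases i <;> interval_cases j <;> first
      | exact absurd hb (by decide)
      | (simp [tA, tL, leL, m6])
  · decide
  · decide
  · decide
  · decide

end Pool.OddHC
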