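import Pool.Agent.Work.MP_8f87b2_top.TopTwo
import Pool.Agent.Work.MP_8f87b2_und.Eng

/-!
MP_8f87b2_co, top of the directed road: THE TOP SYSTEM. Heights `k`, `k-1`, `k-2` are closed in themselves: the top
gadget (nine words for even `k`, six words for odd `k`) and one plain hop triple `{(Y), Y(), ()Y}` for every further pair
of distances `c, c+1`, `Y` = nested word with one bead in the hole `c` or in the mirror hole.
-/

set_option autoImplicit false

namespace Pool.OddHC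

open Finset BinaryTree

/-! ### The words of the block as words with beads -/

theorem lf_zero0 (n : ℕ) : lf (fun _ : ZMod n => 0) = List.replicate n 0 := by
  unfold lf
  rw [List.map_const', List.length_range]

theorem ins_pw0 (q : ℕ) : ins (pw (q + 1)) (lf (fun _ : ZMod (2 * (q + 1) + 1) => 0)) = pw (q + 2) := by
  have h := ins_red (pw (q + 2))
  rw [red_pw] at h
  rw [lf_zero0]
  exact h

theorem bd_comm0 {n : ℕ} (h : ℕ) : (bd h : ZMod n → ℕ) =
    fun x => (if x = (h : ZMod n) then 1 else 0) + if x = 0 then 1 else 0 := by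
  funext x
  unfold bd
  rw [add_comm]

/-- nested word of size `j` with one bead in the hole `h` -/
def tY (j : ℕ) (h : ℕ) : BinaryTree Unit :=
  ins (pw j) (lf (fun x : ZMod (2 * j + 1) => if x = (h : ZMod (2 * j + 1)) then 1 else 0))

theorem tY_num (d h : ℕ) : (tY (d + 2) h).numNodes = d + 4 := by
  unfold tY
  rw [(ins_num _ _ (by rw [lf_length, pw_num])).1, pw_num, pkn_pw, lf_sum, one_bead_sum]

/-- `(Y)` -/
def eP (d h : ℕ) : X (d + 5) :=
  ⟨tY (d + 2) h △ .nil, mem_treesOfNumNodesEq.2 (by rw [nn, tY_num, nz])⟩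
/-- `()Y` -/
def eF (d h : ℕ) : X (d + 5) :=
  ⟨.nil △ tY (d + 2) h, mem_treesOfNumNodesEq.2 (by rw [nn, tY_num, nz]; ring)⟩
/-- `Y()` -/
def eB (d h : ℕ) : X (d + 5) :=
  ⟨app (tY (d + 2) h) (.nil △ .nil), mem_treesOfNumNodesEq.2 (by rw [num_app, tY_num]; rfl)⟩

theorem eF_eq (d h : ℕ) : eF d h = c2w d h := by
  apply Subtype.ext
  change .nil △ tY (d + 2) h = ins (pw (d + 2)) (lf (bd h))
  rw [bd_comm0]
  exact (ins_front (pwX (d + 2)) (fun x => if x = (h : ZMod (2 * (d + 2) + 1)) then 1 else 0)).symm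

theorem neg_sum {d h : ℕ} : d + 2 + pkn (pwX (d + 2)).1 +
    ∑ x : ZMod (2 * (d + 2) + 1), ((if x = (h : ZMod (2 * (d + 2) + 1)) then 1 else 0) +
      if x = -1 then 1 else 0) = d + 5 := by
  rw [sum_add_distrib, one_bead_sum, one_bead_sum]
  change d + 2 + pkn (pw (d + 2)) + (1 + 1) = d + 5
  rw [pkn_pw]

theorem eB_eq (d h : ℕ) : eB d h = phi (pwX (d + 2))
    (fun x => (if x = (h : ZMod (2 * (d + 2) + 1)) then 1 else 0) + if x = -1 then 1 else 0)
    neg_sum := by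
  apply Subtype.ext
  exact (ins_back (pwX (d + 2)) (fun x => if x = (h : ZMod (2 * (d + 2) + 1)) then 1 else 0)).symm

/-- `Y()`: distance `h + 1` -/
theorem eB_same (d h : ℕ) : (TT : Equiv.Perm (X (d + 5))).SameCycle (c2w d (h + 1)) (eB d h) := by
  rw [eB_eq]
  unfold c2w
  rw [same_fix (by omega) _ (T_pwX _)]
  refine ⟨1, funext fun x => ?_⟩
  unfold bd
  have e1 : x + 1 = 0 ↔ x = -1 := by
    constructor
    · intro h; linear_combination h
    · rintro rfl; ring
  have e2 : x + 1 = ((h + 1 : ℕ) : ZMod (2 * (d + 2) + 1)) ↔ x = (h : ZMod (2 * (d + 2) + 1)) := by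
    push_cast
    exact add_left_inj 1
  simp only [e1, e2]
  rw [add_comm]

/-- mirror distances -/
theorem c2w_mir (d h : ℕ) (hh : h ≤ 2 * (d + 2) + 1) :
    (TT : Equiv.Perm (X (d + 5))).SameCycle (c2w d (2 * (d + 2) + 1 - h)) (c2w d h) := by
  unfold c2w
  rw [same_fix (by omega) _ (T_pwX _)]
  have h0 : ((2 * (d + 2) + 1 - h : ℕ) : ZMod (2 * (d + 2) + 1)) = -(h : ZMod (2 * (d + 2) + 1)) := by
    rw [Nat.cast_sub hh, ZMod.natCast_self, zero_sub]
  refine ⟨-(h : ZMod (2 * (d + 2) + 1)), funext fun x => ?_⟩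
  unfold bd
  rw [h0]
  have e1 : x + -(h : ZMod (2 * (d + 2) + 1)) = 0 ↔ x = h := by
    constructor
    · intro h; linear_combination h
    · rintro rfl; ring
  have e2 : x + -(h : ZMod (2 * (d + 2) + 1)) = -(h : ZMod (2 * (d + 2) + 1)) ↔ x = 0 := by
    constructor
    · intro h; linear_combination h
    · rintro rfl; ring
  simp only [e1, e2]
  rw [add_comm]

theorem w6_eq (d : ℕ) : xW d 6 = c2w d 0 := by
  rw [← eF_eq]
  apply Subtype.ext
  change (.nil △ (.nil △ pw (d + 3)) : BinaryTree Unit) = .nil △ tY (d + 2) 0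
  congr 1
  have h := ins_front (pwX (d + 2)) (fun _ => 0)
  rw [show ins (pwX (d + 2)).1 (lf (fun _ => 0)) = pw (d + 3) from ins_pw0 (d + 1)] at h
  rw [← h]
  unfold tY
  simp only [zero_add, Nat.cast_zero]
  rfl

theorem w7_eq (d : ℕ) : xW d 7 = eF d (2 * (d + 2)) := by
  apply Subtype.ext
  change (.nil △ (pw (d + 2) △ (.nil △ .nil)) : BinaryTree Unit) = .nil △ tY (d + 2) (2 * (d + 2))
  congr 1
  have h := ins_back (pwX (d + 2)) (fun _ => 0)
  rw [show ins (pwX (d + 2)).1 (lf (fun _ => 0)) = pw (d + 3) from ins_pw0 (d + 1)] at h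
  unfold tY
  have h0 : ((2 * (d + 2) : ℕ) : ZMod (2 * (d + 2) + 1)) = -1 := by
    have h1 : ((2 * (d + 2) + 1 : ℕ) : ZMod (2 * (d + 2) + 1)) = 0 := ZMod.natCast_self _
    push_cast at h1 ⊢
    linear_combination h1
  rw [h0]
  simp only [zero_add] at h
  change _ = ins (pwX (d + 2)).1 _
  rw [h]
  rfl

theorem w7_same (d : ℕ) : (TT : Equiv.Perm (X (d + 5))).SameCycle (xW d 7) (c2w d 1) := by
  rw [w7_eq, eF_eq]
  exact c2w_mir d 1 (by omega)

theorem ht_pw (n : ℕ) : ht (pw n) = n := by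
  induction n with
  | zero => rfl
  | succ n ih =>
    rw [pw_succ, ht, ih]
    change max (n + 1) 0 = n + 1
    omega

theorem ht_W1 (d : ℕ) : ht (xW d 1).1 = d + 4 := by
  change max (max (ht (pw (d + 2)) + 1) 1 + 1) 0 = d + 4
  rw [ht_pw]
  omega

theorem ht_W8 (d : ℕ) : ht (xW d 8).1 = d + 3 ∧ pkn (xW d 8).1 = 2 := by
  constructor
  · change max (max (0 + 1) 0 + 1) (ht (pw (d + 3))) = d + 3
    rw [ht_pw]
    omega
  · change 0 + (1 + 0 + 0) + pkn (pw (d + 3)) = 2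
    rw [pkn_pw]

theorem ht_c2w (d h : ℕ) : ht (c2w d h).1 = d + 3 := by
  rw [← eF_eq]
  change max (0 + 1) (ht (tY (d + 2) h)) = d + 3
  unfold tY
  rw [ht_ins _ _ (by rw [lf_length, pw_num]) (by rw [pw_succ]; simp), ht_pw]
  omega

theorem pkn_c2w (d h : ℕ) : pkn (c2w d h).1 = 3 := by
  change pkn (ins (pw (d + 2)) (lf (bd h))) = 3
  rw [(ins_num _ _ (by rw [lf_length, pw_num])).2, pkn_pw, lf_sum, bd_sum]

theorem ht_tY (d h : ℕ) : ht (tY (d + 2) h) = d + 3 := by
  unfold tY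
  rw [ht_ins _ _ (by rw [lf_length, pw_num]) (by rw [pw_succ]; simp), ht_pw]

theorem ht_eP (d h : ℕ) : ht (eP d h).1 = d + 4 := by
  change max (ht (tY (d + 2) h) + 1) 0 = d + 4
  rw [ht_tY]
  omega

end Pool.OddHC
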