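import Pool.Agent.Work.MP_8f87b2_top.TopWords

/-!
MP_8f87b2_co, top of the directed road: the nine words of the top gadget (`k = d + 5`) and their images under `T`.
-/

namespace Pool.OddHC

open Finset BinaryTree

/-- `((R))` -/
def tH (d : ℕ) : BinaryTree Unit := pw (d + 5)
/-- `(R())` -/
def tB1 (d : ℕ) : BinaryTree Unit := (pw (d + 2) △ (.nil △ .nil)) △ .nil
/-- `(R)()` -/
def tB2 (d : ℕ) : BinaryTree Unit := pw (d + 3) △ (.nil △ .nil)
/-- `()(R)` -/
def tB3 (d : ℕ) : BinaryTree Unit := .nil △ (pw (d + 3) △ .nil)
/-- `(()R)` -/
def tB4 (d : ℕ) : BinaryTree Unit := (.nil △ pw (d + 3)) △ .nil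
/-- `R()()` -/
def tC3 (d : ℕ) : BinaryTree Unit := pw (d + 2) △ (.nil △ (.nil △ .nil))
/-- `()()R` -/
def tC1 (d : ℕ) : BinaryTree Unit := .nil △ (.nil △ pw (d + 3))
/-- `()R()` -/
def tC2 (d : ℕ) : BinaryTree Unit := .nil △ (pw (d + 2) △ (.nil △ .nil))
/-- `(())R` -/
def tD1 (d : ℕ) : BinaryTree Unit := (.nil △ .nil) △ pw (d + 3)

def tU1 (d : ℕ) : BinaryTree Unit := nest (d + 2) (.nil △ ((.nil △ .nil) △ .nil))
def tU2 (d : ℕ) : BinaryTree Unit := nest (d + 3) (.nil △ (.nil △ .nil))
def tU3 (d : ℕ) : BinaryTree Unit := nest (d + 2) ((.nil △ .nil) △ (.nil △ .nil))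
def tU4 (d : ℕ) : BinaryTree Unit := nest (d + 2) (.nil △ (.nil △ (.nil △ .nil)))

theorem nn (A B : BinaryTree Unit) : (A △ B).numNodes = A.numNodes + B.numNodes + 1 := rfl

theorem nz : (BinaryTree.nil : BinaryTree Unit).numNodes = 0 := rfl

/-- the words by number: `H B1 B2 B3 B4 C3 C1 C2 D1` -/
def tW (d : ℕ) : ℕ → BinaryTree Unit
  | 0 => tH d
  | 1 => tB1 d
  | 2 => tB2 d
  | 3 => tB3 d
  | 4 => tB4 d
  | 5 => tC3 d
  | 6 => tC1 d
  | 7 => tC2 d
  | _ => tD1 d

theorem tW_num (d i : ℕ) : (tW d i).numNodes = d + 5 := by
  match i with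
  | 0 => simp only [tW, tH, pw_num]
  | 1 => simp only [tW, tB1, nn, nz, pw_num]
  | 2 => simp only [tW, tB2, nn, nz, pw_num]
  | 3 => simp only [tW, tB3, nn, nz, pw_num]; omega
  | 4 => simp only [tW, tB4, nn, nz, pw_num]; omega
  | 5 => simp only [tW, tC3, nn, nz, pw_num]
  | 6 => simp only [tW, tC1, nn, nz, pw_num]; omega
  | 7 => simp only [tW, tC2, nn, nz, pw_num]; omega
  | n + 8 => simp only [tW, tD1, nn, nz, pw_num]; omega

/-- the words as elements of `X (d + 5)` -/
def xW (d i : ℕ) : X (d + 5) := ⟨tW d i, mem_treesOfNumNodesEq.2 (tW_num d i)⟩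

/-- an element of `X (d + 5)` from a tree -/
def mkx {k : ℕ} (t : BinaryTree Unit) (h : t.numNodes = k) : X k := ⟨t, mem_treesOfNumNodesEq.2 h⟩

theorem U1_num (d : ℕ) : (tU1 d).numNodes = d + 5 := by simp only [tU1, nest_num, nn, nz]
theorem U2_num (d : ℕ) : (tU2 d).numNodes = d + 5 := by simp only [tU2, nest_num, nn, nz]
theorem U3_num (d : ℕ) : (tU3 d).numNodes = d + 5 := by simp only [tU3, nest_num, nn, nz]
theorem U4_num (d : ℕ) : (tU4 d).numNodes = d + 5 := by simp only [tU4, nest_num, nn, nz]

theorem rep_comm' (b : Bool) (n : ℕ) (l : List Bool) :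
    List.replicate n b ++ b :: l = b :: (List.replicate n b ++ l) := (rep_comm b n l).symm

theorem T_H (d : ℕ) : TF (xW d 0) = xW d 0 := by
  refine (TF_step (List.replicate (d + 4) true) (List.replicate (d + 5) false) ?_ ?_).1
  · simp only [xW, tW, tH, wd_pw, List.replicate_succ, rep_comm', List.cons_append]
  · simp only [xW, tW, tH, wd_pw, List.replicate_succ, rep_comm', List.cons_append,
      List.map_cons, List.map_replicate, Bool.not_true, Bool.not_false]

theorem T_B1 (d : ℕ) : TF (xW d 1) = mkx (tU1 d) (U1_num d) := by
  refine (TF_step (List.replicate (d + 3) true)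
    (List.replicate (d + 3) false ++ [true, false, false]) ?_ ?_).1
  · simp only [xW, tW, tB1, wd_node, wd, wd_pw, List.replicate_succ, rep_comm', List.cons_append,
      List.append_assoc, List.nil_append, List.append_nil]
  · simp only [mkx, tU1, wd_nest, wd_node, wd, List.replicate_succ, rep_comm', List.cons_append,
      List.append_assoc, List.nil_append, List.append_nil, List.map_append,
      List.map_cons, List.map_nil, List.map_replicate, Bool.not_true, Bool.not_false]

theorem T_U1 (d : ℕ) : TF (mkx (tU1 d) (U1_num d)) = xW d 2 := by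
  refine (TF_step (List.replicate (d + 3) true ++ [false, true])
    (List.replicate (d + 4) false) ?_ ?_).1
  · simp only [mkx, tU1, wd_nest, wd_node, wd, List.replicate_succ, rep_comm', List.cons_append,
      List.append_assoc, List.nil_append, List.append_nil]
  · simp only [xW, tW, tB2, wd_node, wd, wd_pw, List.replicate_succ, rep_comm', List.cons_append,
      List.append_assoc, List.nil_append, List.append_nil, List.map_append,
      List.map_cons, List.map_nil, List.map_replicate, Bool.not_true, Bool.not_false]

theorem T_B2 (d : ℕ) : TF (xW d 2) = mkx (tU2 d) (U2_num d) := by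
  refine (TF_step (List.replicate (d + 3) true)
    (List.replicate (d + 4) false ++ [true, false]) ?_ ?_).1
  · simp only [xW, tW, tB2, wd_node, wd, wd_pw, List.replicate_succ, rep_comm', List.cons_append,
      List.append_assoc, List.nil_append, List.append_nil]
  · simp only [mkx, tU2, wd_nest, wd_node, wd, List.replicate_succ, rep_comm', List.cons_append,
      List.append_assoc, List.nil_append, List.append_nil, List.map_append,
      List.map_cons, List.map_nil, List.map_replicate, Bool.not_true, Bool.not_false]

theorem T_U2 (d : ℕ) : TF (mkx (tU2 d) (U2_num d)) = xW d 3 := by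
  refine (TF_step (List.replicate (d + 3) true)
    (false :: true :: false :: List.replicate (d + 3) false) ?_ ?_).1
  · simp only [mkx, tU2, wd_nest, wd_node, wd, List.replicate_succ, rep_comm', List.cons_append,
      List.append_assoc, List.nil_append, List.append_nil]
  · simp only [xW, tW, tB3, wd_node, wd, wd_pw, List.replicate_succ, rep_comm', List.cons_append,
      List.append_assoc, List.nil_append, List.append_nil, List.map_append,
      List.map_cons, List.map_nil, List.map_replicate, Bool.not_true, Bool.not_false]

theorem T_B3 (d : ℕ) : TF (xW d 3) = mkx (tU3 d) (U3_num d) := by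
  refine (TF_step (true :: false :: List.replicate (d + 3) true)
    (List.replicate (d + 4) false) ?_ ?_).1
  · simp only [xW, tW, tB3, wd_node, wd, wd_pw, List.replicate_succ, rep_comm', List.cons_append,
      List.append_assoc, List.nil_append, List.append_nil]
  · simp only [mkx, tU3, wd_nest, wd_node, wd, List.replicate_succ, rep_comm', List.cons_append,
      List.append_assoc, List.nil_append, List.append_nil, List.map_append,
      List.map_cons, List.map_nil, List.map_replicate, Bool.not_true, Bool.not_false]

theorem T_U3 (d : ℕ) : TF (mkx (tU3 d) (U3_num d)) = xW d 4 := by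
  refine (TF_step (List.replicate (d + 3) true)
    (false :: false :: true :: List.replicate (d + 3) false) ?_ ?_).1
  · simp only [mkx, tU3, wd_nest, wd_node, wd, List.replicate_succ, rep_comm', List.cons_append,
      List.append_assoc, List.nil_append, List.append_nil]
  · simp only [xW, tW, tB4, wd_node, wd, wd_pw, List.replicate_succ, rep_comm', List.cons_append,
      List.append_assoc, List.nil_append, List.append_nil, List.map_append,
      List.map_cons, List.map_nil, List.map_replicate, Bool.not_true, Bool.not_false]

theorem T_C3 (d : ℕ) : TF (xW d 5) = mkx (tU4 d) (U4_num d) := by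
  refine (TF_step (List.replicate (d + 2) true)
    (List.replicate (d + 3) false ++ [true, false, true, false]) ?_ ?_).1
  · simp only [xW, tW, tC3, wd_node, wd, wd_pw, List.replicate_succ, rep_comm', List.cons_append,
      List.append_assoc, List.nil_append, List.append_nil]
  · simp only [mkx, tU4, wd_nest, wd_node, wd, List.replicate_succ, rep_comm', List.cons_append,
      List.append_assoc, List.nil_append, List.append_nil, List.map_append,
      List.map_cons, List.map_nil, List.map_replicate, Bool.not_true, Bool.not_false]

theorem T_U4 (d : ℕ) : TF (mkx (tU4 d) (U4_num d)) = xW d 6 := by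
  refine (TF_step (List.replicate (d + 2) true)
    (false :: true :: false :: true :: List.replicate (d + 3) false) ?_ ?_).1
  · simp only [mkx, tU4, wd_nest, wd_node, wd, List.replicate_succ, rep_comm', List.cons_append,
      List.append_assoc, List.nil_append, List.append_nil]
  · simp only [xW, tW, tC1, wd_node, wd, wd_pw, List.replicate_succ, rep_comm', List.cons_append,
      List.append_assoc, List.nil_append, List.append_nil, List.map_append,
      List.map_cons, List.map_nil, List.map_replicate, Bool.not_true, Bool.not_false]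

end Pool.OddHC
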