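import Pool.Agent.Work.MP_8f87b2_top.TopId

/-!
MP_8f87b2_co, top of the directed road: the T-cycles of content `(k-2,1,1)`: two beads on a ring of `2 j + 1` holes over
the nested word, `j = d + 2`, `k = d + 5`; one T-cycle for every distance `0..j`.
-/

set_option autoImplicit false

namespace Pool.OddHC

open Finset BinaryTree

/-- beads at the holes `0` and `h` -/
def bd {n : ℕ} (h : ℕ) (x : ZMod n) : ℕ := (if x = 0 then 1 else 0) + if x = (h : ZMod n) then 1 else 0

theorem bd_sum {n : ℕ} [NeZero n] (h : ℕ) : ∑ x : ZMod n, bd h x = 2 := by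
  unfold bd
  rw [sum_add_distrib, sum_ite_eq' univ (0 : ZMod n) (fun _ => 1),
    sum_ite_eq' univ (h : ZMod n) (fun _ => 1), if_pos (mem_univ _), if_pos (mem_univ _)]

theorem one_bead_sum {n : ℕ} [NeZero n] (t : ZMod n) : ∑ x : ZMod n, (if x = t then 1 else 0) = 1 := by
  rw [sum_ite_eq' univ t (fun _ => 1), if_pos (mem_univ _)]

/-- two beads: positions -/
theorem two_bead {n : ℕ} [NeZero n] (a : ZMod n → ℕ) (h : ∑ x, a x = 2) :
    ∃ s t, a = fun x => (if x = s then 1 else 0) + if x = t then 1 else 0 := by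
  obtain ⟨s, hs⟩ : ∃ s, a s ≠ 0 := by
    by_contra hc
    push Not at hc
    rw [Finset.sum_eq_zero (fun x _ => hc x)] at h
    omega
  have hle : ∀ x, (if x = s then 1 else 0) ≤ a x := by
    intro x
    split_ifs with hx
    · subst hx; omega
    · omega
  have h1 : ∑ x, (a x - if x = s then 1 else 0) = 1 := by
    have h2 : ∑ x, (a x - if x = s then 1 else 0) + ∑ x : ZMod n, (if x = s then 1 else 0) = 2 := by
      rw [← sum_add_distrib, ← h]
      apply sum_congr rfl
      intro x _
      have := hle x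
      omega
    rw [one_bead_sum] at h2
    omega
  obtain ⟨t, ht⟩ := one_bead _ h1
  refine ⟨s, t, funext fun x => ?_⟩
  have h2 := congrFun ht x
  have h3 := hle x
  omega

/-- every pair of beads is a rotation of `bd h`, `2 h + 1 ≤ n` -/
theorem two_rot {j : ℕ} (a : ZMod (2 * j + 1) → ℕ) (ha : ∑ x, a x = 2) :
    ∃ h, h ≤ j ∧ ∃ t, a = fun x => bd h (x + t) := by
  obtain ⟨s, t, hst⟩ := two_bead a ha
  have key : ∀ s t : ZMod (2 * j + 1), (t - s).val ≤ j →
      ∃ h, h ≤ j ∧ ∃ r, (fun x : ZMod (2 * j + 1) => (if x = s then 1 else 0) + if x = t then 1 else 0) =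
        fun x => bd h (x + r) := by
    intro s t h
    refine ⟨(t - s).val, h, -s, funext fun x => ?_⟩
    unfold bd
    rw [ZMod.natCast_zmod_val]
    have e1 : (x + -s = 0) ↔ x = s := by
      constructor
      · intro h; linear_combination h
      · rintro rfl; ring
    have e2 : (x + -s = t - s) ↔ x = t := by
      constructor
      · intro h; linear_combination h
      · rintro rfl; ring
    simp only [e1, e2]
  rw [hst]
  by_cases h : (t - s).val ≤ j
  · exact key s t h
  · have h2 : (s - t).val ≤ j := by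
      have h3 : s - t = -(t - s) := by ring
      rw [h3, ZMod.neg_val]
      split_ifs with h4
      · omega
      · omega
    obtain ⟨d, hd, r, hr⟩ := key t s h2
    refine ⟨d, hd, r, ?_⟩
    rw [← hr]
    funext x
    rw [add_comm]

/-- the distances are separated -/
theorem bd_rot {j : ℕ} {h h' : ℕ} (hh : h ≤ j) (hh' : h' ≤ j) {t : ZMod (2 * j + 1)}
    (he : (bd h' : ZMod (2 * j + 1) → ℕ) = fun x => bd h (x + t)) : h = h' := by
  have e0 := congrFun he 0
  have e1 := congrFun he (h' : ZMod (2 * j + 1))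
  have e2 := congrFun he (-t)
  have e3 := congrFun he ((h : ZMod (2 * j + 1)) - t)
  -- the support of `bd h'` is `{0, h'}`, the support of the other one is `{-t, h - t}`
  have s1 : (-t = 0 ∨ -t = (h' : ZMod (2 * j + 1))) := by
    by_contra hc
    rw [not_or] at hc
    simp only [bd, if_neg hc.1, if_neg hc.2, neg_add_cancel, if_true] at e2
    omega
  have s2 : ((h : ZMod (2 * j + 1)) - t = 0 ∨ (h : ZMod (2 * j + 1)) - t = (h' : ZMod (2 * j + 1))) := by
    by_contra hc
    rw [not_or] at hc
    simp only [bd, if_neg hc.1, if_neg hc.2, sub_add_cancel, if_true] at e3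
    omega
  have s3 : ((0 : ZMod (2 * j + 1)) + t = 0 ∨ (0 : ZMod (2 * j + 1)) + t = (h : ZMod (2 * j + 1))) := by
    by_contra hc
    rw [not_or] at hc
    simp only [bd, if_neg hc.1, if_neg hc.2, if_true] at e0
    omega
  have s4 : ((h' : ZMod (2 * j + 1)) + t = 0 ∨ (h' : ZMod (2 * j + 1)) + t = (h : ZMod (2 * j + 1))) := by
    by_contra hc
    rw [not_or] at hc
    simp only [bd, if_neg hc.1, if_neg hc.2, if_true] at e1
    omega
  have cast_inj : ∀ {x y : ℕ}, x ≤ j → y ≤ j → (x : ZMod (2 * j + 1)) = (y : ZMod (2 * j + 1)) → x = y := by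
    intro x y hx hy hxy
    have := congrArg ZMod.val hxy
    rwa [ZMod.val_natCast_of_lt (by omega), ZMod.val_natCast_of_lt (by omega)] at this
  have cast_neg : ∀ {x y : ℕ}, x ≤ j → y ≤ j → (x : ZMod (2 * j + 1)) = -(y : ZMod (2 * j + 1)) →
      x = y := by
    intro x y hx hy hxy
    have h1 : ((x + y : ℕ) : ZMod (2 * j + 1)) = 0 := by
      push_cast
      rw [hxy]
      ring
    rw [ZMod.natCast_eq_zero_iff] at h1
    have h2 : x + y = 0 := Nat.eq_zero_of_dvd_of_lt h1 (by omega)
    omega
  rcases s1 with s1 | s1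
  · have ht : t = 0 := by linear_combination -s1
    subst ht
    rcases s2 with s2 | s2
    · rcases s4 with s4 | s4
      · apply cast_inj hh hh'
        linear_combination s2 - s4
      · apply cast_inj hh hh'
        linear_combination -s4
    · apply cast_inj hh hh'
      linear_combination s2
  · rcases s3 with s3 | s3
    · have ht : t = 0 := by linear_combination s3
      subst ht
      rcases s2 with s2 | s2
      · rcases s4 with s4 | s4
        · apply cast_inj hh hh'
          linear_combination s2 - s4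
        · apply cast_inj hh hh'
          linear_combination -s4
      · apply cast_inj hh hh'
        linear_combination s2
    · apply cast_neg hh hh'
      linear_combination -s1 - s3

/-- the class word of the distance `h`, `k = d + 5` -/
def c2w (d h : ℕ) : X (d + 5) :=
  phi (pwX (d + 2)) (bd h) (by rw [bd_sum]; change d + 2 + pkn (pw (d + 2)) + 2 = d + 5; rw [pkn_pw])

theorem c2w_same {d h h' : ℕ} (hh : h ≤ d + 2) (hh' : h' ≤ d + 2)
    (hs : (TT : Equiv.Perm (X (d + 5))).SameCycle (c2w d h) (c2w d h')) : h = h' := by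
  unfold c2w at hs
  rw [same_fix (by omega) _ (T_pwX _)] at hs
  obtain ⟨t, ht⟩ := hs
  exact bd_rot hh hh' ht

/-- classification of the words of height `>= k - 2` -/
theorem top_class (d : ℕ) (w : X (d + 5)) (h : d + 3 ≤ ht w.1) :
    w = pwX (d + 5) ∨ ht w.1 = d + 4 ∨ (ht w.1 = d + 3 ∧ pkn w.1 = 2) ∨
      (ht w.1 = d + 3 ∧ ∃ c, c ≤ d + 2 ∧ (TT : Equiv.Perm (X (d + 5))).SameCycle (c2w d c) w) := by
  have h1 := ht_le w.1
  rw [X_num] at h1
  rcases (by omega : ht w.1 = d + 5 ∨ ht w.1 = d + 4 ∨ ht w.1 = d + 3) with h2 | h2 | h2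
  · exact Or.inl (ht_fullX w h2)
  · exact Or.inr (Or.inl h2)
  · refine Or.inr (Or.inr ?_)
    obtain ⟨l, u, a, hk, hw, h3, hl⟩ := red_ht w (by omega)
    have h4 := ht_le u.1
    rw [X_num] at h4
    have h5 : 1 ≤ pkn u.1 := pkn_pos u hl
    have h6 : pkn w.1 = pkn u.1 + ∑ x, a x := by
      rw [hw]
      change pkn (ins u.1 (lf a)) = _
      rw [(ins_num u.1 (lf a) (by rw [lf_length, X_num])).2, lf_sum]
    rcases (by omega : l = d + 2 ∨ l = d + 3 ∨ l = d + 4) with h7 | h7 | h7
    · subst h7
      have h8 : u = pwX (d + 2) := ht_fullX u (by omega)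
      subst h8
      right
      refine ⟨h2, ?_⟩
      have h9 : pkn (pwX (d + 2)).1 = 1 := pkn_pw (d + 1)
      have h10 : ∑ x, a x = 2 := by omega
      obtain ⟨c, hc, t, hct⟩ := two_rot a h10
      refine ⟨c, hc, ?_⟩
      rw [hw]
      unfold c2w
      rw [same_fix (by omega) _ (T_pwX _)]
      exact ⟨t, hct⟩
    · left
      refine ⟨h2, ?_⟩
      omega
    · exfalso
      have h8 : pkn u.1 = 1 := by omega
      have h9 : (cont u.1).card = 1 := by rw [cont_card, h8]
      obtain ⟨b, hb⟩ := Multiset.card_eq_one.1 h9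
      have h10 := cont_sum u.1
      rw [hb, Multiset.sum_singleton, X_num] at h10
      have h11 := ht_eq u.1
      rw [hb, Multiset.sup_singleton] at h11
      omega

/-- the words of content `(k-2,2)` are in one T-cycle -/
theorem same_d1 (d : ℕ) (w w' : X (d + 5)) (h : ht w.1 = d + 3) (hp : pkn w.1 = 2)
    (h' : ht w'.1 = d + 3) (hp' : pkn w'.1 = 2) :
    (TT : Equiv.Perm (X (d + 5))).SameCycle w w' := by
  have key : ∀ w : X (d + 5), ht w.1 = d + 3 → pkn w.1 = 2 → ∃ (u : X (d + 3))
      (hk : d + 3 + pkn u.1 + ∑ x : ZMod (2 * (d + 3) + 1), (fun _ => 0 : ZMod (2 * (d + 3) + 1) → ℕ) x = d + 5),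
      w = phi u (fun _ => 0) hk ∧ ht u.1 + 1 = d + 3 := by
    intro w h2 hp
    obtain ⟨l, u, a, hk, hw, h3, hl⟩ := red_ht w (by omega)
    have h4 := ht_le u.1
    rw [X_num] at h4
    have h5 : 1 ≤ pkn u.1 := pkn_pos u hl
    have h6 : pkn w.1 = pkn u.1 + ∑ x, a x := by
      rw [hw]
      change pkn (ins u.1 (lf a)) = _
      rw [(ins_num u.1 (lf a) (by rw [lf_length, X_num])).2, lf_sum]
    have h7 : l = d + 3 := by omega
    subst h7
    have h8 : pkn u.1 ≠ 1 := by
      intro h8
      have h9 : (cont u.1).card = 1 := by rw [cont_card, h8]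
      obtain ⟨b, hb⟩ := Multiset.card_eq_one.1 h9
      have h10 := cont_sum u.1
      rw [hb, Multiset.sum_singleton, X_num] at h10
      have h11 := ht_eq u.1
      rw [hb, Multiset.sup_singleton] at h11
      omega
    have h9 : ∑ x, a x = 0 := by omega
    have h10 : a = fun _ => 0 := by
      funext x
      exact Finset.sum_eq_zero_iff.1 h9 x (mem_univ x)
    subst h10
    exact ⟨u, hk, hw, by omega⟩
  obtain ⟨u, hk, hw, hu⟩ := key w h hp
  obtain ⟨u', hk', hw', hu'⟩ := key w' h' hp'
  rw [hw, hw']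
  exact same_phi (fun _ => rfl) hk hk' (same_sub (by omega) u u' hu hu')

end Pool.OddHC
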