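import Pool.Agent.Work.MP_8f87b2_rec.Rec

/-!
MP_8f87b2_co, top of the directed road: one step of `T` in list form, nested words, the words of the top block
`[R;e,e,e,e]`, `R = 1^(k-2) 0^(k-2)`, their images under `T` and their invariants.
-/

namespace Pool.OddHC

open Finset BinaryTree

/-- `T` in list form -/
theorem TF_eq {k : ℕ} {t u : X k} {A B : List Bool} (h : cw t.1 = A ++ B)
    (hu : sl u.1 = B ++ A) : TF t = u ∧ Vo t = (A.length : ZMod (2 * k + 1)) := by
  have h1 := TF_spec t 0
  have h2 := st_rotate (cw t.1) (cw_len t) 0 A.length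
  have h3 : (cw t.1).rotate A.length = sl u.1 := by
    rw [h, List.rotate_append_length_eq, hu]
  rw [h3, zero_add] at h2
  have h4 : io (TF t) (0 + Vo t) = io u (A.length : ZMod (2 * k + 1)) := by
    rw [h1, ← h2]
    rfl
  have h5 := io_inj h4
  rw [zero_add] at h5
  exact h5

/-- one step of `T`: the word `Z 1 W` goes to the word `W' 0 Z'` (complements), if this is a word -/
theorem TF_step {k : ℕ} {t u : X k} (Z W : List Bool) (h : wd t.1 = Z ++ true :: W)
    (hu : wd u.1 = W.map not ++ false :: Z.map not) :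
    TF t = u ∧ Vo t = ((Z.length + 1 : ℕ) : ZMod (2 * k + 1)) := by
  have h1 := TF_eq (t := t) (u := u) (A := false :: Z.map not) (B := false :: W.map not)
    (by unfold cw; rw [h]; simp) (by unfold sl; rw [hu]; simp)
  refine ⟨h1.1, ?_⟩
  rw [h1.2]
  simp

/-- `1^n t 0^n` -/
def nest : ℕ → BinaryTree Unit → BinaryTree Unit
  | 0, t => t
  | n + 1, t => nest n t △ .nil

theorem rep_comm (b : Bool) (n : ℕ) (l : List Bool) :
    b :: (List.replicate n b ++ l) = List.replicate n b ++ b :: l := by
  induction n with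
  | zero => rfl
  | succ n ih => rw [List.replicate_succ, List.cons_append, ih]; rfl

theorem wd_nest (n : ℕ) (t : BinaryTree Unit) :
    wd (nest n t) = List.replicate n true ++ (wd t ++ List.replicate n false) := by
  induction n with
  | zero => simp [nest]
  | succ n ih =>
    rw [nest, wd_node, ih, List.replicate_succ, List.replicate_succ', wd]
    simp

theorem nest_num (n : ℕ) (t : BinaryTree Unit) : (nest n t).numNodes = n + t.numNodes := by
  induction n with
  | zero => rw [nest, zero_add]
  | succ n ih =>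
    change (nest n t).numNodes + 0 + 1 = _
    rw [ih]
    ring

/-- `1^n 0^n` -/
def pw (n : ℕ) : BinaryTree Unit := nest n .nil

theorem pw_succ (n : ℕ) : pw (n + 1) = pw n △ .nil := rfl

theorem wd_pw (n : ℕ) : wd (pw n) = List.replicate n true ++ List.replicate n false := by
  unfold pw
  rw [wd_nest, wd, List.nil_append]

theorem pw_num (n : ℕ) : (pw n).numNodes = n := by
  unfold pw
  rw [nest_num]
  rfl

theorem pkn_nest (n : ℕ) (t : BinaryTree Unit) (h : leaf t = 0) :
    pkn (nest n t) = pkn t ∧ leaf (nest n t) = 0 := by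
  induction n with
  | zero => exact ⟨rfl, h⟩
  | succ n ih =>
    refine ⟨?_, rfl⟩
    change leaf (nest n t) + pkn (nest n t) + 0 = pkn t
    rw [ih.1, ih.2]
    omega

theorem pkn_pw (n : ℕ) : pkn (pw (n + 1)) = 1 := by
  induction n with
  | zero => rfl
  | succ n ih =>
    rw [pw_succ]
    change leaf (pw (n + 1)) + pkn (pw (n + 1)) + 0 = 1
    rw [ih]
    rfl

/-! ### The reduced words -/

theorem red_pw (n : ℕ) : red (pw (n + 2)) = (pw (n + 1), List.replicate (2 * n + 3) 0) := by
  induction n with
  | zero => rfl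
  | succ n ih =>
    rw [pw_succ, red, ih, pw_succ]
    change redc (pw (n + 1) △ .nil) (pw (n + 1), List.replicate (2 * n + 3) 0) (.nil, [0]) = _
    rw [redc]
    simp only
    rw [pw_succ n]
    change (_, 0 :: (List.replicate (2 * n + 3) 0 ++ [0])) = _
    rw [← List.replicate_succ', ← List.replicate_succ]
    rfl

/-- an invariant of the T-cycles -/
def inv3 (t : BinaryTree Unit) : ℕ × ℕ × Bool :=
  (pkn t, pkn (red t).1, decide (2 ∈ (red t).2))

theorem inv3_TF {k : ℕ} (w : X k) : inv3 (TF w).1 = inv3 w.1 := by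
  obtain ⟨j, u, e, he, hw, h1, h2⟩ := red_ex w
  have h3 := (TF_ins u e he w hw).1
  have h4 := pkn_TF w
  have h5 := pkn_TF u
  unfold inv3
  rw [h4, h3, hw, red_ins _ _ (by rw [X_num, List.length_rotate, he]),
    red_ins _ _ (by rw [X_num, he]), h5]
  simp only [List.mem_rotate]

end Pool.OddHC
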